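import Pool.Agent.HHalf.NCC

set_option autoImplicit false

namespace Pool.Agent.HHalf

open Polynomial Set Complex ComplexConjugate

/-- The node list `L, conj L` indexed by `Fin N × Bool`. -/
noncomputable def zL {N : ℕ} (L : Fin N → ℂ) (i : Fin N × Bool) : ℂ :=
  if i.2 then conj (L i.1) else L i.1

/-- The factor of one pair. -/
noncomputable def pr {N : ℕ} (L : Fin N → ℂ) (a : Fin N) : ℂ[X] :=
  (X - C (L a)) * (X - C (conj (L a)))

theorem norm_zL {N : ℕ} {L : Fin N → ℂ} (hL : ∀ a, ‖L a‖ ≤ 1) (i : Fin N × Bool) : ‖zL L i‖ ≤ 1 := by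
  unfold zL
  split_ifs
  · rw [Complex.norm_conj]; exact hL _
  · exact hL _

theorem zL_not {N : ℕ} (L : Fin N → ℂ) (a : Fin N) (b : Bool) :
    zL L (a, !b) = conj (zL L (a, b)) := by
  cases b <;> simp [zL]

/-- The factor of one pair in terms of either of its members. -/
theorem pr_eq {N : ℕ} (L : Fin N → ℂ) (a : Fin N) (b : Bool) :
    pr L a = (X - C (zL L (a, b))) * (X - C (conj (zL L (a, b)))) := by
  cases b
  · simp [zL, pr]
  · simp [zL, pr, mul_comm]

theorem om_zL {N : ℕ} (L : Fin N → ℂ) : om (zL L) = ∏ a, pr L a := by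
  rw [om, Fintype.prod_prod_type]
  refine Finset.prod_congr rfl fun a _ => ?_
  rw [Fintype.prod_bool, pr_eq L a true, ← zL_not L a true]
  simp

/-- Both members of the pair `a` omitted. -/
theorem omij_same {N : ℕ} (L : Fin N → ℂ) (a : Fin N) (b : Bool) :
    omij (zL L) (a, b) (a, !b) = ∏ a' ∈ Finset.univ.erase a, pr L a' := by
  have hS : ((Finset.univ : Finset (Fin N × Bool)).erase (a, b)).erase (a, !b) =
      (Finset.univ.erase a) ×ˢ (Finset.univ : Finset Bool) := by
    ext ⟨c, e⟩
    simp only [Finset.mem_erase, Finset.mem_univ, and_true, Finset.mem_product, ne_eq,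
      Prod.mk.injEq, not_and]
    constructor
    · rintro ⟨h1, h2⟩ h3
      subst h3
      have h1 := h1 rfl
      have h2 := h2 rfl
      cases b <;> cases e <;> simp_all
    · intro h
      exact ⟨fun h3 => absurd h3 h, fun h3 => absurd h3 h⟩
  rw [omij, hS, Finset.prod_product]
  refine Finset.prod_congr rfl fun c _ => ?_
  rw [Fintype.prod_bool]
  simp [zL, pr, mul_comm]

/-- Members of different pairs omitted: the partners stay. -/
theorem omij_diff {N : ℕ} (L : Fin N → ℂ) {a a' : Fin N} (haa : a ≠ a') (b b' : Bool) :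
    omij (zL L) (a, b) (a', b') =
      (∏ c ∈ (Finset.univ.erase a).erase a', pr L c) *
        ((X - C (conj (zL L (a, b)))) * (X - C (conj (zL L (a', b'))))) := by
  have hS : ((Finset.univ : Finset (Fin N × Bool)).erase (a, b)).erase (a', b') =
      (((Finset.univ.erase a).erase a') ×ˢ (Finset.univ : Finset Bool)) ∪
        {(a, !b), (a', !b')} := by
    ext ⟨c, e⟩
    simp only [Finset.mem_erase, Finset.mem_univ, and_true, Finset.mem_product, ne_eq,
      Prod.mk.injEq, not_and, Finset.mem_union, Finset.mem_insert, Finset.mem_singleton]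
    constructor
    · rintro ⟨h1, h2⟩
      by_cases hc : c = a
      · subst hc
        right; left
        refine ⟨rfl, ?_⟩
        have := h2 rfl
        cases b <;> cases e <;> simp_all
      · by_cases hc' : c = a'
        · subst hc'
          right; right
          refine ⟨rfl, ?_⟩
          have := h1 rfl
          cases b' <;> cases e <;> simp_all
        · left
          exact ⟨hc', hc⟩
    · rintro (⟨h1, h2⟩ | ⟨rfl, rfl⟩ | ⟨rfl, rfl⟩)
      · exact ⟨fun h => absurd h h1, fun h => absurd h h2⟩
      · exact ⟨fun h => absurd h haa, fun _ h => by cases b <;> simp_all⟩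
      · exact ⟨fun _ h => by cases b' <;> simp_all, fun h => absurd h.symm haa⟩
  have hd : Disjoint (((Finset.univ.erase a).erase a') ×ˢ (Finset.univ : Finset Bool))
      {(a, !b), (a', !b')} := by
    rw [Finset.disjoint_left]
    rintro ⟨c, e⟩ h1 h2
    simp only [Finset.mem_erase, Finset.mem_univ, and_true, Finset.mem_product, ne_eq,
      Finset.mem_insert, Prod.mk.injEq, Finset.mem_singleton] at h1 h2
    rcases h2 with ⟨h, _⟩ | ⟨h, _⟩
    · exact h1.2 h
    · exact h1.1 h
  have hne : (a, !b) ≠ (a', !b') := fun h => haa (Prod.mk.inj h).1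
  rw [omij, hS, Finset.prod_union hd, Finset.prod_pair hne, Finset.prod_product, zL_not, zL_not]
  congr 1
  refine Finset.prod_congr rfl fun c _ => ?_
  rw [Fintype.prod_bool]
  simp [zL, pr, mul_comm]

end Pool.Agent.HHalf
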