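import Mathlib

/-!
# Orders `k > n/2` (and `k = n - 1`) of the uniform interpolation error: definitions

Overview: doc `proof/MP_832e94_an_h56b`.

* `nu` is the exponential law on the half line, `mu n` the law of `n` independent exponential
  variables, `TT X` their sum and `DD z X` the random barycentre of the nodes (law: uniform on the
  simplex of weights).
* `om z = ∏ (X - z_i)`, `omj z j`, `omij z i j` the products without one (two) factors,
  `cc z k x j = (x - z_j) · ω_j^{(k)}(x)/k!`.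
* `bb l J = (X+1)^J (X-1)^(l-J)`.
-/

set_option autoImplicit false

namespace Pool.Agent.HHalf

open MeasureTheory Set Polynomial

/-- The exponential law with density `e^{-x}` on `(0, ∞)`. -/
noncomputable def nu : Measure ℝ :=
  (volume.restrict (Ioi 0)).withDensity (fun x => ENNReal.ofReal (Real.exp (-x)))

/-- The law of `n` independent exponential variables. -/
noncomputable def mu (n : ℕ) : Measure (Fin n → ℝ) := Measure.pi (fun _ => nu)

/-- The sum of the coordinates. -/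
def TT {n : ℕ} (X : Fin n → ℝ) : ℝ := ∑ i, X i

/-- The barycentre `∑ X_i z_i / ∑ X_i`. -/
noncomputable def DD {n : ℕ} (z : Fin n → ℂ) (X : Fin n → ℝ) : ℂ :=
  (∑ i, (X i : ℂ) * z i) / (TT X : ℂ)

/-- Insert the real number `x` as `i`-th coordinate. -/
def ins {n : ℕ} (i : Fin (n + 1)) (x : ℝ) (y : Fin n → ℝ) : Fin (n + 1) → ℝ :=
  Fin.insertNth (α := fun _ => ℝ) i x y

section nodes

variable {ι : Type*} [Fintype ι] [DecidableEq ι]

/-- `ω = ∏ (X - z_i)`. -/
noncomputable def om (z : ι → ℂ) : ℂ[X] := ∏ i, (X - C (z i))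

/-- `ω_j`: the factor `j` is omitted. -/
noncomputable def omj (z : ι → ℂ) (j : ι) : ℂ[X] := ∏ i ∈ Finset.univ.erase j, (X - C (z i))

/-- `ω_ij`: the factors `i`, `j` are omitted. -/
noncomputable def omij (z : ι → ℂ) (i j : ι) : ℂ[X] :=
  ∏ l ∈ (Finset.univ.erase i).erase j, (X - C (z l))

/-- `c_j = (x - z_j) ω_j^{(k)}(x)/k!`. -/
noncomputable def cc (z : ι → ℂ) (k : ℕ) (x : ℂ) (j : ι) : ℂ :=
  (x - z j) * (hasseDeriv k (omj z j)).eval x

end nodes

/-- `Γ = ∑ c_j (X_j/T) (z_j - D)`. -/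
noncomputable def Gam {n : ℕ} (z : Fin n → ℂ) (c : Fin n → ℂ) (X : Fin n → ℝ) : ℂ :=
  ∑ j, c j * ((X j / TT X : ℝ) : ℂ) * (z j - DD z X)

/-- `(X+1)^J (X-1)^(l-J)` over a commutative ring. -/
noncomputable def bb (R : Type*) [CommRing R] (l J : ℕ) : R[X] := (X + 1) ^ J * (X - 1) ^ (l - J)

/-- The mixture `∑_{J ≤ l} P(J) (X+1)^J (X-1)^(l-J)`. -/
noncomputable def mix (l : ℕ) (P : ℕ → ℝ) : ℂ[X] :=
  ∑ J ∈ Finset.range (l + 1), C (P J : ℂ) * bb ℂ l J

end Pool.Agent.HHalf
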