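import Pool.Agent.HHalf.Defs

set_option autoImplicit false

namespace Pool.Agent.HHalf

open Polynomial Set

/-- `taylor_coeff`: the value is the coefficient of `X^m` in `(X + 2)^J X^(l-J)`
(`coeff_mul_X_pow'`, `coeff_X_add_C_pow`). -/
theorem bb_one (R : Type*) [CommRing R] {l J m : ℕ} (hJ : J ≤ l) (hm : m ≤ l) :
    (hasseDeriv m (bb R l J)).eval 1 = (J.choose (l - m) : R) * 2 ^ (l - m) := by
  rw [← taylor_coeff]
  have h : taylor 1 (bb R l J) = (X + C 2) ^ J * X ^ (l - J) := by
    have h2 : (C (2 : R)) = (1 : R[X]) + 1 := by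
      rw [show (2 : R) = 1 + 1 by norm_num, C_add, C_1]
    simp only [bb, taylor_apply, mul_comp, pow_comp, add_comp, sub_comp, X_comp, one_comp, C_1, h2]
    congr 2
    · ring
    · ring
  rw [h, coeff_mul_X_pow', coeff_X_add_C_pow]
  split_ifs with h1
  · have e1 : J - (m - (l - J)) = l - m := by omega
    have e2 : J.choose (m - (l - J)) = J.choose (l - m) := by
      rw [← Nat.choose_symm (show m - (l - J) ≤ J by omega), e1]
    rw [e1, e2, mul_comm]
  · rw [Nat.choose_eq_zero_of_lt (by omega)]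
    simp

/-- The coefficient of `X^m` in `X^J (X - 2)^(l-J)`. -/
theorem bb_neg_one (R : Type*) [CommRing R] {l J m : ℕ} (hJ : J ≤ l) (hm : m ≤ l) :
    (hasseDeriv m (bb R l J)).eval (-1) = ((l - J).choose (l - m) : R) * (-2) ^ (l - m) := by
  rw [← taylor_coeff]
  have h : taylor (-1) (bb R l J) = (X + C (-2)) ^ (l - J) * X ^ J := by
    have h2 : (C (-2 : R)) = -(1 : R[X]) - 1 := by
      rw [show (-2 : R) = -1 - 1 by norm_num, C_sub, C_neg, C_1]
    simp only [bb, taylor_apply, mul_comp, pow_comp, add_comp, sub_comp, X_comp, one_comp, C_neg,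
      C_1, h2]
    rw [mul_comm]
    congr 2
    · ring
    · ring
  rw [h, coeff_mul_X_pow', coeff_X_add_C_pow]
  split_ifs with h1
  · have e1 : l - J - (m - J) = l - m := by omega
    have e2 : (l - J).choose (m - J) = (l - J).choose (l - m) := by
      rw [← Nat.choose_symm (show m - J ≤ l - J by omega), e1]
    rw [e1, e2, mul_comm]
  · rw [Nat.choose_eq_zero_of_lt (by omega)]
    simp

/-- `bb ℂ` is the image of `bb ℝ`. -/
theorem bb_map (l J : ℕ) : (bb ℝ l J).map (algebraMap ℝ ℂ) = bb ℂ l J := by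
  simp [bb, Polynomial.map_mul, Polynomial.map_pow]

theorem hasse_bb_ofReal (m l J : ℕ) (x : ℝ) :
    (hasseDeriv m (bb ℂ l J)).eval (x : ℂ) = (((hasseDeriv m (bb ℝ l J)).eval x : ℝ) : ℂ) := by
  rw [← bb_map, ← taylor_coeff, ← taylor_coeff]
  have : taylor (x : ℂ) ((bb ℝ l J).map (algebraMap ℝ ℂ)) =
      (taylor x (bb ℝ l J)).map (algebraMap ℝ ℂ) := by
    simp [taylor_apply, Polynomial.map_comp]
  rw [this, coeff_map]
  rfl

end Pool.Agent.HHalf
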