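import Pool.Agent.HHalf.SBound
import Pool.Agent.HHalf.SEnd

set_option autoImplicit false

namespace Pool.Agent.HHalf

open Polynomial Set

/-- `bb_bound_aux` divided by `m!` (`factorial_smul_hasseDeriv`), with the values at `±1`. -/
theorem bb_bound {l J m : ℕ} (hJ : J ≤ l) (hm : m ≤ l) (hl : l ≤ 2 * m) {x : ℝ}
    (hx : x ∈ Icc (-1:ℝ) 1) :
    ‖(hasseDeriv m (bb ℂ l J)).eval (x : ℂ)‖ ≤
      2 ^ (l - m) * max (J.choose (l - m) : ℝ) ((l - J).choose (l - m) : ℝ) := by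
  have hf : (0 : ℝ) < (m.factorial : ℝ) := by exact_mod_cast m.factorial_pos
  have key : ∀ t : ℝ, (derivative^[m] (bb ℝ l J)).eval t =
      (m.factorial : ℝ) * (hasseDeriv m (bb ℝ l J)).eval t := by
    intro t
    have h := congrArg (fun g : ℝ[X] → ℝ[X] => (g (bb ℝ l J)).eval t)
      (factorial_smul_hasseDeriv (R := ℝ) m)
    simp only [LinearMap.smul_apply] at h
    rw [← h]
    simp
  have hb := bb_bound_aux hJ hm hl hx
  rw [key x, key 1, key (-1), abs_mul, abs_mul, abs_mul, abs_of_pos hf,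
    ← mul_max_of_nonneg _ _ hf.le] at hb
  have hb' := le_of_mul_le_mul_left hb hf
  rw [bb_one ℝ hJ hm, bb_neg_one ℝ hJ hm] at hb'
  have h2 : |((-2 : ℝ)) ^ (l - m)| = 2 ^ (l - m) := by
    rw [abs_pow]
    norm_num
  have h2' : |((2 : ℝ)) ^ (l - m)| = 2 ^ (l - m) := by
    rw [abs_pow]
    norm_num
  rw [abs_mul, abs_mul, h2, h2', Nat.abs_cast, Nat.abs_cast,
    ← max_mul_of_nonneg _ _ (by positivity : (0 : ℝ) ≤ 2 ^ (l - m)), mul_comm] at hb'
  rw [hasse_bb_ofReal, Complex.norm_real, Real.norm_eq_abs]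
  exact hb'

end Pool.Agent.HHalf
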