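
import Pool.Agent.HHalf.SMain

set_option autoImplicit false

namespace Pool.Agent.HHalf

open Polynomial Set Complex

theorem rend_sum {β : Type*} (S : Finset β) (a : β → ℂ) (J : β → ℕ) (n m : ℕ) (x : ℂ) :
    (hasseDeriv m (∑ b ∈ S, C (a b) * bb ℂ n (J b))).eval x =
      ∑ b ∈ S, a b * (hasseDeriv m (bb ℂ n (J b))).eval x := by
  rw [map_sum, eval_finsetSum]
  refine Finset.sum_congr rfl (fun b _ => ?_)
  rw [C_mul', map_smul, eval_smul, smul_eq_mul]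

/-- Value at `1` of a positive mixture (`bb_one`; all terms are nonnegative reals). -/
theorem end_one {β : Type*} (S : Finset β) (a : β → ℝ) (ha : ∀ b ∈ S, 0 ≤ a b) (J : β → ℕ)
    {n m : ℕ} (hJ : ∀ b ∈ S, J b ≤ n) (hm : m ≤ n) :
    ‖(hasseDeriv m (∑ b ∈ S, C (a b : ℂ) * bb ℂ n (J b))).eval 1‖ =
      2 ^ (n - m) * ∑ b ∈ S, a b * ((J b).choose (n - m) : ℝ) := by
  rw [rend_sum S (fun b => (a b : ℂ)) J n m 1]
  have h1 : ∑ b ∈ S, (a b : ℂ) * (hasseDeriv m (bb ℂ n (J b))).eval 1 =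
      ((2 ^ (n - m) * ∑ b ∈ S, a b * ((J b).choose (n - m) : ℝ) : ℝ) : ℂ) := by
    push_cast
    rw [Finset.mul_sum]
    refine Finset.sum_congr rfl (fun b hb => ?_)
    rw [bb_one ℂ (hJ b hb) hm]
    ring
  rw [h1, Complex.norm_real, Real.norm_of_nonneg]
  refine mul_nonneg (by positivity) (Finset.sum_nonneg (fun b hb => ?_))
  exact mul_nonneg (ha b hb) (by positivity)

/-- Value at `-1` (`bb_neg_one`; all terms have the same sign `(-1)^(n-m)`). -/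
theorem end_neg_one {β : Type*} (S : Finset β) (a : β → ℝ) (ha : ∀ b ∈ S, 0 ≤ a b) (J : β → ℕ)
    {n m : ℕ} (hJ : ∀ b ∈ S, J b ≤ n) (hm : m ≤ n) :
    ‖(hasseDeriv m (∑ b ∈ S, C (a b : ℂ) * bb ℂ n (J b))).eval (-1)‖ =
      2 ^ (n - m) * ∑ b ∈ S, a b * ((n - J b).choose (n - m) : ℝ) := by
  rw [rend_sum S (fun b => (a b : ℂ)) J n m (-1)]
  have h1 : ∑ b ∈ S, (a b : ℂ) * (hasseDeriv m (bb ℂ n (J b))).eval (-1) =
      (-1) ^ (n - m) *
        ((2 ^ (n - m) * ∑ b ∈ S, a b * ((n - J b).choose (n - m) : ℝ) : ℝ) : ℂ) := by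
    push_cast
    rw [Finset.mul_sum, Finset.mul_sum]
    refine Finset.sum_congr rfl (fun b hb => ?_)
    rw [bb_neg_one ℂ (hJ b hb) hm]
    have h2 : (-2 : ℂ) ^ (n - m) = (-1) ^ (n - m) * 2 ^ (n - m) := by
      rw [← mul_pow]
      norm_num
    rw [h2]
    ring
  rw [h1, norm_mul, norm_pow, norm_neg, norm_one, one_pow, one_mul, Complex.norm_real,
    Real.norm_of_nonneg]
  refine mul_nonneg (by positivity) (Finset.sum_nonneg (fun b hb => ?_))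
  exact mul_nonneg (ha b hb) (by positivity)

/-- Bound on `[-1, 1]` (`bb_bound`, triangle inequality). -/
theorem mid_bound {β : Type*} (S : Finset β) (a : β → ℂ) (J : β → ℕ)
    {n m : ℕ} (hJ : ∀ b ∈ S, J b ≤ n) (hm : m ≤ n) (hn : n ≤ 2 * m) {x : ℝ}
    (hx : x ∈ Icc (-1:ℝ) 1) :
    ‖(hasseDeriv m (∑ b ∈ S, C (a b) * bb ℂ n (J b))).eval (x : ℂ)‖ ≤
      2 ^ (n - m) * ∑ b ∈ S, ‖a b‖ *
        max ((J b).choose (n - m) : ℝ) ((n - J b).choose (n - m) : ℝ) := by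
  rw [rend_sum S a J n m (x : ℂ), Finset.mul_sum]
  refine (norm_sum_le _ _).trans (Finset.sum_le_sum (fun b hb => ?_))
  rw [norm_mul]
  have h1 := bb_bound (hJ b hb) hm hn hx
  calc ‖a b‖ * ‖(hasseDeriv m (bb ℂ n (J b))).eval (x : ℂ)‖
      ≤ ‖a b‖ * (2 ^ (n - m) *
        max ((J b).choose (n - m) : ℝ) ((n - J b).choose (n - m) : ℝ)) :=
        mul_le_mul_of_nonneg_left h1 (norm_nonneg _)
    _ = _ := by ring

end Pool.Agent.HHalf
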