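import Pool.Agent.HHalf.Defs

set_option autoImplicit false

namespace Pool.Agent.HHalf

open Polynomial Set Complex ComplexConjugate

/-- Weights of a conjugate pair: `(w - z)(w - z̄) = π₂ (w+1)² + π₁ (w+1)(w-1) + π₀ (w-1)²`. -/
noncomputable def pz (z : ℂ) (p : ℕ) : ℝ :=
  if p = 0 then normSq (1 + z) / 4 else if p = 1 then (1 - normSq z) / 2
    else if p = 2 then normSq (1 - z) / 4 else 0

theorem pz_nonneg {z : ℂ} (hz : ‖z‖ ≤ 1) (p : ℕ) : 0 ≤ pz z p := by
  have h : normSq z ≤ 1 := by
    rw [Complex.normSq_eq_norm_sq]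
    nlinarith [norm_nonneg z]
  unfold pz
  split_ifs
  · exact div_nonneg (Complex.normSq_nonneg _) (by norm_num)
  · linarith
  · exact div_nonneg (Complex.normSq_nonneg _) (by norm_num)
  · exact le_refl _

theorem pz_sum (z : ℂ) : pz z 0 + pz z 1 + pz z 2 = 1 := by
  unfold pz
  simp only [if_true, one_ne_zero, if_false, OfNat.ofNat_ne_zero, OfNat.ofNat_ne_one,
    Complex.normSq_apply, Complex.add_re, Complex.add_im, Complex.sub_re, Complex.sub_im,
    Complex.one_re, Complex.one_im]
  ring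

theorem pair_eq (z : ℂ) :
    (X - C z) * (X - C (conj z)) = C (pz z 0 : ℂ) * (X - 1) ^ 2 + C (pz z 1 : ℂ) * ((X + 1) * (X - 1))
      + C (pz z 2 : ℂ) * (X + 1) ^ 2 := by
  have h1 : (pz z 0 : ℂ) + pz z 1 + pz z 2 = 1 := by
    have := pz_sum z
    exact_mod_cast this
  have h2 : 2 * (pz z 2 : ℂ) - 2 * pz z 0 = -(z + conj z) := by
    apply Complex.ext
    · simp [pz, Complex.normSq_apply]
      ring
    · simp [pz]
  have h3 : (pz z 0 : ℂ) - pz z 1 + pz z 2 = z * conj z := by
    apply Complex.ext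
    · simp [pz, Complex.normSq_apply]
      ring
    · simp [pz]
      ring
  have c1 := congrArg (C : ℂ → ℂ[X]) h1
  have c2 := congrArg (C : ℂ → ℂ[X]) h2
  have c3 := congrArg (C : ℂ → ℂ[X]) h3
  simp only [map_add, map_sub, map_mul, map_neg, map_one, map_ofNat] at c1 c2 c3
  linear_combination (-X ^ 2) * c1 - X * c2 - c3

/-- `bb l J · (pair) = ∑_{p ≤ 2} π_p bb (l+2) (J+p)`, `J ≤ l`. -/
theorem bb_mul_pair {l J : ℕ} (hJ : J ≤ l) (z : ℂ) :
    bb ℂ l J * ((X - C z) * (X - C (conj z))) =
      ∑ p ∈ Finset.range 3, C (pz z p : ℂ) * bb ℂ (l + 2) (J + p) := by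
  rw [pair_eq, Finset.sum_range_succ, Finset.sum_range_succ, Finset.sum_range_succ,
    Finset.sum_range_zero, zero_add]
  unfold bb
  have e0 : l + 2 - (J + 0) = (l - J) + 2 := by omega
  have e1 : l + 2 - (J + 1) = (l - J) + 1 := by omega
  have e2 : l + 2 - (J + 2) = l - J := by omega
  rw [e0, e1, e2]
  ring

/-- Products of conjugate pairs of the disc are positive mixtures. Induction on `s`
(`Finset.induction_on`) with `bb_mul_pair`; new weights
`P'(J) = [J ≤ l] π₀ P(J) + [1 ≤ J ≤ l+1] π₁ P(J-1) + [2 ≤ J] π₂ P(J-2)`. -/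
theorem rep_prod {α : Type*} [DecidableEq α] (s : Finset α) (L : α → ℂ) (hL : ∀ a, ‖L a‖ ≤ 1) :
    ∃ P : ℕ → ℝ, (∀ J, 0 ≤ P J) ∧
      ∏ a ∈ s, ((X - C (L a)) * (X - C (conj (L a)))) = mix (2 * s.card) P := by
  induction s using Finset.induction_on with
  | empty =>
    refine ⟨fun _ => 1, fun _ => zero_le_one, ?_⟩
    simp [mix, bb]
  | insert a s ha ih =>
    obtain ⟨P, hP, h⟩ := ih
    set l := 2 * s.card with hl
    have hcard : 2 * (insert a s).card = l + 2 := by
      rw [Finset.card_insert_of_notMem ha]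
      omega
    refine ⟨fun J => (if J ≤ l then pz (L a) 0 * P J else 0) +
      (if 1 ≤ J ∧ J ≤ l + 1 then pz (L a) 1 * P (J - 1) else 0) +
      (if 2 ≤ J ∧ J ≤ l + 2 then pz (L a) 2 * P (J - 2) else 0), ?_, ?_⟩
    · intro J
      have h0 := pz_nonneg (hL a) 0
      have h1 := pz_nonneg (hL a) 1
      have h2 := pz_nonneg (hL a) 2
      have : 0 ≤ (if J ≤ l then pz (L a) 0 * P J else 0) := by
        split_ifs
        · exact mul_nonneg h0 (hP _)
        · exact le_refl _
      have : 0 ≤ (if 1 ≤ J ∧ J ≤ l + 1 then pz (L a) 1 * P (J - 1) else 0) := by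
        split_ifs
        · exact mul_nonneg h1 (hP _)
        · exact le_refl _
      have : 0 ≤ (if 2 ≤ J ∧ J ≤ l + 2 then pz (L a) 2 * P (J - 2) else 0) := by
        split_ifs
        · exact mul_nonneg h2 (hP _)
        · exact le_refl _
      show 0 ≤ _ + _ + _
      linarith
    · rw [Finset.prod_insert ha, h, hcard]
      have hL1 : (X - C (L a)) * (X - C (conj (L a))) * mix l P =
          ∑ J ∈ Finset.range (l + 1), ∑ p ∈ Finset.range 3,
            C ((pz (L a) p * P J : ℝ) : ℂ) * bb ℂ (l + 2) (J + p) := by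
        unfold mix
        rw [Finset.mul_sum]
        refine Finset.sum_congr rfl fun J hJ => ?_
        have hJ' : J ≤ l := by
          have := Finset.mem_range.1 hJ
          omega
        rw [mul_comm, mul_assoc, bb_mul_pair hJ', Finset.mul_sum]
        refine Finset.sum_congr rfl fun p _ => ?_
        push_cast
        rw [C_mul]
        ring
      rw [hL1]
      unfold mix
      have e0 : ∑ J ∈ Finset.range (l + 2 + 1),
          C (((if J ≤ l then pz (L a) 0 * P J else 0 : ℝ)) : ℂ) * bb ℂ (l + 2) J =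
          ∑ J ∈ Finset.range (l + 1), C ((pz (L a) 0 * P J : ℝ) : ℂ) * bb ℂ (l + 2) (J + 0) := by
        rw [Finset.sum_range_succ, Finset.sum_range_succ, if_neg (by omega), if_neg (by omega)]
        simp only [Complex.ofReal_zero, map_zero, zero_mul, add_zero]
        refine Finset.sum_congr rfl fun J hJ => ?_
        have := Finset.mem_range.1 hJ
        rw [if_pos (by omega)]
      have e1 : ∑ J ∈ Finset.range (l + 2 + 1),
          C (((if 1 ≤ J ∧ J ≤ l + 1 then pz (L a) 1 * P (J - 1) else 0 : ℝ)) : ℂ) *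
            bb ℂ (l + 2) J =
          ∑ J ∈ Finset.range (l + 1), C ((pz (L a) 1 * P J : ℝ) : ℂ) * bb ℂ (l + 2) (J + 1) := by
        rw [Finset.sum_range_succ, if_neg (by omega), Finset.sum_range_succ', if_neg (by omega)]
        simp only [Complex.ofReal_zero, map_zero, zero_mul, add_zero]
        refine Finset.sum_congr rfl fun J hJ => ?_
        have := Finset.mem_range.1 hJ
        rw [if_pos (by omega), Nat.add_sub_cancel]
      have e2 : ∑ J ∈ Finset.range (l + 2 + 1),
          C (((if 2 ≤ J ∧ J ≤ l + 2 then pz (L a) 2 * P (J - 2) else 0 : ℝ)) : ℂ) *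
            bb ℂ (l + 2) J =
          ∑ J ∈ Finset.range (l + 1), C ((pz (L a) 2 * P J : ℝ) : ℂ) * bb ℂ (l + 2) (J + 2) := by
        rw [Finset.sum_range_succ', if_neg (by omega), Finset.sum_range_succ', if_neg (by omega)]
        simp only [Complex.ofReal_zero, map_zero, zero_mul, add_zero]
        refine Finset.sum_congr rfl fun J hJ => ?_
        have := Finset.mem_range.1 hJ
        rw [if_pos (by omega)]
        have : J + 1 + 1 - 2 = J := by omega
        rw [this]
      simp only [Finset.sum_range_succ _ 2, Finset.sum_range_succ _ 1, Finset.sum_range_one]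
      rw [Finset.sum_add_distrib, Finset.sum_add_distrib, ← e0, ← e1, ← e2,
        ← Finset.sum_add_distrib, ← Finset.sum_add_distrib]
      refine Finset.sum_congr rfl fun J _ => ?_
      rw [← add_mul, ← add_mul, ← C_add, ← C_add, ← Complex.ofReal_add, ← Complex.ofReal_add]

end Pool.Agent.HHalf
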