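import Mathlib
import Pool.Agent.HHalf.SMain

set_option autoImplicit false

namespace Pool.Agent.HHalf

open Polynomial Set

/-- Leibniz: the value of the Hasse derivative of `(X+1)^J (X-1)^(l-J)`. -/
theorem hasse_bb_sum {R : Type*} [CommRing R] (l J m : ℕ) (x : R) :
    (hasseDeriv m (bb R l J)).eval x =
      ∑ p ∈ Finset.HasAntidiagonal.antidiagonal m, ((x + 1) ^ (J - p.1) * (J.choose p.1 : R)) *
        ((x - 1) ^ (l - J - p.2) * ((l - J).choose p.2 : R)) := by
  rw [← taylor_coeff]
  have h : taylor x (bb R l J) = (X + C (x + 1)) ^ J * (X + C (x - 1)) ^ (l - J) := by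
    simp only [bb, taylor_apply, mul_comp, pow_comp, add_comp, sub_comp, X_comp, one_comp,
      C_add, C_sub, C_1]
    congr 2
    · ring
    · ring
  rw [h, coeff_mul]
  refine Finset.sum_congr rfl fun p _ => ?_
  rw [coeff_X_add_C_pow, coeff_X_add_C_pow]

theorem geg_choose {k a i j : ℕ} (hij : i + j = k) (ha : a ≤ k) :
    k.choose a * ((k + a).choose i * (k - a).choose j) =
      (k + a).choose a * (k.choose i * k.choose (j + a)) := by
  rcases Nat.lt_or_ge (k - a) j with hj | hj
  · rw [Nat.choose_eq_zero_of_lt hj, Nat.choose_eq_zero_of_lt (by omega : k < j + a)]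
    simp
  · have h1 : k.choose (j + a) * (j + a).choose a = k.choose a * (k - a).choose j := by
      have := Nat.choose_mul (n := k) (k := j + a) (s := a) (by omega)
      rw [this]
      congr 2
      omega
    have h2 : (k + a).choose i * (j + a).choose a = (k + a).choose a * k.choose i := by
      have e1 : (k + a).choose i = (k + a).choose (j + a) := by
        rw [← Nat.choose_symm (show i ≤ k + a by omega)]
        congr 1
        omega
      have e2 : k.choose i = k.choose j := by
        rw [← Nat.choose_symm (show i ≤ k by omega)]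
        congr 1
        omega
      have := Nat.choose_mul (n := k + a) (k := j + a) (s := a) (by omega)
      rw [e1, this, e2]
      congr 2 <;> omega
    have h3 : 0 < (j + a).choose a := Nat.choose_pos (by omega)
    apply Nat.eq_of_mul_eq_mul_right h3
    calc k.choose a * ((k + a).choose i * (k - a).choose j) * (j + a).choose a
        = k.choose a * (k - a).choose j * ((k + a).choose i * (j + a).choose a) := by ring
      _ = k.choose a * (k - a).choose j * ((k + a).choose a * k.choose i) := by rw [h2]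
      _ = (k + a).choose a * (k.choose i) * (k.choose a * (k - a).choose j) := by ring
      _ = (k + a).choose a * (k.choose i) * (k.choose (j + a) * (j + a).choose a) := by rw [h1]
      _ = _ := by ring

/-- `C(k,a) H_k[(w+1)^(k+a) (w-1)^(k-a)] = C(k+a,a) (w+1)^a H_{k+a}[(w²-1)^k]`. -/
theorem geg_id {R : Type*} [CommRing R] {k a : ℕ} (ha : a ≤ k) (x : R) :
    (k.choose a : R) * (hasseDeriv k (bb R (2 * k) (k + a))).eval x =
      ((k + a).choose a : R) * ((x + 1) ^ a * (hasseDeriv (k + a) (bb R (2 * k) k)).eval x) := by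
  rw [hasse_bb_sum, hasse_bb_sum, Finset.mul_sum, Finset.mul_sum, Finset.mul_sum]
  have hl1 : 2 * k - (k + a) = k - a := by omega
  have hl2 : 2 * k - k = k := by omega
  rw [hl1, hl2]
  rw [Finset.Nat.sum_antidiagonal_eq_sum_range_succ
    (fun i j => (k.choose a : R) * (((x + 1) ^ (k + a - i) * ((k + a).choose i : R)) *
        ((x - 1) ^ (k - a - j) * ((k - a).choose j : R)))) k,
    Finset.Nat.sum_antidiagonal_eq_sum_range_succ
    (fun i j => ((k + a).choose a : R) * ((x + 1) ^ a * (((x + 1) ^ (k - i) * (k.choose i : R)) *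
        ((x - 1) ^ (k - j) * (k.choose j : R))))) (k + a)]
  have hsplit : Finset.range (k + a).succ = Finset.range (k.succ + a) := by
    congr 1; omega
  rw [hsplit, Finset.sum_range_add]
  have hz : ∑ i ∈ Finset.range a, ((k + a).choose a : R) * ((x + 1) ^ a *
      (((x + 1) ^ (k - (k.succ + i)) * (k.choose (k.succ + i) : R)) *
        ((x - 1) ^ (k - (k + a - (k.succ + i))) * (k.choose (k + a - (k.succ + i)) : R)))) = 0 := by
    refine Finset.sum_eq_zero fun i _ => ?_
    rw [Nat.choose_eq_zero_of_lt (by omega : k < k.succ + i)]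
    simp
  rw [hz, add_zero]
  refine Finset.sum_congr rfl fun i hi => ?_
  have hi' : i ≤ k := Nat.lt_succ_iff.mp (Finset.mem_range.mp hi)
  have e1 : k + a - i = (k - i) + a := by omega
  have e2 : k - (k + a - i) = k - a - (k - i) := by omega
  have hc := geg_choose (k := k) (a := a) (i := i) (j := k - i) (by omega) ha
  have hc' : (k.choose a : R) * (((k + a).choose i : R) * ((k - a).choose (k - i) : R)) =
      ((k + a).choose a : R) * ((k.choose i : R) * (k.choose (k - i + a) : R)) := by
    exact_mod_cast congrArg (Nat.cast : ℕ → R) hc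
  rw [e2, e1, pow_add]
  calc _ = (k.choose a : R) * (((k + a).choose i : R) * ((k - a).choose (k - i) : R)) *
        ((x + 1) ^ (k - i) * (x + 1) ^ a * (x - 1) ^ (k - a - (k - i))) := by ring
    _ = _ := by rw [hc']; ring

/-- The refined bound `|H_k[(w+1)^(k+a) (w-1)^(k-a)](x)| ≤ 2^k C(k+a,a) ((1+x)/2)^a`. -/
theorem geg_bound {k a : ℕ} (ha : a ≤ k) {x : ℝ} (hx : x ∈ Icc (-1:ℝ) 1) :
    |(hasseDeriv k (bb ℝ (2 * k) (k + a))).eval x| ≤
      2 ^ k * ((k + a).choose a : ℝ) * ((1 + x) / 2) ^ a := by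
  have hb := bb_bound (l := 2 * k) (J := k) (m := k + a) (by omega) (by omega) (by omega) hx
  rw [hasse_bb_ofReal, Complex.norm_real, Real.norm_eq_abs] at hb
  have e1 : 2 * k - (k + a) = k - a := by omega
  have e2 : 2 * k - k = k := by omega
  rw [e1, e2, max_self, Nat.choose_symm ha] at hb
  have hid := geg_id (R := ℝ) ha x
  have hpos : (0:ℝ) < (k.choose a : ℝ) := by exact_mod_cast Nat.choose_pos ha
  have h1 : 0 ≤ x + 1 := by linarith [hx.1]
  have h2 : (k.choose a : ℝ) * |(hasseDeriv k (bb ℝ (2 * k) (k + a))).eval x| ≤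
      (k.choose a : ℝ) * (2 ^ k * ((k + a).choose a : ℝ) * ((1 + x) / 2) ^ a) := by
    calc (k.choose a : ℝ) * |(hasseDeriv k (bb ℝ (2 * k) (k + a))).eval x|
        = |(k.choose a : ℝ) * (hasseDeriv k (bb ℝ (2 * k) (k + a))).eval x| := by
          rw [abs_mul, abs_of_pos hpos]
      _ = ((k + a).choose a : ℝ) * ((x + 1) ^ a *
            |(hasseDeriv (k + a) (bb ℝ (2 * k) k)).eval x|) := by
          rw [hid, abs_mul, abs_mul, abs_of_nonneg (pow_nonneg h1 a), Nat.abs_cast]
      _ ≤ ((k + a).choose a : ℝ) * ((x + 1) ^ a * (2 ^ (k - a) * (k.choose a : ℝ))) := by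
          gcongr
      _ = _ := by
          have : (2:ℝ) ^ k = 2 ^ (k - a) * 2 ^ a := by
            rw [← pow_add]; congr 1; omega
          rw [this, div_pow]
          have h2a : (2:ℝ) ^ a ≠ 0 := by positivity
          field_simp
          ring
  exact le_of_mul_le_mul_left h2 hpos

/-- Reflection. -/
theorem geg_refl {k a : ℕ} (ha : a ≤ k) (x : ℝ) :
    (hasseDeriv k (bb ℝ (2 * k) (k - a))).eval x =
      (-1) ^ k * (hasseDeriv k (bb ℝ (2 * k) (k + a))).eval (-x) := by
  rw [hasse_bb_sum, hasse_bb_sum, ← Finset.Nat.sum_antidiagonal_swap, Finset.mul_sum]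
  refine Finset.sum_congr rfl fun p hp => ?_
  have hp' := Finset.HasAntidiagonal.mem_antidiagonal.1 hp
  have e1 : 2 * k - (k - a) = k + a := by omega
  have e2 : 2 * k - (k + a) = k - a := by omega
  simp only [Prod.fst_swap, Prod.snd_swap, e1, e2]
  rcases Nat.lt_or_ge (k - a) p.2 with h | h
  · rw [Nat.choose_eq_zero_of_lt h]
    simp
  · have h3 : (-x + 1) = (-1) * (x - 1) := by ring
    have h4 : (-x - 1) = (-1) * (x + 1) := by ring
    have h5 : (-1 : ℝ) ^ k * ((-1) ^ (k + a - p.1) * (-1) ^ (k - a - p.2)) = 1 := by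
      rw [← pow_add, ← pow_add]
      have : k + (k + a - p.1 + (k - a - p.2)) = 2 * k := by omega
      rw [this, pow_mul]
      norm_num
    rw [h3, h4, mul_pow, mul_pow]
    linear_combination (-((x + 1) ^ (k - a - p.2) * ((k - a).choose p.2 : ℝ) *
      ((x - 1) ^ (k + a - p.1) * ((k + a).choose p.1 : ℝ)))) * h5

/-- The bound for the nodes mostly at `1`, at the points `x ≥ 0`. -/
theorem geg_bound_neg {k a : ℕ} (ha : a ≤ k) {x : ℝ} (hx : x ∈ Icc (0:ℝ) 1) :
    |(hasseDeriv k (bb ℝ (2 * k) (k - a))).eval x| ≤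
      2 ^ k * (((k + a).choose a : ℝ) / 2 ^ a) := by
  rw [geg_refl ha, abs_mul, abs_pow, abs_neg, abs_one, one_pow, one_mul]
  refine (geg_bound ha (x := -x) ⟨by linarith [hx.2], by linarith [hx.1]⟩).trans ?_
  have h1 : ((1 + -x) / 2) ^ a ≤ (1 / 2 : ℝ) ^ a := by
    apply pow_le_pow_left₀
    · linarith [hx.2]
    · linarith [hx.1]
  calc 2 ^ k * ((k + a).choose a : ℝ) * ((1 + -x) / 2) ^ a
      ≤ 2 ^ k * ((k + a).choose a : ℝ) * (1 / 2 : ℝ) ^ a := by gcongr
    _ = _ := by rw [one_div, inv_pow]; ring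

/-- The bounds used for `x ≥ 0`. -/
noncomputable def Mw (k J : ℕ) : ℝ :=
  if k ≤ J then (J.choose k : ℝ) else ((2 * k - J).choose k : ℝ) / 2 ^ (k - J)

theorem Mw_bound {k J : ℕ} (hJ : J ≤ 2 * k) {x : ℝ} (hx : x ∈ Icc (0:ℝ) 1) :
    |(hasseDeriv k (bb ℝ (2 * k) J)).eval x| ≤ 2 ^ k * Mw k J := by
  unfold Mw
  split_ifs with h
  · obtain ⟨a, rfl⟩ := Nat.exists_eq_add_of_le h
    have ha : a ≤ k := by omega
    have h1 : -1 ≤ x := by linarith [hx.1]
    refine (geg_bound ha (x := x) ⟨h1, hx.2⟩).trans ?_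
    have h2 : ((1 + x) / 2) ^ a ≤ 1 := by
      apply pow_le_one₀
      · linarith [hx.1]
      · linarith [hx.2]
    have h3 : ((k + a).choose a : ℝ) = ((k + a).choose k : ℝ) := by
      rw [← Nat.choose_symm_add]
    rw [h3]
    calc 2 ^ k * ((k + a).choose k : ℝ) * ((1 + x) / 2) ^ a
        ≤ 2 ^ k * ((k + a).choose k : ℝ) * 1 := by gcongr
      _ = _ := by ring
  · obtain ⟨a, ha⟩ : ∃ a, k = J + a := ⟨k - J, by omega⟩
    have hJ' : J = k - a := by omega
    have ha' : a ≤ k := by omega
    rw [hJ']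
    refine (geg_bound_neg ha' hx).trans (le_of_eq ?_)
    have e1 : 2 * k - (k - a) = k + a := by omega
    have e2 : k - (k - a) = a := by omega
    rw [e1, e2, ← Nat.choose_symm_add]

end Pool.Agent.HHalf
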