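import Mathlib

set_option autoImplicit false

namespace Pool.Agent.HHalf

private theorem V1core {J K p q e : ℕ} (hJK : K ≤ J) (hpq : p + q = 2) (h : 2 * e ≤ J + K) :
    2 * J.choose e ≤ (e + 1) * ((J + p).choose (e + 1) + (K + q).choose (e + 1)) := by
  rcases Nat.lt_or_ge J (e + 2) with h1 | h1
  · rcases Nat.lt_or_ge J (e + 1) with h2 | h2
    · have hJ : J = e := by omega
      have hK : K = e := by omega
      subst hJ
      subst hK
      have hp : p = 0 ∨ p = 1 ∨ p = 2 := by omega
      rcases hp with rfl | rfl | rfl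
      · have hq : q = 2 := by omega
        subst hq
        have e1 : (K + 0).choose (K + 1) = 0 := Nat.choose_eq_zero_of_lt (by omega)
        have e2 : (K + 2).choose (K + 1) = K + 2 := Nat.choose_succ_self_right (K + 1)
        rw [e1, e2, Nat.choose_self]
        nlinarith
      · have hq : q = 1 := by omega
        subst hq
        rw [Nat.choose_self, Nat.choose_self]
        nlinarith
      · have hq : q = 0 := by omega
        subst hq
        have e1 : (K + 0).choose (K + 1) = 0 := Nat.choose_eq_zero_of_lt (by omega)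
        have e2 : (K + 2).choose (K + 1) = K + 2 := Nat.choose_succ_self_right (K + 1)
        rw [e1, e2, Nat.choose_self]
        nlinarith
    · have hJ : J = e + 1 := by omega
      subst hJ
      have e2 : (e + 1).choose e = e + 1 := Nat.choose_succ_self_right e
      rw [e2, Nat.mul_comm 2]
      apply Nat.mul_le_mul_left
      rcases Nat.eq_zero_or_pos p with rfl | hp
      · have hq : q = 2 := by omega
        subst hq
        have a1 : 1 ≤ (e + 1 + 0).choose (e + 1) := Nat.choose_pos (by omega)
        have a2 : 1 ≤ (K + 2).choose (e + 1) := Nat.choose_pos (by omega)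
        omega
      · have a1 : (e + 1 + 1).choose (e + 1) ≤ (e + 1 + p).choose (e + 1) :=
          Nat.choose_le_choose _ (by omega)
        have a3 : (e + 1 + 1).choose (e + 1) = e + 2 := Nat.choose_succ_self_right (e + 1)
        omega
  · have a1 : J.choose (e + 1) ≤ (J + p).choose (e + 1) := Nat.choose_le_choose _ (by omega)
    have a2 : J.choose (e + 1) * (e + 1) = J.choose e * (J - e) := Nat.choose_succ_right_eq J e
    have a3 : 2 ≤ J - e := by omega
    calc 2 * J.choose e ≤ (J - e) * J.choose e := Nat.mul_le_mul_right _ a3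
      _ = (e + 1) * J.choose (e + 1) := by rw [Nat.mul_comm, ← a2, Nat.mul_comm]
      _ ≤ (e + 1) * ((J + p).choose (e + 1) + (K + q).choose (e + 1)) :=
          Nat.mul_le_mul_left _ (by omega)

/-- By the symmetry `J → l - J`, `p → 2 - p` assume `l ≤ 2J`, so that the maximum is
`C(J, d-1)` (monotonicity of `choose` in the upper entry), `J ≥ d - 1`.
`J ≥ d + 1`: `d C(J+p, d) ≥ d C(J, d) = (J-d+1) C(J, d-1) ≥ 2 C(J, d-1)`.
`J = d`: `C(J, d-1) = d` and `C(d+p, d) + C(l+2-d-p, d) ≥ 2` (`p ≥ 1`: `C(d+1, d) = d + 1`; `p = 0`: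
`l + 2 - d ≥ d`). `J = d - 1`: then `l = 2d - 2`, `C(J, d-1) = 1` and the right side is
`d (C(d-1+p, d) + C(d+1-p, d)) ≥ 2`. -/
theorem V1 {l J p d : ℕ} (hJ : J ≤ l) (hp : p ≤ 2) (hd1 : 1 ≤ d) (hd : 2 * d ≤ l + 2) :
    2 * max (J.choose (d - 1)) ((l - J).choose (d - 1)) ≤
      d * ((J + p).choose d + (l + 2 - (J + p)).choose d) := by
  obtain ⟨e, rfl⟩ : ∃ e, d = e + 1 := ⟨d - 1, by omega⟩
  obtain ⟨K, rfl⟩ : ∃ K, l = J + K := ⟨l - J, by omega⟩
  obtain ⟨q, hq⟩ : ∃ q, p + q = 2 := ⟨2 - p, by omega⟩
  have e1 : J + K - J = K := by omega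
  have e2 : J + K + 2 - (J + p) = K + q := by omega
  rw [e1, e2, Nat.add_sub_cancel]
  rcases le_total K J with h | h
  · have hm : max (J.choose e) (K.choose e) = J.choose e :=
      max_eq_left (Nat.choose_le_choose _ h)
    rw [hm]
    exact V1core h hq (by omega)
  · have hm : max (J.choose e) (K.choose e) = K.choose e :=
      max_eq_right (Nat.choose_le_choose _ h)
    rw [hm]
    have := V1core (J := K) (K := J) (p := q) (q := p) (e := e) h (by omega) (by omega)
    calc 2 * K.choose e ≤ (e + 1) * ((K + q).choose (e + 1) + (J + p).choose (e + 1)) := this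
      _ = _ := by ring

end Pool.Agent.HHalf
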