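import Pool.Agent.HHalf.REnd
import Pool.Agent.HHalf.RPairs
import Pool.Agent.HHalf.VOne

set_option autoImplicit false

namespace Pool.Agent.HHalf

open Polynomial Set Complex ComplexConjugate

theorem T1_mix_pair (l : ℕ) (P : ℕ → ℝ) (z : ℂ) :
    mix l P * ((X - C z) * (X - C (conj z))) =
      ∑ b ∈ Finset.range (l + 1) ×ˢ Finset.range 3,
        C ((P b.1 * pz z b.2 : ℝ) : ℂ) * bb ℂ (l + 2) (b.1 + b.2) := by
  rw [Finset.sum_product, mix, Finset.sum_mul]
  refine Finset.sum_congr rfl fun J hJ => ?_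
  have hJl : J ≤ l := Nat.lt_succ_iff.mp (Finset.mem_range.mp hJ)
  rw [mul_assoc, bb_mul_pair hJl z, Finset.mul_sum]
  refine Finset.sum_congr rfl fun p _ => ?_
  rw [Complex.ofReal_mul, C_mul, mul_assoc]

/-- The inequality for a conjugate pair (order `k + 1`, `n = l + 2`, `d = n - (k+1)`).
`mix l P · pair = ∑_{J ≤ l, p ≤ 2} P_J π_p bb (l+2) (J+p)` (`bb_mul_pair`), so by `end_one`,
`end_neg_one` (sum over `range (l+1) ×ˢ range 3`)
`E₊ + E₋ = 2^d ∑ P_J π_p [C(J+p, d) + C(l+2-J-p, d)]`; by `mid_bound`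
`|H_k mix(x)| ≤ 2^(d-1) ∑ P_J max(C(J,d-1), C(l-J,d-1))` (`l - k = d - 1`, `l ≤ 2k`), and `V1`,
`pz_sum`. -/
theorem T1 {l k d : ℕ} {P : ℕ → ℝ} (hP : ∀ J, 0 ≤ P J) {z : ℂ} (hz : ‖z‖ ≤ 1)
    (hkd : k + 1 + d = l + 2) (hd1 : 1 ≤ d) (hd : 2 * d ≤ l + 2) {x : ℝ} (hx : x ∈ Icc (-1:ℝ) 1) :
    ‖(hasseDeriv k (mix l P)).eval (x : ℂ)‖ ≤ d / 4 *
      (‖(hasseDeriv (k + 1) (mix l P * ((X - C z) * (X - C (conj z))))).eval 1‖ +
       ‖(hasseDeriv (k + 1) (mix l P * ((X - C z) * (X - C (conj z))))).eval (-1)‖) := by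
  have hpz := pz_nonneg hz
  have ha : ∀ b ∈ Finset.range (l + 1) ×ˢ Finset.range 3,
      0 ≤ (fun b : ℕ × ℕ => P b.1 * pz z b.2) b := fun b _ => mul_nonneg (hP _) (hpz _)
  have hJ : ∀ b ∈ Finset.range (l + 1) ×ˢ Finset.range 3,
      (fun b : ℕ × ℕ => b.1 + b.2) b ≤ l + 2 := by
    intro b hb
    have h1 := Finset.mem_range.mp (Finset.mem_product.mp hb).1
    have h2 := Finset.mem_range.mp (Finset.mem_product.mp hb).2
    show b.1 + b.2 ≤ l + 2
    omega
  have hm : k + 1 ≤ l + 2 := by omega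
  have hE1 := end_one (Finset.range (l + 1) ×ˢ Finset.range 3)
    (fun b : ℕ × ℕ => P b.1 * pz z b.2) ha (fun b : ℕ × ℕ => b.1 + b.2) hJ hm
  have hE2 := end_neg_one (Finset.range (l + 1) ×ˢ Finset.range 3)
    (fun b : ℕ × ℕ => P b.1 * pz z b.2) ha (fun b : ℕ × ℕ => b.1 + b.2) hJ hm
  have hnm : l + 2 - (k + 1) = d := by omega
  rw [hnm] at hE1 hE2
  have hM := mid_bound (Finset.range (l + 1)) (fun J => ((P J : ℝ) : ℂ)) (fun J => J)
    (n := l) (m := k)
    (fun b hb => Nat.lt_succ_iff.mp (Finset.mem_range.mp hb)) (by omega) (by omega) hx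
  have hlk : l - k = d - 1 := by omega
  rw [hlk] at hM
  rw [T1_mix_pair]
  rw [hE1, hE2]
  have hM' : ‖(hasseDeriv k (mix l P)).eval (x : ℂ)‖ ≤ 2 ^ (d - 1) *
      ∑ J ∈ Finset.range (l + 1), P J *
        max ((J.choose (d - 1) : ℕ) : ℝ) (((l - J).choose (d - 1) : ℕ) : ℝ) := by
    refine hM.trans (le_of_eq ?_)
    congr 1
    refine Finset.sum_congr rfl fun J _ => ?_
    rw [Complex.norm_real, Real.norm_eq_abs, abs_of_nonneg (hP J)]
  refine hM'.trans ?_
  rw [← mul_add, ← Finset.sum_add_distrib, Finset.sum_product]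
  have key : ∀ J ∈ Finset.range (l + 1),
      2 * (P J * max ((J.choose (d - 1) : ℕ) : ℝ) (((l - J).choose (d - 1) : ℕ) : ℝ)) ≤
      (d : ℝ) * ∑ p ∈ Finset.range 3, (P J * pz z p * ((J + p).choose d : ℝ) +
        P J * pz z p * ((l + 2 - (J + p)).choose d : ℝ)) := by
    intro J hJm
    have hJl : J ≤ l := Nat.lt_succ_iff.mp (Finset.mem_range.mp hJm)
    have hV : ∀ p ∈ Finset.range 3,
        pz z p * (P J * (2 * max ((J.choose (d - 1) : ℕ) : ℝ) (((l - J).choose (d - 1) : ℕ) : ℝ))) ≤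
        (d : ℝ) * (P J * pz z p * ((J + p).choose d : ℝ) +
          P J * pz z p * ((l + 2 - (J + p)).choose d : ℝ)) := by
      intro p hp
      have hp2 : p ≤ 2 := by
        have := Finset.mem_range.mp hp
        omega
      have h := V1 hJl hp2 hd1 hd
      have h' : (2 : ℝ) * max ((J.choose (d - 1) : ℕ) : ℝ) (((l - J).choose (d - 1) : ℕ) : ℝ) ≤
          d * (((J + p).choose d : ℕ) + ((l + 2 - (J + p)).choose d : ℕ)) := by
        exact_mod_cast h
      have h0 : 0 ≤ pz z p * P J := mul_nonneg (hpz p) (hP J)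
      calc pz z p * (P J * (2 * max ((J.choose (d - 1) : ℕ) : ℝ)
              (((l - J).choose (d - 1) : ℕ) : ℝ)))
          = (pz z p * P J) * (2 * max ((J.choose (d - 1) : ℕ) : ℝ)
              (((l - J).choose (d - 1) : ℕ) : ℝ)) := by ring
        _ ≤ (pz z p * P J) * (d * (((J + p).choose d : ℕ) + ((l + 2 - (J + p)).choose d : ℕ))) :=
            mul_le_mul_of_nonneg_left h' h0
        _ = _ := by ring
    have hs := Finset.sum_le_sum hV
    rw [← Finset.sum_mul, ← Finset.mul_sum] at hs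
    have h3 : ∑ p ∈ Finset.range 3, pz z p = 1 := by
      rw [Finset.sum_range_succ, Finset.sum_range_succ, Finset.sum_range_succ,
        Finset.sum_range_zero, zero_add]
      exact pz_sum z
    rw [h3, one_mul] at hs
    linarith
  have hsum := Finset.sum_le_sum key
  rw [← Finset.mul_sum, ← Finset.mul_sum] at hsum
  have hpow : (2 : ℝ) ^ d = 2 * 2 ^ (d - 1) := by
    obtain ⟨e, rfl⟩ : ∃ e, d = e + 1 := ⟨d - 1, by omega⟩
    rw [Nat.add_sub_cancel, pow_succ]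
    ring
  rw [hpow]
  have h2 : (0 : ℝ) < 2 ^ (d - 1) := by positivity
  have h4 := mul_le_mul_of_nonneg_left hsum h2.le
  linarith [h4]

end Pool.Agent.HHalf
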