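import Mathlib

set_option autoImplicit false

namespace Pool.Agent.HHalf

/-- `M_s`. -/
noncomputable def Mv (r d J s : ℕ) : ℝ :=
  max ((J + s).choose (d - 1) : ℝ) ((2 * r + 2 - (J + s)).choose (d - 1) : ℝ)

/-- `g_s`. -/
noncomputable def gv (r d J s : ℕ) : ℝ :=
  ((J + s).choose d : ℝ) + ((2 * r + 4 - (J + s)).choose d : ℝ)

/-- The five inequalities for a parameter `τ`. -/
def Vgood (r d J : ℕ) (τ : ℝ) : Prop :=
  0 < τ ∧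
  2 * (Mv r d J 0 + τ * Mv r d J 1) ≤ d * gv r d J 0 ∧
  (Mv r d J 0 + τ * Mv r d J 1) ≤ d * gv r d J 1 ∧
  (Mv r d J 0 + τ * Mv r d J 1) + (Mv r d J 2 + Mv r d J 1 / τ) ≤ d * gv r d J 2 ∧
  (Mv r d J 2 + Mv r d J 1 / τ) ≤ d * gv r d J 3 ∧
  2 * (Mv r d J 2 + Mv r d J 1 / τ) ≤ d * gv r d J 4

end Pool.Agent.HHalf
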