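import Pool.Agent.HHalf.RPairs
import Pool.Agent.HHalf.VTwoDefs

set_option autoImplicit false

namespace Pool.Agent.HHalf

open Polynomial Set Complex ComplexConjugate

/-- Coefficients of `(X - z)(X - z')` in the basis `(X-1)², (X+1)(X-1), (X+1)²`. -/
noncomputable def az (z z' : ℂ) (p : ℕ) : ℂ :=
  if p = 0 then (1 + z) * (1 + z') / 4
    else if p = 1 then ((1 - z) * (1 + z') + (1 + z) * (1 - z')) / 4
      else if p = 2 then (1 - z) * (1 - z') / 4 else 0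

private theorem az0 (z z' : ℂ) : az z z' 0 = (1 + z) * (1 + z') / 4 := by simp [az]

private theorem az1 (z z' : ℂ) : az z z' 1 = ((1 - z) * (1 + z') + (1 + z) * (1 - z')) / 4 := by simp [az]

private theorem az2 (z z' : ℂ) : az z z' 2 = (1 - z) * (1 - z') / 4 := by simp [az]

theorem bb_mul_az {l J : ℕ} (hJ : J ≤ l) (z z' : ℂ) :
    bb ℂ l J * ((X - C z) * (X - C z')) =
      ∑ p ∈ Finset.range 3, C (az z z' p) * bb ℂ (l + 2) (J + p) := by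
  obtain ⟨n, rfl⟩ := Nat.exists_eq_add_of_le hJ
  have h1 : ∀ z : ℂ, (X - C z : ℂ[X]) = C ((1 - z) / 2) * (X + 1) + C ((1 + z) / 2) * (X - 1) := by
    intro z
    have h2 : (C ((1 - z) / 2) : ℂ[X]) = C (1 / 2) - C (1 / 2) * C z := by
      rw [← C_mul, ← C_sub]
      congr 1
      ring
    have h3 : (C ((1 + z) / 2) : ℂ[X]) = C (1 / 2) + C (1 / 2) * C z := by
      rw [← C_mul, ← C_add]
      congr 1
      ring
    have h4 : (C (1 / 2) : ℂ[X]) + C (1 / 2) = 1 := by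
      rw [← C_add, ← C_1]
      congr 1
      norm_num
    rw [h2, h3]
    linear_combination (-X + C z) * h4
  rw [h1 z, h1 z']
  simp only [Finset.sum_range_succ, Finset.sum_range_zero, zero_add, az0, az1, az2, bb]
  have e0 : J + n + 2 - (J + 0) = n + 2 := by omega
  have e1 : J + n + 2 - (J + 1) = n + 1 := by omega
  have e2 : J + n + 2 - (J + 2) = n := by omega
  have e3 : J + n - J = n := by omega
  rw [e0, e1, e2, e3]
  have f0 : (C ((1 + z) * (1 + z') / 4) : ℂ[X]) = C ((1 + z) / 2) * C ((1 + z') / 2) := by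
    rw [← C_mul]
    congr 1
    ring
  have f1 : (C (((1 - z) * (1 + z') + (1 + z) * (1 - z')) / 4) : ℂ[X]) =
      C ((1 - z) / 2) * C ((1 + z') / 2) + C ((1 + z) / 2) * C ((1 - z') / 2) := by
    rw [← C_mul, ← C_mul, ← C_add]
    congr 1
    ring
  have f2 : (C ((1 - z) * (1 - z') / 4) : ℂ[X]) = C ((1 - z) / 2) * C ((1 - z') / 2) := by
    rw [← C_mul]
    congr 1
    ring
  rw [f0, f1, f2]
  ring

private theorem V2core {P0 P1 P2 R0 R1 R2 q0 q2 d g0 g1 g2 g3 g4 : ℝ} (hP0 : 0 ≤ P0) (hP1 : 0 ≤ P1)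
    (hP2 : 0 ≤ P2) (hR0 : 0 ≤ R0) (hR1 : 0 ≤ R1) (hR2 : 0 ≤ R2) (hs : P0 + P1 + P2 = 1)
    (hs' : R0 + R1 + R2 = 1) (hg2 : 0 ≤ d * g2) (i0 : 2 * q0 ≤ d * g0) (i1 : q0 ≤ d * g1)
    (i2 : q0 + q2 ≤ d * g2) (i3 : q2 ≤ d * g3) (i4 : 2 * q2 ≤ d * g4) :
    (P0 + R0) * q0 + (P2 + R2) * q2 ≤
      P0 * R0 * (d * g0) + (P0 * R1 + P1 * R0) * (d * g1) + (P0 * R2 + P2 * R0) * (d * g2) +
        P1 * R1 * (d * g2) + (P1 * R2 + P2 * R1) * (d * g3) + P2 * R2 * (d * g4) := by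
  have hsum : (P0 + R0) * q0 + (P2 + R2) * q2 =
      P0 * R0 * (2 * q0) + (P0 * R1 + P1 * R0) * q0 + (P0 * R2 + P2 * R0) * (q0 + q2) +
        (P1 * R2 + P2 * R1) * q2 + P2 * R2 * (2 * q2) := by
    have h1 : (P0 + R0) * q0 + (P2 + R2) * q2 =
        P0 * (R0 + R1 + R2) * q0 + R0 * (P0 + P1 + P2) * q0 +
          (P2 * (R0 + R1 + R2) * q2 + R2 * (P0 + P1 + P2) * q2) := by
      rw [hs, hs']
      ring
    rw [h1]
    ring
  have t0 := mul_le_mul_of_nonneg_left i0 (mul_nonneg hP0 hR0)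
  have t1 := mul_le_mul_of_nonneg_left i1 (add_nonneg (mul_nonneg hP0 hR1) (mul_nonneg hP1 hR0))
  have t2 := mul_le_mul_of_nonneg_left i2 (add_nonneg (mul_nonneg hP0 hR2) (mul_nonneg hP2 hR0))
  have t3 := mul_le_mul_of_nonneg_left i3 (add_nonneg (mul_nonneg hP1 hR2) (mul_nonneg hP2 hR1))
  have t4 := mul_le_mul_of_nonneg_left i4 (mul_nonneg hP2 hR2)
  have t5 := mul_nonneg (mul_nonneg hP1 hR1) hg2
  linarith

/-- With `|u|² = π₂`, `|v|² = π₀` (`u = (1-z)/2`, `v = (1+z)/2`):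
`2|u||u'| ≤ π₂ + π₂'`, `2|v||v'| ≤ π₀ + π₀'`, `2|u||v'| ≤ π₂/τ + τ π₀'`, `2|v||u'| ≤ τ π₀ + π₂'/τ`. So twice
the left side is at most `(π₂ + π₂') q₂ + (π₀ + π₀') q₀`, `q₀ = M_0 + τ M_1`, `q₂ = M_2 + M_1/τ`, which
is `∑_{p,q} π_p π'_q (q_p + q_q)` (`q₁ = 0`, `pz_sum`) and the five inequalities of `Vgood` bound the
terms `(p,q)`: `(0,0)`: `2q₀ ≤ d g_0`; `(0,1), (1,0)`: `q₀ ≤ d g_1`; `(0,2), (2,0)`: `q₀+q₂ ≤ d g_2`;
`(1,1)`: `0 ≤ d g_2`; `(1,2), (2,1)`: `q₂ ≤ d g_3`; `(2,2)`: `2q₂ ≤ d g_4`. -/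
theorem V2pair {r d J : ℕ} {τ : ℝ} (h : Vgood r d J τ) {z z' : ℂ} (hz : ‖z‖ ≤ 1) (hz' : ‖z'‖ ≤ 1) :
    ∑ p ∈ Finset.range 3, ‖az z z' p‖ * Mv r d J p ≤
      d / 2 * ∑ p ∈ Finset.range 3, ∑ q ∈ Finset.range 3, pz z p * pz z' q * gv r d J (p + q) := by
  obtain ⟨hτ, i0, i1, i2, i3, i4⟩ := h
  have hM : ∀ s, 0 ≤ Mv r d J s := fun s => le_max_of_le_left (by positivity)
  have hg : ∀ s, 0 ≤ gv r d J s := fun s => by unfold gv; positivity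
  have hp : ∀ p, 0 ≤ pz z p := pz_nonneg hz
  have hp' : ∀ p, 0 ≤ pz z' p := pz_nonneg hz'
  have hs := pz_sum z
  have hs' := pz_sum z'
  have e0 : ∀ z : ℂ, pz z 0 = (‖1 + z‖ / 2) ^ 2 := by
    intro z
    have h1 : pz z 0 = normSq (1 + z) / 4 := by simp [pz]
    rw [h1, Complex.normSq_eq_norm_sq]
    ring
  have e2 : ∀ z : ℂ, pz z 2 = (‖1 - z‖ / 2) ^ 2 := by
    intro z
    have h1 : pz z 2 = normSq (1 - z) / 4 := by simp [pz]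
    rw [h1, Complex.normSq_eq_norm_sq]
    ring
  have n0 : ‖az z z' 0‖ = (‖1 + z‖ / 2) * (‖1 + z'‖ / 2) := by
    rw [az0, norm_div, norm_mul]
    norm_num
    ring
  have n1 : ‖az z z' 1‖ ≤ (‖1 - z‖ / 2) * (‖1 + z'‖ / 2) + (‖1 + z‖ / 2) * (‖1 - z'‖ / 2) := by
    rw [az1, norm_div]
    have h1 := norm_add_le ((1 - z) * (1 + z')) ((1 + z) * (1 - z'))
    rw [norm_mul, norm_mul] at h1
    have h2 : ‖(4 : ℂ)‖ = 4 := by norm_num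
    rw [h2]
    linarith
  have n2 : ‖az z z' 2‖ = (‖1 - z‖ / 2) * (‖1 - z'‖ / 2) := by
    rw [az2, norm_div, norm_mul]
    norm_num
    ring
  set a0 := ‖1 + z‖ / 2 with ha0
  set a2 := ‖1 - z‖ / 2 with ha2
  set b0 := ‖1 + z'‖ / 2 with hb0
  set b2 := ‖1 - z'‖ / 2 with hb2
  set M0 := Mv r d J 0
  set M1 := Mv r d J 1
  set M2 := Mv r d J 2
  have hM0 : 0 ≤ M0 := hM 0
  have hM1 : 0 ≤ M1 := hM 1
  have hM2 : 0 ≤ M2 := hM 2
  -- the left side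
  have k1 : 2 * (a2 * b0) ≤ a2 ^ 2 / τ + τ * b0 ^ 2 := by
    have h1 : 0 ≤ (a2 - τ * b0) ^ 2 / τ := by positivity
    have h2 : (a2 - τ * b0) ^ 2 / τ = a2 ^ 2 / τ + τ * b0 ^ 2 - 2 * (a2 * b0) := by
      field_simp
      ring
    linarith
  have k2 : 2 * (a0 * b2) ≤ τ * a0 ^ 2 + b2 ^ 2 / τ := by
    have h1 : 0 ≤ (b2 - τ * a0) ^ 2 / τ := by positivity
    have h2 : (b2 - τ * a0) ^ 2 / τ = b2 ^ 2 / τ + τ * a0 ^ 2 - 2 * (a0 * b2) := by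
      field_simp
      ring
    linarith
  have hL : 2 * ∑ p ∈ Finset.range 3, ‖az z z' p‖ * Mv r d J p ≤
      (a0 ^ 2 + b0 ^ 2) * (M0 + τ * M1) + (a2 ^ 2 + b2 ^ 2) * (M2 + M1 / τ) := by
    simp only [Finset.sum_range_succ, Finset.sum_range_zero, zero_add]
    rw [n0, n2]
    have h1 : ‖az z z' 1‖ * Mv r d J 1 ≤ (a2 * b0 + a0 * b2) * M1 := mul_le_mul_of_nonneg_right n1 hM1
    have h2 : 2 * ((a2 * b0 + a0 * b2) * M1) ≤
        (a2 ^ 2 / τ + τ * b0 ^ 2 + (τ * a0 ^ 2 + b2 ^ 2 / τ)) * M1 := by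
      nlinarith [mul_le_mul_of_nonneg_right (add_le_add k1 k2) hM1]
    have h3 : 2 * (a0 * b0 * M0) ≤ (a0 ^ 2 + b0 ^ 2) * M0 := by
      nlinarith [mul_nonneg (sq_nonneg (a0 - b0)) hM0]
    have h4 : 2 * (a2 * b2 * M2) ≤ (a2 ^ 2 + b2 ^ 2) * M2 := by
      nlinarith [mul_nonneg (sq_nonneg (a2 - b2)) hM2]
    have h5 : (a2 ^ 2 / τ + τ * b0 ^ 2 + (τ * a0 ^ 2 + b2 ^ 2 / τ)) * M1 =
        (a0 ^ 2 + b0 ^ 2) * (τ * M1) + (a2 ^ 2 + b2 ^ 2) * (M1 / τ) := by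
      field_simp
      ring
    rw [h5] at h2
    have h6 : (2 : ℝ) * (a0 * b0 * Mv r d J 0 + ‖az z z' 1‖ * Mv r d J 1 + a2 * b2 * Mv r d J 2) =
        2 * (a0 * b0 * M0) + 2 * (‖az z z' 1‖ * Mv r d J 1) + 2 * (a2 * b2 * M2) := by ring
    rw [h6]
    nlinarith [h1, h2, h3, h4]
  set q0 := M0 + τ * M1
  set q2 := M2 + M1 / τ
  rw [← e0, ← e0, ← e2, ← e2] at hL
  have hR := V2core (hp 0) (hp 1) (hp 2) (hp' 0) (hp' 1) (hp' 2) hs hs'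
    (mul_nonneg (Nat.cast_nonneg d) (hg 2)) i0 i1 i2 i3 i4
  have hfin : 2 * ∑ p ∈ Finset.range 3, ‖az z z' p‖ * Mv r d J p ≤
      d * ∑ p ∈ Finset.range 3, ∑ q ∈ Finset.range 3, pz z p * pz z' q * gv r d J (p + q) := by
    refine (hL.trans hR).trans (le_of_eq ?_)
    simp only [Finset.sum_range_succ, Finset.sum_range_zero, zero_add]
    norm_num
    ring
  linarith

end Pool.Agent.HHalf
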