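import Mathlib
import Pool.Agent.HHalf.TOne
import Pool.Agent.HHalf.VPair

set_option autoImplicit false

namespace Pool.Agent.HHalf

open Polynomial Set Complex ComplexConjugate

/-- The five conditions. -/
def Wc (M0 M1 M2 G0 G1 G2 G3 G4 : ℝ) : Prop :=
  ∃ κ : ℝ, 0 < κ ∧ M0 ^ 2 / κ + κ ≤ G0 ∧ M0 * M1 / κ + κ ≤ G1 ∧
    (2 * M1 ^ 2 + M0 * M2) / κ + κ ≤ G2 ∧ M1 * M2 / κ + κ ≤ G3 ∧ M2 ^ 2 / κ + κ ≤ G4

theorem Wc_symm {M0 M1 M2 G0 G1 G2 G3 G4 : ℝ} (h : Wc M0 M1 M2 G0 G1 G2 G3 G4) :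
    Wc M2 M1 M0 G4 G3 G2 G1 G0 := by
  obtain ⟨κ, hκ, h0, h1, h2, h3, h4⟩ := h
  refine ⟨κ, hκ, h4, ?_, ?_, ?_, h0⟩
  · rwa [mul_comm M2 M1]
  · rwa [mul_comm M2 M0]
  · rwa [mul_comm M1 M0]

theorem Wc_mono {M0 M1 M2 G0 G1 G2 G3 G4 H0 H1 H2 H3 H4 : ℝ} (h : Wc M0 M1 M2 G0 G1 G2 G3 G4)
    (k0 : G0 ≤ H0) (k1 : G1 ≤ H1) (k2 : G2 ≤ H2) (k3 : G3 ≤ H3) (k4 : G4 ≤ H4) :
    Wc M0 M1 M2 H0 H1 H2 H3 H4 := by
  obtain ⟨κ, hκ, h0, h1, h2, h3, h4⟩ := h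
  exact ⟨κ, hκ, h0.trans k0, h1.trans k1, h2.trans k2, h3.trans k3, h4.trans k4⟩

theorem W_core {P0 P1 P2 R0 R1 R2 T h0 h1 h2 M0 M1 M2 G0 G1 G2 G3 G4 : ℝ}
    (hP0 : 0 ≤ P0) (hP1 : 0 ≤ P1) (hP2 : 0 ≤ P2) (hR0 : 0 ≤ R0) (hR1 : 0 ≤ R1) (hR2 : 0 ≤ R2)
    (hs : P0 + P1 + P2 = 1) (hs' : R0 + R1 + R2 = 1) (hT : |T| ≤ P0 * R2 + P2 * R0)
    (k0 : |h0| ≤ M0) (k1 : |h1| ≤ M1) (k2 : |h2| ≤ M2)
    (hW : Wc M0 M1 M2 G0 G1 G2 G3 G4) {A : ℝ} (hA : 0 ≤ A)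
    (hN : A ^ 2 = P0 * R0 * h0 ^ 2 + (P1 * R0 + P0 * R1) * (h0 * h1) +
      (P2 * R0 + P0 * R2) * h1 ^ 2 + P1 * R1 / 2 * (h1 ^ 2 + h0 * h2) + T * (h1 ^ 2 - h0 * h2) +
      (P2 * R1 + P1 * R2) * (h1 * h2) + P2 * R2 * h2 ^ 2) :
    2 * A ≤ P0 * R0 * G0 + (P1 * R0 + P0 * R1) * G1 + (P2 * R0 + P0 * R2 + P1 * R1) * G2 +
      (P2 * R1 + P1 * R2) * G3 + P2 * R2 * G4 := by
  obtain ⟨κ, hκ, c0, c1, c2, c3, c4⟩ := hW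
  have hM0 : 0 ≤ M0 := (abs_nonneg _).trans k0
  have hM1 : 0 ≤ M1 := (abs_nonneg _).trans k1
  have hM2 : 0 ≤ M2 := (abs_nonneg _).trans k2
  have b0 : h0 ^ 2 ≤ M0 ^ 2 := sq_le_sq' (by linarith [(abs_le.1 k0).1]) (abs_le.1 k0).2
  have b1 : h1 ^ 2 ≤ M1 ^ 2 := sq_le_sq' (by linarith [(abs_le.1 k1).1]) (abs_le.1 k1).2
  have b2 : h2 ^ 2 ≤ M2 ^ 2 := sq_le_sq' (by linarith [(abs_le.1 k2).1]) (abs_le.1 k2).2
  have b01 : h0 * h1 ≤ M0 * M1 := (le_abs_self _).trans (by rw [abs_mul]; gcongr)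
  have b12 : h1 * h2 ≤ M1 * M2 := (le_abs_self _).trans (by rw [abs_mul]; gcongr)
  have b02 : |h0 * h2| ≤ M0 * M2 := by rw [abs_mul]; gcongr
  have bT : T * (h1 ^ 2 - h0 * h2) ≤ (P0 * R2 + P2 * R0) * (M1 ^ 2 + M0 * M2) := by
    refine (le_abs_self _).trans ?_
    rw [abs_mul]
    have : |h1 ^ 2 - h0 * h2| ≤ M1 ^ 2 + M0 * M2 := by
      refine (abs_sub _ _).trans ?_
      rw [abs_of_nonneg (sq_nonneg h1)]
      linarith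
    gcongr
  have b02' := (abs_le.1 b02).2
  have hPR : 0 ≤ P2 * R0 + P0 * R2 := by positivity
  have hN2 : A ^ 2 ≤ P0 * R0 * M0 ^ 2 + (P1 * R0 + P0 * R1) * (M0 * M1) +
      (P2 * R0 + P0 * R2 + P1 * R1) * (2 * M1 ^ 2 + M0 * M2) +
      (P2 * R1 + P1 * R2) * (M1 * M2) + P2 * R2 * M2 ^ 2 := by
    rw [hN]
    have e1 : P1 * R1 / 2 * (h1 ^ 2 + h0 * h2) ≤ P1 * R1 * (2 * M1 ^ 2 + M0 * M2) := by
      have h11 : 0 ≤ P1 * R1 := by positivity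
      have hm02 := mul_nonneg hM0 hM2
      have : h1 ^ 2 + h0 * h2 ≤ 2 * (2 * M1 ^ 2 + M0 * M2) := by linarith [sq_nonneg M1]
      calc P1 * R1 / 2 * (h1 ^ 2 + h0 * h2) ≤ P1 * R1 / 2 * (2 * (2 * M1 ^ 2 + M0 * M2)) := by
            gcongr
        _ = _ := by ring
    have e2 : P0 * R0 * h0 ^ 2 ≤ P0 * R0 * M0 ^ 2 := by gcongr
    have e3 : (P1 * R0 + P0 * R1) * (h0 * h1) ≤ (P1 * R0 + P0 * R1) * (M0 * M1) := by gcongr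
    have e4 : (P2 * R0 + P0 * R2) * h1 ^ 2 ≤ (P2 * R0 + P0 * R2) * M1 ^ 2 := by gcongr
    have e5 : (P2 * R1 + P1 * R2) * (h1 * h2) ≤ (P2 * R1 + P1 * R2) * (M1 * M2) := by gcongr
    have e6 : P2 * R2 * h2 ^ 2 ≤ P2 * R2 * M2 ^ 2 := by gcongr
    linarith
  have h2A : 2 * A ≤ A ^ 2 / κ + κ := by
    have h3 : 0 ≤ (A - κ) ^ 2 / κ := by positivity
    have h4 : (A - κ) ^ 2 / κ = A ^ 2 / κ + κ - 2 * A := by
      field_simp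
      ring
    linarith
  have hdiv : A ^ 2 / κ ≤ (P0 * R0 * M0 ^ 2 + (P1 * R0 + P0 * R1) * (M0 * M1) +
      (P2 * R0 + P0 * R2 + P1 * R1) * (2 * M1 ^ 2 + M0 * M2) +
      (P2 * R1 + P1 * R2) * (M1 * M2) + P2 * R2 * M2 ^ 2) / κ := by gcongr
  have hone : κ = (P0 * R0 + (P1 * R0 + P0 * R1) + (P2 * R0 + P0 * R2 + P1 * R1) +
      (P2 * R1 + P1 * R2) + P2 * R2) * κ := by
    have : P0 * R0 + (P1 * R0 + P0 * R1) + (P2 * R0 + P0 * R2 + P1 * R1) +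
      (P2 * R1 + P1 * R2) + P2 * R2 = (P0 + P1 + P2) * (R0 + R1 + R2) := by ring
    rw [this, hs, hs']; ring
  have t0 := mul_le_mul_of_nonneg_left c0 (mul_nonneg hP0 hR0)
  have t1 := mul_le_mul_of_nonneg_left c1 (show 0 ≤ P1 * R0 + P0 * R1 by positivity)
  have t2 := mul_le_mul_of_nonneg_left c2 (show 0 ≤ P2 * R0 + P0 * R2 + P1 * R1 by positivity)
  have t3 := mul_le_mul_of_nonneg_left c3 (show 0 ≤ P2 * R1 + P1 * R2 by positivity)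
  have t4 := mul_le_mul_of_nonneg_left c4 (mul_nonneg hP2 hR2)
  have hexp : (P0 * R0 * M0 ^ 2 + (P1 * R0 + P0 * R1) * (M0 * M1) +
      (P2 * R0 + P0 * R2 + P1 * R1) * (2 * M1 ^ 2 + M0 * M2) +
      (P2 * R1 + P1 * R2) * (M1 * M2) + P2 * R2 * M2 ^ 2) / κ =
      P0 * R0 * (M0 ^ 2 / κ) + (P1 * R0 + P0 * R1) * (M0 * M1 / κ) +
      (P2 * R0 + P0 * R2 + P1 * R1) * ((2 * M1 ^ 2 + M0 * M2) / κ) +
      (P2 * R1 + P1 * R2) * (M1 * M2 / κ) + P2 * R2 * (M2 ^ 2 / κ) := by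
    field_simp
  rw [hexp] at hdiv
  linarith [t0, t1, t2, t3, t4, hdiv, hone, h2A]

/-- The exact expansion and the bound for the coefficients of two different pairs. -/
theorem Wpair {z z' : ℂ} (hz : ‖z‖ ≤ 1) (hz' : ‖z'‖ ≤ 1) {h0 h1 h2 M0 M1 M2 G0 G1 G2 G3 G4 : ℝ}
    (k0 : |h0| ≤ M0) (k1 : |h1| ≤ M1) (k2 : |h2| ≤ M2) (hW : Wc M0 M1 M2 G0 G1 G2 G3 G4) :
    2 * ‖az z z' 0 * (h0 : ℂ) + az z z' 1 * (h1 : ℂ) + az z z' 2 * (h2 : ℂ)‖ ≤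
      pz z 0 * pz z' 0 * G0 + (pz z 1 * pz z' 0 + pz z 0 * pz z' 1) * G1 +
      (pz z 2 * pz z' 0 + pz z 0 * pz z' 2 + pz z 1 * pz z' 1) * G2 +
      (pz z 2 * pz z' 1 + pz z 1 * pz z' 2) * G3 + pz z 2 * pz z' 2 * G4 := by
  have p0 : ∀ w : ℂ, pz w 0 = ((1 + w.re) ^ 2 + w.im ^ 2) / 4 := by
    intro w
    simp [pz, Complex.normSq_apply]
    ring
  have p1 : ∀ w : ℂ, pz w 1 = (1 - w.re ^ 2 - w.im ^ 2) / 2 := by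
    intro w
    simp [pz, Complex.normSq_apply]
    ring
  have p2 : ∀ w : ℂ, pz w 2 = ((1 - w.re) ^ 2 + w.im ^ 2) / 4 := by
    intro w
    simp [pz, Complex.normSq_apply]
    ring
  refine W_core (T := z.im * z'.im / 2) (pz_nonneg hz 0) (pz_nonneg hz 1) (pz_nonneg hz 2)
    (pz_nonneg hz' 0) (pz_nonneg hz' 1) (pz_nonneg hz' 2) (pz_sum z) (pz_sum z') ?_ k0 k1 k2 hW
    (norm_nonneg _) ?_
  · -- `|Im Im'|/2 ≤ π₀ π₂' + π₂ π₀'`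
    have q : ∀ w : ℂ, (w.im / 2) ^ 2 ≤ pz w 0 * pz w 2 := by
      intro w
      rw [p0, p2]
      nlinarith [sq_nonneg (1 - w.re ^ 2 - w.im ^ 2)]
    have h3 := q z
    have h4 := q z'
    have n0 := pz_nonneg hz 0
    have n2 := pz_nonneg hz 2
    have m0 := pz_nonneg hz' 0
    have m2 := pz_nonneg hz' 2
    have hnn : 0 ≤ pz z 0 * pz z' 2 + pz z 2 * pz z' 0 := by positivity
    refine abs_le_of_sq_le_sq ?_ hnn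
    have h5 : (z.im / 2) ^ 2 * (z'.im / 2) ^ 2 ≤ (pz z 0 * pz z 2) * (pz z' 0 * pz z' 2) :=
      mul_le_mul h3 h4 (sq_nonneg _) (mul_nonneg n0 n2)
    nlinarith [sq_nonneg (pz z 0 * pz z' 2 - pz z 2 * pz z' 0)]
  · rw [← Complex.normSq_eq_norm_sq]
    have a0 : az z z' 0 = (1 + z) * (1 + z') / 4 := by simp [az]
    have a1 : az z z' 1 = ((1 - z) * (1 + z') + (1 + z) * (1 - z')) / 4 := by simp [az]
    have a2 : az z z' 2 = (1 - z) * (1 - z') / 4 := by simp [az]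
    have r4 : ∀ w : ℂ, (w / 4).re = w.re / 4 := by
      intro w
      rw [show (4 : ℂ) = ((4 : ℝ) : ℂ) by norm_num, Complex.div_ofReal_re]
    have i4 : ∀ w : ℂ, (w / 4).im = w.im / 4 := by
      intro w
      rw [show (4 : ℂ) = ((4 : ℝ) : ℂ) by norm_num, Complex.div_ofReal_im]
    rw [a0, a1, a2]
    simp only [p0, p1, p2, Complex.normSq_apply, Complex.add_re, Complex.add_im, Complex.mul_re,
      Complex.mul_im, Complex.sub_re, Complex.sub_im, Complex.one_re, Complex.one_im,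
      Complex.ofReal_re, Complex.ofReal_im, r4, i4]
    ring

end Pool.Agent.HHalf
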