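import Mathlib
import Pool.Agent.HHalf.WGeg
import Pool.Agent.HHalf.WPair

set_option autoImplicit false

namespace Pool.Agent.HHalf

/-- `d g_s`, `d = k + 1`, weights `3/4` and `1/4`. -/
noncomputable def Gw (k J s : ℕ) : ℝ :=
  ((k : ℝ) + 1) * (3 / 2 * ((J + s).choose (k + 1) : ℝ) +
    1 / 2 * ((2 * k + 2 - (J + s)).choose (k + 1) : ℝ))

theorem Wc_monoM {M0 M1 M2 N0 N1 N2 G0 G1 G2 G3 G4 : ℝ} (h : Wc M0 M1 M2 G0 G1 G2 G3 G4)
    (n0 : 0 ≤ N0) (n1 : 0 ≤ N1) (n2 : 0 ≤ N2) (k0 : N0 ≤ M0) (k1 : N1 ≤ M1) (k2 : N2 ≤ M2) :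
    Wc N0 N1 N2 G0 G1 G2 G3 G4 := by
  obtain ⟨κ, hκ, h0, h1, h2, h3, h4⟩ := h
  have m0 := n0.trans k0
  have m1 := n1.trans k1
  have m2 := n2.trans k2
  refine ⟨κ, hκ, ?_, ?_, ?_, ?_, ?_⟩
  · refine le_trans ?_ h0
    gcongr
  · refine le_trans ?_ h1
    gcongr
  · refine le_trans ?_ h2
    gcongr
  · refine le_trans ?_ h3
    gcongr
  · refine le_trans ?_ h4
    gcongr

private theorem w_n1 {A : ℝ} (hA : 1 ≤ A) : (A + 3) * (A + 4) ≤ (A + 1) * (A + 2) * (10 / 3) := by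
  nlinarith

private theorem w_n2 {A : ℝ} (hA : 3 ≤ A) : (A + 2) * (A + 1) ≤ A * (A - 1) * (10 / 3) := by
  nlinarith

private theorem w_n3 {A K : ℝ} (hA : 1 ≤ A) (hK : A + 2 ≤ K) :
    4 * ((A + 1) * (A + 2)) ≤ (K + A + 1) * (K + A + 2) := by
  have h1 : 2 * (A + 1) ≤ K + A + 1 := by linarith
  have h2 : 2 * (A + 2) ≤ K + A + 2 := by linarith
  have h3 := mul_le_mul h1 h2 (by linarith) (by linarith)
  linarith

private theorem w_mono {a b B C : ℝ} (hb : 0 < b) (hab : b ≤ a) (hB : 0 ≤ B)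
    (h : b * C = a * B) : B ≤ C := by
  have h1 : b * B ≤ b * C := by rw [h]; exact mul_le_mul_of_nonneg_right hab hB
  exact le_of_mul_le_mul_left h1 hb

private theorem w_sc {a b c B : ℝ} (h : a ≤ b * c) (hB : 0 ≤ B) : a * B ≤ b * (c * B) := by
  have := mul_le_mul_of_nonneg_right h hB
  linarith

/-- `a ≥ 1`. -/
theorem W_up {A K B0 B1 B2 B3 B4 G0 G1 G2 G3 G4 : ℝ} (hA : 1 ≤ A) (hK : A + 2 ≤ K) (hB0 : 0 < B0)
    (r1 : (A + 1) * B1 = (K + A + 1) * B0) (r2 : (A + 2) * B2 = (K + A + 2) * B1)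
    (r3 : (A + 3) * B3 = (K + A + 3) * B2) (r4 : (A + 4) * B4 = (K + A + 4) * B3)
    (g0 : 2 * B0 ≤ G0) (g1 : 3 / 2 * (A + 1) * B1 ≤ G1) (g2 : 3 / 2 * (A + 2) * B2 ≤ G2)
    (g3 : 3 / 2 * (A + 3) * B3 ≤ G3) (g4 : 3 / 2 * (A + 4) * B4 ≤ G4) :
    Wc B0 B1 B2 G0 G1 G2 G3 G4 := by
  have l1 : B0 ≤ B1 := w_mono (by linarith) (by linarith) hB0.le r1
  have p1 : 0 < B1 := hB0.trans_le l1
  have l2 : B1 ≤ B2 := w_mono (by linarith) (by linarith) p1.le r2
  have p2 : 0 < B2 := p1.trans_le l2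
  have l3 : B2 ≤ B3 := w_mono (by linarith) (by linarith) p2.le r3
  have p3 : 0 < B3 := p2.trans_le l3
  have l4 : B3 ≤ B4 := w_mono (by linarith) (by linarith) p3.le r4
  have p4 : 0 < B4 := p3.trans_le l4
  have f1 : (A + 1) * (A + 2) * B2 = (K + A + 1) * (K + A + 2) * B0 := by
    calc (A + 1) * (A + 2) * B2 = (A + 1) * ((A + 2) * B2) := by ring
      _ = (K + A + 2) * ((A + 1) * B1) := by rw [r2]; ring
      _ = _ := by rw [r1]; ring
  have f2 : (A + 3) * (A + 4) * B4 = (K + A + 3) * (K + A + 4) * B2 := by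
    calc (A + 3) * (A + 4) * B4 = (A + 3) * ((A + 4) * B4) := by ring
      _ = (K + A + 4) * ((A + 3) * B3) := by rw [r4]; ring
      _ = _ := by rw [r3]; ring
  -- `4 B0 ≤ B2`
  have q : 4 * B0 ≤ B2 := by
    have e3 : (A + 1) * (A + 2) * (4 * B0) ≤ (A + 1) * (A + 2) * B2 := by
      rw [f1]
      have := mul_le_mul_of_nonneg_right (w_n3 hA hK) hB0.le
      linarith
    exact le_of_mul_le_mul_left e3 (by positivity)
  have s1 : B1 ^ 2 ≤ 3 / 2 * (B2 * B0) := by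
    have e1 : (A + 1) * B1 ^ 2 ≤ (A + 2) * (B2 * B0) := by
      calc (A + 1) * B1 ^ 2 = ((A + 1) * B1) * B1 := by ring
        _ = (K + A + 1) * (B0 * B1) := by rw [r1]; ring
        _ ≤ (K + A + 2) * (B0 * B1) :=
            mul_le_mul_of_nonneg_right (by linarith) (mul_nonneg hB0.le p1.le)
        _ = B0 * ((K + A + 2) * B1) := by ring
        _ = B0 * ((A + 2) * B2) := by rw [r2]
        _ = _ := by ring
    have e2 : (A + 2) * (B2 * B0) ≤ (A + 1) * (3 / 2 * (B2 * B0)) :=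
      w_sc (by linarith) (mul_nonneg p2.le hB0.le)
    exact le_of_mul_le_mul_left (e1.trans e2) (by linarith)
  have s2 : B1 * B2 ≤ 2 * (B3 * B0) := by
    have e1 : (A + 1) * (B1 * B2) ≤ (A + 3) * (B3 * B0) := by
      calc (A + 1) * (B1 * B2) = ((A + 1) * B1) * B2 := by ring
        _ = (K + A + 1) * (B0 * B2) := by rw [r1]; ring
        _ ≤ (K + A + 3) * (B0 * B2) :=
            mul_le_mul_of_nonneg_right (by linarith) (mul_nonneg hB0.le p2.le)
        _ = B0 * ((K + A + 3) * B2) := by ring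
        _ = B0 * ((A + 3) * B3) := by rw [r3]
        _ = _ := by ring
    have e2 : (A + 3) * (B3 * B0) ≤ (A + 1) * (2 * (B3 * B0)) :=
      w_sc (by linarith) (mul_nonneg p3.le hB0.le)
    exact le_of_mul_le_mul_left (e1.trans e2) (by linarith)
  have s3 : B2 ^ 2 ≤ 10 / 3 * (B4 * B0) := by
    have e1 : (A + 1) * (A + 2) * B2 ^ 2 ≤ (A + 3) * (A + 4) * (B4 * B0) := by
      calc (A + 1) * (A + 2) * B2 ^ 2 = ((A + 1) * (A + 2) * B2) * B2 := by ring
        _ = (K + A + 1) * (K + A + 2) * (B0 * B2) := by rw [f1]; ring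
        _ ≤ (K + A + 3) * (K + A + 4) * (B0 * B2) :=
            mul_le_mul_of_nonneg_right
              (mul_le_mul (by linarith) (by linarith) (by linarith) (by linarith))
              (mul_nonneg hB0.le p2.le)
        _ = B0 * ((K + A + 3) * (K + A + 4) * B2) := by ring
        _ = B0 * ((A + 3) * (A + 4) * B4) := by rw [f2]
        _ = _ := by ring
    have e2 : (A + 3) * (A + 4) * (B4 * B0) ≤ (A + 1) * (A + 2) * (10 / 3 * (B4 * B0)) :=
      w_sc (w_n1 hA) (mul_nonneg p4.le hB0.le)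
    exact le_of_mul_le_mul_left (e1.trans e2) (by positivity)
  have t1 : B1 ^ 2 / B0 ≤ 3 / 2 * B2 := by rw [div_le_iff₀ hB0]; linarith
  have t2 : B1 * B2 / B0 ≤ 2 * B3 := by rw [div_le_iff₀ hB0]; linarith
  have t3 : B2 ^ 2 / B0 ≤ 10 / 3 * B4 := by rw [div_le_iff₀ hB0]; linarith
  have u1 : 1 * B1 ≤ A * B1 := mul_le_mul_of_nonneg_right hA p1.le
  have u2 : 1 * B2 ≤ A * B2 := mul_le_mul_of_nonneg_right hA p2.le
  have u3 : 1 * B3 ≤ A * B3 := mul_le_mul_of_nonneg_right hA p3.le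
  have u4 : 1 * B4 ≤ A * B4 := mul_le_mul_of_nonneg_right hA p4.le
  refine ⟨B0, hB0, ?_, ?_, ?_, ?_, ?_⟩
  · have : B0 ^ 2 / B0 + B0 = 2 * B0 := by field_simp; ring
    rw [this]; exact g0
  · have : B0 * B1 / B0 + B0 = B1 + B0 := by field_simp
    rw [this]
    refine le_trans ?_ g1
    linarith
  · have : (2 * B1 ^ 2 + B0 * B2) / B0 + B0 = 2 * (B1 ^ 2 / B0) + B2 + B0 := by field_simp
    rw [this]
    refine le_trans ?_ g2
    linarith
  · refine le_trans ?_ g3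
    linarith
  · refine le_trans ?_ g4
    linarith

/-- `a ≤ -3`. -/
theorem W_down {A K D0 D1 D2 D3 D4 G0 G1 G2 G3 G4 : ℝ} (hA : 3 ≤ A) (hK : A ≤ K) (hD4 : 0 < D4)
    (r1 : (A + 2) * D0 = (K + A + 2) * D1) (r2 : (A + 1) * D1 = (K + A + 1) * D2)
    (r3 : A * D2 = (K + A) * D3) (r4 : (A - 1) * D3 = (K + A - 1) * D4)
    (g0 : 1 / 2 * (A + 2) * D0 ≤ G0) (g1 : 1 / 2 * (A + 1) * D1 ≤ G1) (g2 : 1 / 2 * A * D2 ≤ G2)
    (g3 : 1 / 2 * (A - 1) * D3 ≤ G3) (g4 : D4 ≤ G4) :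
    Wc (D2 / 8) (D3 / 4) (D4 / 2) G0 G1 G2 G3 G4 := by
  have l3 : D4 ≤ D3 := w_mono (by linarith) (by linarith) hD4.le r4
  have p3 : 0 < D3 := hD4.trans_le l3
  have l2 : D3 ≤ D2 := w_mono (by linarith) (by linarith) p3.le r3
  have p2 : 0 < D2 := p3.trans_le l2
  have l1 : D2 ≤ D1 := w_mono (by linarith) (by linarith) p2.le r2
  have p1 : 0 < D1 := p2.trans_le l1
  have l0 : D1 ≤ D0 := w_mono (by linarith) (by linarith) p1.le r1
  have p0 : 0 < D0 := p1.trans_le l0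
  have f1 : A * (A - 1) * D2 = (K + A) * (K + A - 1) * D4 := by
    calc A * (A - 1) * D2 = (A - 1) * (A * D2) := by ring
      _ = (K + A) * ((A - 1) * D3) := by rw [r3]; ring
      _ = _ := by rw [r4]; ring
  have f2 : (A + 2) * (A + 1) * D0 = (K + A + 2) * (K + A + 1) * D2 := by
    calc (A + 2) * (A + 1) * D0 = (A + 1) * ((A + 2) * D0) := by ring
      _ = (K + A + 2) * ((A + 1) * D1) := by rw [r1]; ring
      _ = _ := by rw [r2]; ring
  have s1 : D3 ^ 2 ≤ 3 / 2 * (D2 * D4) := by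
    have e1 : (A - 1) * D3 ^ 2 ≤ A * (D2 * D4) := by
      calc (A - 1) * D3 ^ 2 = ((A - 1) * D3) * D3 := by ring
        _ = (K + A - 1) * (D3 * D4) := by rw [r4]; ring
        _ ≤ (K + A) * (D3 * D4) :=
            mul_le_mul_of_nonneg_right (by linarith) (mul_nonneg p3.le hD4.le)
        _ = ((K + A) * D3) * D4 := by ring
        _ = (A * D2) * D4 := by rw [r3]
        _ = _ := by ring
    have e2 : A * (D2 * D4) ≤ (A - 1) * (3 / 2 * (D2 * D4)) :=
      w_sc (by linarith) (mul_nonneg p2.le hD4.le)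
    exact le_of_mul_le_mul_left (e1.trans e2) (by linarith)
  have s2 : D2 * D3 ≤ 2 * (D1 * D4) := by
    have e1 : (A - 1) * (D2 * D3) ≤ (A + 1) * (D1 * D4) := by
      calc (A - 1) * (D2 * D3) = ((A - 1) * D3) * D2 := by ring
        _ = (K + A - 1) * (D2 * D4) := by rw [r4]; ring
        _ ≤ (K + A + 1) * (D2 * D4) :=
            mul_le_mul_of_nonneg_right (by linarith) (mul_nonneg p2.le hD4.le)
        _ = ((K + A + 1) * D2) * D4 := by ring
        _ = ((A + 1) * D1) * D4 := by rw [r2]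
        _ = _ := by ring
    have e2 : (A + 1) * (D1 * D4) ≤ (A - 1) * (2 * (D1 * D4)) :=
      w_sc (by linarith) (mul_nonneg p1.le hD4.le)
    exact le_of_mul_le_mul_left (e1.trans e2) (by linarith)
  have s3 : D2 ^ 2 ≤ 10 / 3 * (D0 * D4) := by
    have e1 : A * (A - 1) * D2 ^ 2 ≤ (A + 2) * (A + 1) * (D0 * D4) := by
      calc A * (A - 1) * D2 ^ 2 = (A * (A - 1) * D2) * D2 := by ring
        _ = (K + A) * (K + A - 1) * (D2 * D4) := by rw [f1]; ring
        _ ≤ (K + A + 2) * (K + A + 1) * (D2 * D4) :=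
            mul_le_mul_of_nonneg_right
              (mul_le_mul (by linarith) (by linarith) (by linarith) (by linarith))
              (mul_nonneg p2.le hD4.le)
        _ = ((K + A + 2) * (K + A + 1) * D2) * D4 := by ring
        _ = ((A + 2) * (A + 1) * D0) * D4 := by rw [f2]
        _ = _ := by ring
    have e2 : (A + 2) * (A + 1) * (D0 * D4) ≤ A * (A - 1) * (10 / 3 * (D0 * D4)) :=
      w_sc (w_n2 hA) (mul_nonneg p0.le hD4.le)
    exact le_of_mul_le_mul_left (e1.trans e2) (mul_pos (by linarith) (by linarith))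
  have t1 : D3 ^ 2 / D4 ≤ 3 / 2 * D2 := by rw [div_le_iff₀ hD4]; linarith
  have t2 : D2 * D3 / D4 ≤ 2 * D1 := by rw [div_le_iff₀ hD4]; linarith
  have t3 : D2 ^ 2 / D4 ≤ 10 / 3 * D0 := by rw [div_le_iff₀ hD4]; linarith
  have u0 : 3 * D0 ≤ A * D0 := mul_le_mul_of_nonneg_right hA p0.le
  have u1 : 3 * D1 ≤ A * D1 := mul_le_mul_of_nonneg_right hA p1.le
  have u2 : 3 * D2 ≤ A * D2 := mul_le_mul_of_nonneg_right hA p2.le
  have u3 : 3 * D3 ≤ A * D3 := mul_le_mul_of_nonneg_right hA p3.le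
  refine ⟨D4 / 2, by positivity, ?_, ?_, ?_, ?_, ?_⟩
  · have : (D2 / 8) ^ 2 / (D4 / 2) + D4 / 2 = 1 / 32 * (D2 ^ 2 / D4) + D4 / 2 := by
      field_simp; ring
    rw [this]
    refine le_trans ?_ g0
    linarith
  · have : D2 / 8 * (D3 / 4) / (D4 / 2) + D4 / 2 = 1 / 16 * (D2 * D3 / D4) + D4 / 2 := by
      field_simp; ring
    rw [this]
    refine le_trans ?_ g1
    linarith
  · have : (2 * (D3 / 4) ^ 2 + D2 / 8 * (D4 / 2)) / (D4 / 2) + D4 / 2 =
        1 / 4 * (D3 ^ 2 / D4) + D2 / 8 + D4 / 2 := by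
      field_simp; ring
    rw [this]
    refine le_trans ?_ g2
    linarith
  · have : D3 / 4 * (D4 / 2) / (D4 / 2) + D4 / 2 = D3 / 4 + D4 / 2 := by
      field_simp
    rw [this]
    refine le_trans ?_ g3
    linarith
  · have : (D4 / 2) ^ 2 / (D4 / 2) + D4 / 2 = D4 := by
      field_simp; ring
    rw [this]
    exact g4

end Pool.Agent.HHalf
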