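import Mathlib
import Pool.Agent.HHalf.WBin

set_option autoImplicit false

namespace Pool.Agent.HHalf

private theorem wb_step (k b : ℕ) :
    ((b : ℝ) + 1) * ((k + (b + 1)).choose k : ℝ) = ((k : ℝ) + b + 1) * ((k + b).choose k : ℝ) := by
  have h := Nat.choose_mul_succ_eq (k + b) k
  have h2 : k + b + 1 - k = b + 1 := by omega
  rw [h2] at h
  have h3 : (((k + b).choose k * (k + b + 1) : ℕ) : ℝ) =
      (((k + b + 1).choose k * (b + 1) : ℕ) : ℝ) := congrArg _ h
  push_cast at h3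
  have h4 : k + (b + 1) = k + b + 1 := by ring
  rw [h4]
  linarith

private theorem wb_succ (k b : ℕ) :
    ((k : ℝ) + 1) * ((k + b).choose (k + 1) : ℝ) = (b : ℝ) * ((k + b).choose k : ℝ) := by
  have h := Nat.choose_succ_right_eq (k + b) k
  have h2 : k + b - k = b := by omega
  rw [h2] at h
  have h3 : (((k + b).choose (k + 1) * (k + 1) : ℕ) : ℝ) =
      (((k + b).choose k * b : ℕ) : ℝ) := congrArg _ h
  push_cast at h3
  linarith

private theorem wb0 (k : ℕ) : ((k + 0).choose k : ℝ) = 1 := by simp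

private theorem wb1 (k : ℕ) : ((k + 1).choose k : ℝ) = (k : ℝ) + 1 := by
  have h := wb_step k 0
  simp only [add_zero, Nat.choose_self, Nat.cast_zero, zero_add, Nat.cast_one, mul_one,
    one_mul] at h
  exact h

private theorem wb2 (k : ℕ) : ((k + 2).choose k : ℝ) = ((k : ℝ) + 1) * (k + 2) / 2 := by
  have h := wb_step k 1
  have e : k + (1 + 1) = k + 2 := rfl
  rw [wb1, e] at h
  push_cast at h
  linarith

private theorem wb3 (k : ℕ) : ((k + 3).choose k : ℝ) = ((k : ℝ) + 1) * (k + 2) * (k + 3) / 6 := by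
  have h := wb_step k 2
  have e : k + (2 + 1) = k + 3 := rfl
  rw [wb2, e] at h
  push_cast at h
  linarith

private theorem wb4 (k : ℕ) :
    ((k + 4).choose k : ℝ) = ((k : ℝ) + 1) * (k + 2) * (k + 3) * (k + 4) / 24 := by
  have h := wb_step k 3
  have e : k + (3 + 1) = k + 4 := rfl
  rw [wb3, e] at h
  push_cast at h
  linarith

private theorem gw_up {k J s b : ℕ} (h : J + s = k + b) :
    3 / 2 * ((b : ℝ) * ((k + b).choose k : ℝ)) ≤ Gw k J s := by
  unfold Gw
  rw [h, ← wb_succ]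
  have h1 : (0 : ℝ) ≤ ((2 * k + 2 - (k + b)).choose (k + 1) : ℝ) := Nat.cast_nonneg _
  have h2 : (0 : ℝ) ≤ (k : ℝ) + 1 := by positivity
  have h3 := mul_nonneg h2 h1
  linarith

private theorem gw_down {k J s b : ℕ} (h : 2 * k + 2 - (J + s) = k + b) :
    1 / 2 * ((b : ℝ) * ((k + b).choose k : ℝ)) ≤ Gw k J s := by
  unfold Gw
  rw [h, ← wb_succ]
  have h1 : (0 : ℝ) ≤ ((J + s).choose (k + 1) : ℝ) := Nat.cast_nonneg _
  have h2 : (0 : ℝ) ≤ (k : ℝ) + 1 := by positivity
  have h3 := mul_nonneg h2 h1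
  linarith

private theorem gw_mid {k J s : ℕ} (h : J + s = k + 1) : Gw k J s = 2 * ((k : ℝ) + 1) := by
  unfold Gw
  have h2 : 2 * k + 2 - (k + 1) = k + 1 := by omega
  rw [h, h2, Nat.choose_self]
  push_cast
  ring

private theorem mw_up {k J b : ℕ} (h : J = k + b) : Mw k J = ((k + b).choose k : ℝ) := by
  unfold Mw
  rw [if_pos (by omega), h]

private theorem mw_down {k J b : ℕ} (h : J + b = k) (hb : 1 ≤ b) :
    Mw k J = ((k + b).choose k : ℝ) / 2 ^ b := by
  unfold Mw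
  have e1 : 2 * k - J = k + b := by omega
  have e2 : k - J = b := by omega
  rw [if_neg (by omega), e1, e2]

/-- `J ≥ k + 1`. -/
private theorem WB_up {k a : ℕ} (ha : 1 ≤ a) (hk : a + 2 ≤ k) :
    Wc (Mw k (k + a)) (Mw k (k + a + 1)) (Mw k (k + a + 2)) (Gw k (k + a) 0) (Gw k (k + a) 1)
      (Gw k (k + a) 2) (Gw k (k + a) 3) (Gw k (k + a) 4) := by
  rw [mw_up (k := k) (J := k + a) (b := a) rfl, mw_up (k := k) (J := k + a + 1) (b := a + 1) rfl,
    mw_up (k := k) (J := k + a + 2) (b := a + 2) rfl]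
  have hpos : (0 : ℝ) < ((k + a).choose k : ℝ) := by exact_mod_cast Nat.choose_pos (by omega)
  have hA : (1 : ℝ) ≤ a := by exact_mod_cast ha
  have hK : (a : ℝ) + 2 ≤ k := by exact_mod_cast hk
  have r1 := wb_step k a
  have r2 := wb_step k (a + 1)
  have r3 := wb_step k (a + 2)
  have r4 := wb_step k (a + 3)
  have g1 := gw_up (k := k) (J := k + a) (s := 1) (b := a + 1) rfl
  have g2 := gw_up (k := k) (J := k + a) (s := 2) (b := a + 2) rfl
  have g3 := gw_up (k := k) (J := k + a) (s := 3) (b := a + 3) rfl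
  have g4 := gw_up (k := k) (J := k + a) (s := 4) (b := a + 4) rfl
  have e3 : k + (a + 1 + 1) = k + (a + 2) := rfl
  have e4 : k + (a + 2 + 1) = k + (a + 3) := rfl
  have e5 : k + (a + 3 + 1) = k + (a + 4) := rfl
  rw [e3] at r2
  rw [e4] at r3
  rw [e5] at r4
  push_cast at r1 r2 r3 r4 g1 g2 g3 g4
  refine W_up (A := (a : ℝ)) (K := (k : ℝ)) (B3 := ((k + (a + 3)).choose k : ℝ))
    (B4 := ((k + (a + 4)).choose k : ℝ)) hA hK hpos (by linarith) (by linarith) (by linarith)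
    (by linarith) ?_ (by linarith) (by linarith) (by linarith) (by linarith)
  rcases Nat.lt_or_ge a 2 with h | h
  · obtain rfl : a = 1 := by omega
    rw [gw_mid (by ring), wb1]
  · have g0 := gw_up (k := k) (J := k + a) (s := 0) (b := a) rfl
    have h2 : (2 : ℝ) ≤ a := by exact_mod_cast h
    have := mul_le_mul_of_nonneg_right h2 hpos.le
    linarith

/-- `J ≤ k - 3`. -/
private theorem WB_down {k J a : ℕ} (hJ : J + (a + 3) = k) :
    Wc (Mw k J) (Mw k (J + 1)) (Mw k (J + 2)) (Gw k J 0) (Gw k J 1)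
      (Gw k J 2) (Gw k J 3) (Gw k J 4) := by
  rw [mw_down (b := a + 3) hJ (by omega), mw_down (b := a + 2) (by omega) (by omega),
    mw_down (b := a + 1) (by omega) (by omega)]
  have hpos : (0 : ℝ) < ((k + (a + 1)).choose k : ℝ) := by
    exact_mod_cast Nat.choose_pos (by omega)
  have r4 := wb_step k (a + 1)
  have r3 := wb_step k (a + 2)
  have r2 := wb_step k (a + 3)
  have r1 := wb_step k (a + 4)
  have g0 := gw_down (k := k) (J := J) (s := 0) (b := a + 5) (by omega)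
  have g1 := gw_down (k := k) (J := J) (s := 1) (b := a + 4) (by omega)
  have g2 := gw_down (k := k) (J := J) (s := 2) (b := a + 3) (by omega)
  have g3 := gw_down (k := k) (J := J) (s := 3) (b := a + 2) (by omega)
  have e1 : k + (a + 1 + 1) = k + (a + 2) := rfl
  have e2 : k + (a + 2 + 1) = k + (a + 3) := rfl
  have e3 : k + (a + 3 + 1) = k + (a + 4) := rfl
  have e4 : k + (a + 4 + 1) = k + (a + 5) := rfl
  rw [e1] at r4
  rw [e2] at r3
  rw [e3] at r2
  rw [e4] at r1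
  have g4 : ((k + (a + 1)).choose k : ℝ) ≤ Gw k J 4 := by
    rcases Nat.eq_zero_or_pos a with h | h
    · subst h
      rw [gw_mid (by omega)]
      have : ((k + (0 + 1)).choose k : ℝ) = (k : ℝ) + 1 := wb1 k
      rw [this]
      have : (0 : ℝ) ≤ k := Nat.cast_nonneg _
      linarith
    · have g := gw_down (k := k) (J := J) (s := 4) (b := a + 1) (by omega)
      have h1 : (1 : ℝ) ≤ a := by exact_mod_cast h
      have := mul_le_mul_of_nonneg_right h1 hpos.le
      push_cast at g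
      linarith
  push_cast at r1 r2 r3 r4 g0 g1 g2 g3
  have hA : (3 : ℝ) ≤ (a : ℝ) + 3 := by
    have : (0 : ℝ) ≤ a := Nat.cast_nonneg _
    linarith
  have hK : (a : ℝ) + 3 ≤ k := by
    have : a + 3 ≤ k := by omega
    exact_mod_cast this
  have hW := W_down (A := (a : ℝ) + 3) (K := (k : ℝ)) (D0 := ((k + (a + 5)).choose k : ℝ))
    (D1 := ((k + (a + 4)).choose k : ℝ)) (D2 := ((k + (a + 3)).choose k : ℝ))
    (D3 := ((k + (a + 2)).choose k : ℝ)) (D4 := ((k + (a + 1)).choose k : ℝ))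
    hA hK hpos (by linarith) (by linarith) (by linarith) (by linarith) (G0 := Gw k J 0)
    (G1 := Gw k J 1) (G2 := Gw k J 2) (G3 := Gw k J 3) (G4 := Gw k J 4)
    (by linarith) (by linarith) (by linarith) (by linarith) g4
  have q : (1 : ℝ) ≤ 2 ^ a := one_le_pow₀ (by norm_num)
  have p2 : (0 : ℝ) ≤ ((k + (a + 3)).choose k : ℝ) := Nat.cast_nonneg _
  have p3 : (0 : ℝ) ≤ ((k + (a + 2)).choose k : ℝ) := Nat.cast_nonneg _
  refine Wc_monoM hW (by positivity) (by positivity) (by positivity) ?_ ?_ ?_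
  · have : (8 : ℝ) ≤ 2 ^ (a + 3) := by rw [pow_add]; linarith
    gcongr
  · have : (4 : ℝ) ≤ 2 ^ (a + 2) := by rw [pow_add]; linarith
    gcongr
  · have : (2 : ℝ) ≤ 2 ^ (a + 1) := by rw [pow_add]; linarith
    gcongr

/-- `J = k`. -/
private theorem WB_0 {k : ℕ} (hk : 1 ≤ k) :
    Wc (Mw k k) (Mw k (k + 1)) (Mw k (k + 2)) (Gw k k 0) (Gw k k 1)
      (Gw k k 2) (Gw k k 3) (Gw k k 4) := by
  rw [mw_up (k := k) (J := k) (b := 0) rfl, mw_up (k := k) (J := k + 1) (b := 1) rfl,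
    mw_up (k := k) (J := k + 2) (b := 2) rfl, wb0, wb1, wb2]
  have g0 := gw_down (k := k) (J := k) (s := 0) (b := 2) (by omega)
  have g1 : Gw k k 1 = 2 * ((k : ℝ) + 1) := gw_mid rfl
  have g2 := gw_up (k := k) (J := k) (s := 2) (b := 2) rfl
  have g3 := gw_up (k := k) (J := k) (s := 3) (b := 3) rfl
  have g4 := gw_up (k := k) (J := k) (s := 4) (b := 4) rfl
  rw [wb2] at g0 g2
  rw [wb3] at g3
  rw [wb4] at g4
  have hk' : (1 : ℝ) ≤ k := by exact_mod_cast hk
  push_cast at g0 g2 g3 g4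
  set K : ℝ := (k : ℝ) + 1 with hKdef
  have hK2 : (2 : ℝ) ≤ K := by linarith
  have ek : (k : ℝ) = K - 1 := by rw [hKdef]; ring
  rw [ek] at g0 g2 g3 g4 ⊢
  have hK0 : 0 < K := by linarith
  have hKK : 2 * K ≤ K * K := mul_le_mul_of_nonneg_right hK2 hK0.le
  refine ⟨K, hK0, ?_, ?_, ?_, ?_, ?_⟩
  · refine le_trans ?_ g0
    have h1 : 1 ^ 2 / K ≤ 1 / 2 := by
      rw [one_pow]
      exact one_div_le_one_div_of_le (by norm_num) hK2
    nlinarith
  · rw [g1]
    have : 1 * K / K + K = 1 + K := by field_simp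
    rw [this]
    linarith
  · refine le_trans ?_ g2
    have : (2 * K ^ 2 + 1 * (K * (K - 1 + 2) / 2)) / K + K = 7 / 2 * K + 1 / 2 := by
      field_simp; ring
    rw [this]
    nlinarith
  · refine le_trans ?_ g3
    have : K * (K * (K - 1 + 2) / 2) / K + K = K * (K + 1) / 2 + K := by
      field_simp; ring
    rw [this]
    nlinarith [mul_nonneg hK0.le (sub_nonneg.2 hKK), mul_pos hK0 hK0]
  · refine le_trans ?_ g4
    have : (K * (K - 1 + 2) / 2) ^ 2 / K + K = K * (K + 1) ^ 2 / 4 + K := by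
      field_simp; ring
    rw [this]
    have e : 3 / 2 * (4 * (K * (K - 1 + 2) * (K - 1 + 3) * (K - 1 + 4) / 24)) -
        (K * (K + 1) ^ 2 / 4 + K) = K * (K ^ 3 + 5 * K ^ 2 + 9 * K + 1) / 4 := by ring
    have e2 : 0 ≤ K * (K ^ 3 + 5 * K ^ 2 + 9 * K + 1) / 4 := by positivity
    linarith

/-- `J = k - 1`. -/
private theorem WB_1 {k J : ℕ} (hJ : J + 1 = k) :
    Wc (Mw k J) (Mw k (J + 1)) (Mw k (J + 2)) (Gw k J 0) (Gw k J 1)
      (Gw k J 2) (Gw k J 3) (Gw k J 4) := by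
  rw [mw_down (b := 1) hJ le_rfl, mw_up (b := 0) (by omega), mw_up (b := 1) (by omega), wb0, wb1]
  have g0 := gw_down (k := k) (J := J) (s := 0) (b := 3) (by omega)
  have g1 := gw_down (k := k) (J := J) (s := 1) (b := 2) (by omega)
  have g2 : Gw k J 2 = 2 * ((k : ℝ) + 1) := gw_mid (by omega)
  have g3 := gw_up (k := k) (J := J) (s := 3) (b := 2) (by omega)
  have g4 := gw_up (k := k) (J := J) (s := 4) (b := 3) (by omega)
  rw [wb2] at g1 g3
  rw [wb3] at g0 g4
  have hk' : (1 : ℝ) ≤ k := by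
    have : 1 ≤ k := by omega
    exact_mod_cast this
  push_cast at g0 g1 g3 g4
  set K : ℝ := (k : ℝ) + 1 with hKdef
  have hK2 : (2 : ℝ) ≤ K := by linarith
  have ek : (k : ℝ) = K - 1 := by rw [hKdef]; ring
  rw [ek] at g0 g1 g3 g4
  have hK0 : 0 < K := by linarith
  have hKK : 2 * K ≤ K * K := mul_le_mul_of_nonneg_right hK2 hK0.le
  have hKKK := mul_nonneg hK0.le (sub_nonneg.2 hKK)
  refine ⟨K, hK0, ?_, ?_, ?_, ?_, ?_⟩
  · refine le_trans ?_ g0
    have : (K / 2 ^ 1) ^ 2 / K + K = 5 / 4 * K := by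
      field_simp; ring
    rw [this]
    nlinarith
  · refine le_trans ?_ g1
    have : K / 2 ^ 1 * 1 / K + K = 1 / 2 + K := by
      field_simp
    rw [this]
    nlinarith
  · rw [g2]
    have h1 : (2 * 1 ^ 2 + K / 2 ^ 1 * K) / K + K = 2 / K + 3 / 2 * K := by
      field_simp; ring
    rw [h1]
    have h2 : 2 / K ≤ 1 := by
      rw [div_le_iff₀ hK0]; linarith
    linarith
  · refine le_trans ?_ g3
    have : 1 * K / K + K = 1 + K := by
      field_simp
    rw [this]
    nlinarith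
  · refine le_trans ?_ g4
    have : K ^ 2 / K + K = 2 * K := by
      field_simp; ring
    rw [this]
    nlinarith

/-- `J = k - 2`. -/
private theorem WB_2 {k J : ℕ} (hJ : J + 2 = k) :
    Wc (Mw k J) (Mw k (J + 1)) (Mw k (J + 2)) (Gw k J 0) (Gw k J 1)
      (Gw k J 2) (Gw k J 3) (Gw k J 4) := by
  rw [mw_down (b := 2) hJ (by omega), mw_down (b := 1) (by omega) (by omega),
    mw_up (b := 0) (by omega), wb0, wb1, wb2]
  have g0 := gw_down (k := k) (J := J) (s := 0) (b := 4) (by omega)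
  have g1 := gw_down (k := k) (J := J) (s := 1) (b := 3) (by omega)
  have g2 := gw_down (k := k) (J := J) (s := 2) (b := 2) (by omega)
  have g3 : Gw k J 3 = 2 * ((k : ℝ) + 1) := gw_mid (by omega)
  have g4 := gw_up (k := k) (J := J) (s := 4) (b := 2) (by omega)
  rw [wb2] at g2 g4
  rw [wb3] at g1
  rw [wb4] at g0
  have hk' : (2 : ℝ) ≤ k := by
    have : 2 ≤ k := by omega
    exact_mod_cast this
  push_cast at g0 g1 g2 g4
  set K : ℝ := (k : ℝ) + 1 with hKdef
  have hK3 : (3 : ℝ) ≤ K := by linarith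
  have ek : (k : ℝ) = K - 1 := by rw [hKdef]; ring
  rw [ek] at g0 g1 g2 g4 ⊢
  have hK0 : 0 < K := by linarith
  have hKK : 3 * K ≤ K * K := mul_le_mul_of_nonneg_right hK3 hK0.le
  have hKKK := mul_nonneg hK0.le (sub_nonneg.2 hKK)
  refine ⟨K, hK0, ?_, ?_, ?_, ?_, ?_⟩
  · refine le_trans ?_ g0
    have : (K * (K - 1 + 2) / 2 / 2 ^ 2) ^ 2 / K + K = K * (K + 1) ^ 2 / 64 + K := by
      field_simp; ring
    rw [this]
    have e : 1 / 2 * (4 * (K * (K - 1 + 2) * (K - 1 + 3) * (K - 1 + 4) / 24)) -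
        (K * (K + 1) ^ 2 / 64 + K) = K * (16 * K ^ 3 + 93 * K ^ 2 + 170 * K - 99) / 192 := by ring
    have e2 : 0 ≤ K * (16 * K ^ 3 + 93 * K ^ 2 + 170 * K - 99) / 192 := by
      have : 0 ≤ 16 * K ^ 3 + 93 * K ^ 2 + 170 * K - 99 := by
        have h1 : 0 ≤ 16 * K ^ 3 + 93 * K ^ 2 := by positivity
        linarith
      positivity
    linarith
  · refine le_trans ?_ g1
    have : K * (K - 1 + 2) / 2 / 2 ^ 2 * (K / 2 ^ 1) / K + K = K * (K + 1) / 16 + K := by
      field_simp; ring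
    rw [this]
    nlinarith
  · refine le_trans ?_ g2
    have : (2 * (K / 2 ^ 1) ^ 2 + K * (K - 1 + 2) / 2 / 2 ^ 2 * 1) / K + K =
        13 / 8 * K + 1 / 8 := by
      field_simp; ring
    rw [this]
    nlinarith
  · rw [g3]
    have : K / 2 ^ 1 * 1 / K + K = 1 / 2 + K := by
      field_simp
    rw [this]
    linarith
  · refine le_trans ?_ g4
    have h1 : 1 ^ 2 / K ≤ 1 := by
      rw [one_pow, div_le_iff₀ hK0]; linarith
    nlinarith

/-- The five conditions hold for all `J`. -/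
theorem WB {k J : ℕ} (hk : 1 ≤ k) (hJ : J + 2 ≤ 2 * k) :
    Wc (Mw k J) (Mw k (J + 1)) (Mw k (J + 2)) (Gw k J 0) (Gw k J 1)
      (Gw k J 2) (Gw k J 3) (Gw k J 4) := by
  rcases Nat.lt_or_ge k J with h | h
  · obtain ⟨a, rfl⟩ := Nat.exists_eq_add_of_lt h
    have := WB_up (k := k) (a := a + 1) (by omega) (by omega)
    exact this
  · rcases Nat.eq_or_lt_of_le h with h1 | h1
    · subst h1
      exact WB_0 hk
    · rcases Nat.lt_or_ge J (k - 2) with h2 | h2
      · exact WB_down (a := k - J - 3) (by omega)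
      · rcases Nat.lt_or_ge J (k - 1) with h3 | h3
        · exact WB_2 (by omega)
        · exact WB_1 (by omega)

end Pool.Agent.HHalf
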