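import Pool.Agent.HHalf.REnd
import Pool.Agent.HHalf.WPair
import Pool.Agent.HHalf.WBinB

set_option autoImplicit false

namespace Pool.Agent.HHalf

open Polynomial Set Complex ComplexConjugate

/-- The weight of the endpoint values. -/
noncomputable def Gab (α β : ℝ) (k j : ℕ) : ℝ :=
  ((k : ℝ) + 1) * (2 * α * (j.choose (k + 1) : ℝ) + 2 * β * ((2 * k + 2 - j).choose (k + 1) : ℝ))

private theorem wtwo_J {k J : ℕ} {x : ℝ} {M G : ℕ → ℝ}
    (hM : ∀ J, J ≤ 2 * k → |(hasseDeriv k (bb ℝ (2 * k) J)).eval x| ≤ 2 ^ k * M J)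
    (hJ : J + 2 ≤ 2 * k) {z z' : ℂ} (hz : ‖z‖ ≤ 1) (hz' : ‖z'‖ ≤ 1)
    (hW : Wc (M J) (M (J + 1)) (M (J + 2)) (G J) (G (J + 1)) (G (J + 2)) (G (J + 3)) (G (J + 4))) :
    2 * ‖∑ p ∈ Finset.range 3, az z z' p * (hasseDeriv k (bb ℂ (2 * k) (J + p))).eval (x : ℂ)‖ ≤
      2 ^ k * ∑ p ∈ Finset.range 3, ∑ q ∈ Finset.range 3, pz z p * pz z' q * G (J + (p + q)) := by
  have h2 : (0 : ℝ) < 2 ^ k := by positivity
  have hh : ∀ p, p ≤ 2 → |(hasseDeriv k (bb ℝ (2 * k) (J + p))).eval x / 2 ^ k| ≤ M (J + p) := by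
    intro p hp
    rw [abs_div, abs_of_pos h2, div_le_iff₀ h2, mul_comm (M (J + p))]
    exact hM (J + p) (by omega)
  have key := Wpair hz hz' (hh 0 (by norm_num)) (hh 1 (by norm_num)) (hh 2 (by norm_num)) hW
  have e1 : ∑ p ∈ Finset.range 3, az z z' p * (hasseDeriv k (bb ℂ (2 * k) (J + p))).eval (x : ℂ) =
      ((2 ^ k : ℝ) : ℂ) *
      (az z z' 0 * (((hasseDeriv k (bb ℝ (2 * k) (J + 0))).eval x / 2 ^ k : ℝ) : ℂ) +
      az z z' 1 * (((hasseDeriv k (bb ℝ (2 * k) (J + 1))).eval x / 2 ^ k : ℝ) : ℂ) +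
      az z z' 2 * (((hasseDeriv k (bb ℝ (2 * k) (J + 2))).eval x / 2 ^ k : ℝ) : ℂ)) := by
    simp only [Finset.sum_range_succ, Finset.sum_range_zero, zero_add]
    rw [hasse_bb_ofReal, hasse_bb_ofReal, hasse_bb_ofReal]
    have h3 : ((2 ^ k : ℝ) : ℂ) ≠ 0 := by exact_mod_cast h2.ne'
    rw [Complex.ofReal_div, Complex.ofReal_div, Complex.ofReal_div]
    field_simp
  rw [e1, norm_mul, Complex.norm_real, Real.norm_of_nonneg h2.le]
  have e2 : ∑ p ∈ Finset.range 3, ∑ q ∈ Finset.range 3, pz z p * pz z' q * G (J + (p + q)) =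
      pz z 0 * pz z' 0 * G J + (pz z 1 * pz z' 0 + pz z 0 * pz z' 1) * G (J + 1) +
      (pz z 2 * pz z' 0 + pz z 0 * pz z' 2 + pz z 1 * pz z' 1) * G (J + 2) +
      (pz z 2 * pz z' 1 + pz z 1 * pz z' 2) * G (J + 3) + pz z 2 * pz z' 2 * G (J + 4) := by
    simp only [Finset.sum_range_succ, Finset.sum_range_zero, zero_add, add_zero]
    ring_nf
  rw [e2]
  have := mul_le_mul_of_nonneg_left key h2.le
  linarith

/-- The inequality for two nodes of different pairs, order `k + 1 = n / 2`. -/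
private theorem wtwo_gen {k l : ℕ} (hl : l + 2 = 2 * k) {P : ℕ → ℝ} (hP : ∀ J, 0 ≤ P J) {z z' : ℂ}
    (hz : ‖z‖ ≤ 1) (hz' : ‖z'‖ ≤ 1) {x : ℝ} {M : ℕ → ℝ} {α β : ℝ}
    (hM : ∀ J, J ≤ 2 * k → |(hasseDeriv k (bb ℝ (2 * k) J)).eval x| ≤ 2 ^ k * M J)
    (hW : ∀ J, J + 2 ≤ 2 * k → Wc (M J) (M (J + 1)) (M (J + 2)) (Gab α β k J) (Gab α β k (J + 1))
      (Gab α β k (J + 2)) (Gab α β k (J + 3)) (Gab α β k (J + 4))) :
    ‖(hasseDeriv k (mix l P * ((X - C z) * (X - C z')))).eval (x : ℂ)‖ ≤ ((k : ℝ) + 1) / 2 *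
      (α * ‖(hasseDeriv (k + 1) (mix l P * ((X - C z) * (X - C (conj z))) *
          ((X - C z') * (X - C (conj z'))))).eval 1‖ +
       β * ‖(hasseDeriv (k + 1) (mix l P * ((X - C z) * (X - C (conj z))) *
          ((X - C z') * (X - C (conj z'))))).eval (-1)‖) := by
  have e1 : (hasseDeriv k (mix l P * ((X - C z) * (X - C z')))).eval (x : ℂ) =
      ∑ J ∈ Finset.range (l + 1), (P J : ℂ) *
        ∑ p ∈ Finset.range 3, az z z' p * (hasseDeriv k (bb ℂ (2 * k) (J + p))).eval (x : ℂ) := by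
    rw [mix, Finset.sum_mul, map_sum, eval_finsetSum]
    apply Finset.sum_congr rfl
    intro J hJ
    have hJ' : J ≤ l := by have := Finset.mem_range.1 hJ; omega
    rw [mul_assoc, bb_mul_az hJ', hl, C_mul', map_smul, eval_smul, smul_eq_mul]
    rw [rend_sum]
  have e2 : mix l P * ((X - C z) * (X - C (conj z))) * ((X - C z') * (X - C (conj z'))) =
      ∑ b ∈ Finset.range (l + 1) ×ˢ (Finset.range 3 ×ˢ Finset.range 3),
        C ((P b.1 * (pz z b.2.1 * pz z' b.2.2) : ℝ) : ℂ) * bb ℂ (l + 4) (b.1 + (b.2.1 + b.2.2)) := by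
    rw [mix, Finset.sum_mul, Finset.sum_mul, Finset.sum_product]
    apply Finset.sum_congr rfl
    intro J hJ
    have hJ' : J ≤ l := by have := Finset.mem_range.1 hJ; omega
    have hb : C (P J : ℂ) * bb ℂ l J * ((X - C z) * (X - C (conj z))) *
        ((X - C z') * (X - C (conj z'))) =
        C (P J : ℂ) * ((bb ℂ l J * ((X - C z) * (X - C (conj z)))) *
        ((X - C z') * (X - C (conj z')))) := by ring
    rw [hb, bb_mul_pair hJ', Finset.sum_product, Finset.sum_mul, Finset.mul_sum]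
    apply Finset.sum_congr rfl
    intro p hp
    have hp' : p ≤ 2 := by have := Finset.mem_range.1 hp; omega
    rw [mul_assoc, bb_mul_pair (by omega : J + p ≤ l + 2), Finset.mul_sum,
      Finset.mul_sum]
    apply Finset.sum_congr rfl
    intro q _
    rw [Complex.ofReal_mul, Complex.ofReal_mul, C_mul, C_mul]
    have : J + (p + q) = J + p + q := by omega
    rw [this]
    ring
  have hmem2 : ∀ b ∈ Finset.range (l + 1) ×ˢ (Finset.range 3 ×ˢ Finset.range 3),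
      b.1 + (b.2.1 + b.2.2) ≤ l + 4 := by
    intro b hb
    obtain ⟨h1, h2⟩ := Finset.mem_product.1 hb
    obtain ⟨h3, h4⟩ := Finset.mem_product.1 h2
    have := Finset.mem_range.1 h1
    have := Finset.mem_range.1 h3
    have := Finset.mem_range.1 h4
    omega
  have hnn : ∀ b ∈ Finset.range (l + 1) ×ˢ (Finset.range 3 ×ˢ Finset.range 3),
      0 ≤ P b.1 * (pz z b.2.1 * pz z' b.2.2) := fun b _ =>
    mul_nonneg (hP _) (mul_nonneg (pz_nonneg hz _) (pz_nonneg hz' _))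
  have hR1 := end_one (Finset.range (l + 1) ×ˢ (Finset.range 3 ×ˢ Finset.range 3))
    (fun b => P b.1 * (pz z b.2.1 * pz z' b.2.2)) hnn (fun b => b.1 + (b.2.1 + b.2.2))
    (n := l + 4) (m := k + 1) hmem2 (by omega)
  have hR2 := end_neg_one (Finset.range (l + 1) ×ˢ (Finset.range 3 ×ˢ Finset.range 3))
    (fun b => P b.1 * (pz z b.2.1 * pz z' b.2.2)) hnn (fun b => b.1 + (b.2.1 + b.2.2))
    (n := l + 4) (m := k + 1) hmem2 (by omega)
  rw [← e2] at hR1 hR2
  rw [hR1, hR2, e1]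
  have hk2 : l + 4 - (k + 1) = k + 1 := by omega
  rw [hk2]
  refine (norm_sum_le _ _).trans ?_
  have hrhs : ((k : ℝ) + 1) / 2 * (α * (2 ^ (k + 1) *
        ∑ b ∈ Finset.range (l + 1) ×ˢ (Finset.range 3 ×ˢ Finset.range 3),
          P b.1 * (pz z b.2.1 * pz z' b.2.2) * ((b.1 + (b.2.1 + b.2.2)).choose (k + 1) : ℝ)) +
      β * (2 ^ (k + 1) * ∑ b ∈ Finset.range (l + 1) ×ˢ (Finset.range 3 ×ˢ Finset.range 3),
          P b.1 * (pz z b.2.1 * pz z' b.2.2) *
            ((l + 4 - (b.1 + (b.2.1 + b.2.2))).choose (k + 1) : ℝ))) =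
      ∑ J ∈ Finset.range (l + 1), P J * (1 / 2 * (2 ^ k *
        ∑ p ∈ Finset.range 3, ∑ q ∈ Finset.range 3,
          pz z p * pz z' q * Gab α β k (J + (p + q)))) := by
    rw [Finset.sum_product, Finset.sum_product]
    simp only [Finset.sum_product]
    rw [Finset.mul_sum, Finset.mul_sum, Finset.mul_sum, Finset.mul_sum, ← Finset.sum_add_distrib,
      Finset.mul_sum]
    apply Finset.sum_congr rfl
    intro J _
    simp only [Finset.mul_sum, ← Finset.sum_add_distrib]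
    apply Finset.sum_congr rfl
    intro p _
    apply Finset.sum_congr rfl
    intro q _
    have h4 : l + 4 - (J + (p + q)) = 2 * k + 2 - (J + (p + q)) := by omega
    rw [h4, Gab, pow_succ]
    ring
  rw [hrhs]
  apply Finset.sum_le_sum
  intro J hJ
  have hJ' : J + 2 ≤ 2 * k := by have := Finset.mem_range.1 hJ; omega
  rw [norm_mul, Complex.norm_real, Real.norm_eq_abs, abs_of_nonneg (hP J)]
  apply mul_le_mul_of_nonneg_left _ (hP J)
  have := wtwo_J hM hJ' hz hz' (hW J hJ')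
  linarith

theorem T2w_pos {k l : ℕ} (hl : l + 2 = 2 * k) {P : ℕ → ℝ} (hP : ∀ J, 0 ≤ P J) {z z' : ℂ}
    (hz : ‖z‖ ≤ 1) (hz' : ‖z'‖ ≤ 1) {x : ℝ} (hx : x ∈ Icc (0:ℝ) 1) :
    ‖(hasseDeriv k (mix l P * ((X - C z) * (X - C z')))).eval (x : ℂ)‖ ≤ ((k : ℝ) + 1) / 2 *
      (3 / 4 * ‖(hasseDeriv (k + 1) (mix l P * ((X - C z) * (X - C (conj z))) *
          ((X - C z') * (X - C (conj z'))))).eval 1‖ +
       1 / 4 * ‖(hasseDeriv (k + 1) (mix l P * ((X - C z) * (X - C (conj z))) *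
          ((X - C z') * (X - C (conj z'))))).eval (-1)‖) := by
  refine wtwo_gen hl hP hz hz' (M := Mw k) (fun J hJ => Mw_bound hJ hx) ?_
  intro J hJ
  have hg : ∀ s, Gw k J s = Gab (3 / 4) (1 / 4) k (J + s) := by
    intro s
    unfold Gw Gab
    norm_num
  have := WB (k := k) (J := J) (by omega) hJ
  rw [hg, hg, hg, hg, hg] at this
  exact this

theorem T2w_neg {k l : ℕ} (hl : l + 2 = 2 * k) {P : ℕ → ℝ} (hP : ∀ J, 0 ≤ P J) {z z' : ℂ}
    (hz : ‖z‖ ≤ 1) (hz' : ‖z'‖ ≤ 1) {x : ℝ} (hx : x ∈ Icc (-1:ℝ) 0) :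
    ‖(hasseDeriv k (mix l P * ((X - C z) * (X - C z')))).eval (x : ℂ)‖ ≤ ((k : ℝ) + 1) / 2 *
      (1 / 4 * ‖(hasseDeriv (k + 1) (mix l P * ((X - C z) * (X - C (conj z))) *
          ((X - C z') * (X - C (conj z'))))).eval 1‖ +
       3 / 4 * ‖(hasseDeriv (k + 1) (mix l P * ((X - C z) * (X - C (conj z))) *
          ((X - C z') * (X - C (conj z'))))).eval (-1)‖) := by
  refine wtwo_gen hl hP hz hz' (M := fun J => Mw k (2 * k - J)) ?_ ?_
  · intro J hJ
    have hx' : -x ∈ Icc (0:ℝ) 1 := ⟨by linarith [hx.2], by linarith [hx.1]⟩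
    have h1 := Mw_bound (k := k) (J := 2 * k - J) (by omega) hx'
    refine le_trans (le_of_eq ?_) h1
    rcases le_total J k with h | h
    · obtain ⟨a, ha⟩ := Nat.exists_eq_add_of_le h
      have hJ' : J = k - a := by omega
      have e1 : 2 * k - (k - a) = k + a := by omega
      rw [hJ', e1, geg_refl (by omega), abs_mul, abs_pow, abs_neg, abs_one, one_pow, one_mul]
    · obtain ⟨a, ha⟩ := Nat.exists_eq_add_of_le h
      have e1 : 2 * k - (k + a) = k - a := by omega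
      rw [ha, e1, geg_refl (by omega), abs_mul, abs_pow, abs_neg, abs_one, one_pow, one_mul,
        neg_neg]
  · intro J hJ
    have h1 := Wc_symm (WB (k := k) (J := 2 * k - 2 - J) (by omega) (by omega))
    have hg : ∀ s t, s + t = 4 → Gw k (2 * k - 2 - J) s = Gab (1 / 4) (3 / 4) k (J + t) := by
      intro s t hst
      unfold Gw Gab
      have e1 : 2 * k + 2 - (2 * k - 2 - J + s) = J + t := by omega
      have e2 : 2 * k - 2 - J + s = 2 * k + 2 - (J + t) := by omega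
      rw [e1, e2]
      ring
    rw [hg 0 4 rfl, hg 1 3 rfl, hg 2 2 rfl, hg 3 1 rfl, hg 4 0 rfl] at h1
    have f0 : 2 * k - 2 - J + 2 = 2 * k - J := by omega
    have f1 : 2 * k - 2 - J + 1 = 2 * k - (J + 1) := by omega
    have f2 : 2 * k - 2 - J = 2 * k - (J + 2) := by omega
    rw [f0, f1, f2] at h1
    exact h1

end Pool.Agent.HHalf
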