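import Pool.Agent.HHalf.CIneq
import Pool.Agent.HHalf.WTwo

set_option autoImplicit false

namespace Pool.Agent.HHalf

open Polynomial Set Complex ComplexConjugate

/-- The inequality at the order `k + 1 = N = n / 2`: `omij_same`/`T1` and `omij_diff`/`T2w_pos`,
`T2w_neg`. -/
theorem Tmid {N : ℕ} {L : Fin N → ℂ} (hL : ∀ a, ‖L a‖ ≤ 1) {k : ℕ} (hkd : k + 1 = N)
    {x : ℝ} (hx : x ∈ Icc (-1:ℝ) 1) {i j : Fin N × Bool} (hij : i ≠ j) {B : ℝ}
    (h1 : ‖(hasseDeriv (k + 1) (om (zL L))).eval 1‖ ≤ B)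
    (h2 : ‖(hasseDeriv (k + 1) (om (zL L))).eval (-1)‖ ≤ B) :
    ‖(hasseDeriv k (omij (zL L) i j)).eval (x : ℂ)‖ ≤ ((k : ℝ) + 1) / 2 * B := by
  have hk0 : (0:ℝ) ≤ ((k : ℝ) + 1) / 2 := by positivity
  obtain ⟨a, b⟩ := i
  obtain ⟨a', b'⟩ := j
  by_cases haa : a = a'
  · subst haa
    have hb : b' = !b := by
      cases b <;> cases b' <;> simp_all
    subst hb
    obtain ⟨P, hP, hprod⟩ := rep_prod (Finset.univ.erase a) L hL
    have hcard : (Finset.univ.erase a).card = N - 1 := by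
      rw [Finset.card_erase_of_mem (Finset.mem_univ a), Finset.card_univ, Fintype.card_fin]
    rw [hcard] at hprod
    have hp : ∏ a' ∈ Finset.univ.erase a, pr L a' = mix (2 * (N - 1)) P := hprod
    have hom : om (zL L) = mix (2 * (N - 1)) P * ((X - C (L a)) * (X - C (conj (L a)))) := by
      rw [om_zL, ← hp, ← Finset.prod_erase_mul Finset.univ (pr L) (Finset.mem_univ a)]
      rfl
    rw [omij_same, hp]
    rw [hom] at h1 h2
    have h3 := T1 (l := 2 * (N - 1)) (k := k) (d := k + 1) hP (hL a) (by omega) (by omega)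
      (by omega) hx
    refine h3.trans ?_
    push_cast
    have h4 := mul_le_mul_of_nonneg_left (add_le_add h1 h2)
      (show (0:ℝ) ≤ ((k : ℝ) + 1) / 4 by positivity)
    linarith
  · obtain ⟨P, hP, hprod⟩ := rep_prod ((Finset.univ.erase a).erase a') L hL
    have ha' : a' ∈ Finset.univ.erase a := Finset.mem_erase.2 ⟨fun h => haa h.symm, Finset.mem_univ _⟩
    have hcard : ((Finset.univ.erase a).erase a').card = N - 2 := by
      rw [Finset.card_erase_of_mem ha', Finset.card_erase_of_mem (Finset.mem_univ a),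
        Finset.card_univ, Fintype.card_fin]
      omega
    have hN : 2 ≤ N := by
      have h1 := a.2
      have h2 := a'.2
      have h3 : (a : ℕ) ≠ a' := fun h => haa (Fin.ext h)
      omega
    rw [hcard] at hprod
    have hp : ∏ c ∈ (Finset.univ.erase a).erase a', pr L c = mix (2 * (N - 2)) P := hprod
    have hom : om (zL L) = mix (2 * (N - 2)) P *
        ((X - C (conj (zL L (a, b)))) * (X - C (conj (conj (zL L (a, b)))))) *
        ((X - C (conj (zL L (a', b')))) * (X - C (conj (conj (zL L (a', b')))))) := by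
      rw [om_zL, ← hp, ← Finset.prod_erase_mul Finset.univ (pr L) (Finset.mem_univ a),
        ← Finset.prod_erase_mul (Finset.univ.erase a) (pr L) ha', pr_eq L a b, pr_eq L a' b']
      simp only [Complex.conj_conj]
      ring
    rw [omij_diff L haa, hp]
    rw [hom] at h1 h2
    have z1 : ‖conj (zL L (a, b))‖ ≤ 1 := by rw [Complex.norm_conj]; exact norm_zL hL _
    have z2 : ‖conj (zL L (a', b'))‖ ≤ 1 := by rw [Complex.norm_conj]; exact norm_zL hL _
    rcases le_total 0 x with hx0 | hx0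
    · refine (T2w_pos (l := 2 * (N - 2)) (k := k) (by omega) hP z1 z2 ⟨hx0, hx.2⟩).trans ?_
      apply mul_le_mul_of_nonneg_left _ hk0
      linarith
    · refine (T2w_neg (l := 2 * (N - 2)) (k := k) (by omega) hP z1 z2 ⟨hx.1, hx0⟩).trans ?_
      apply mul_le_mul_of_nonneg_left _ hk0
      linarith

/-- The inequality for all orders `k + 1 ≥ n / 2` and `k + 1 = n - 1`. -/
theorem Tmax {N : ℕ} {L : Fin N → ℂ} (hL : ∀ a, ‖L a‖ ≤ 1) {k d : ℕ} (hkd : k + 1 + d = 2 * N)
    (hd1 : 1 ≤ d) (hd : 2 * d ≤ 2 * N ∨ d = 1) {x : ℝ} (hx : x ∈ Icc (-1:ℝ) 1)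
    {i j : Fin N × Bool} (hij : i ≠ j) {B : ℝ}
    (h1 : ‖(hasseDeriv (k + 1) (om (zL L))).eval 1‖ ≤ B)
    (h2 : ‖(hasseDeriv (k + 1) (om (zL L))).eval (-1)‖ ≤ B) :
    ‖(hasseDeriv k (omij (zL L) i j)).eval (x : ℂ)‖ ≤ (d : ℝ) / 2 * B := by
  by_cases h : d = N
  · have h3 := Tmid hL (k := k) (by omega) hx hij h1 h2
    have h4 : (d : ℝ) = (k : ℝ) + 1 := by
      have : d = k + 1 := by omega
      rw [this]; push_cast; ring
    rw [h4]
    exact h3
  · have h3 := Tineq hL hkd hd1 (by omega) hx hij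
    refine h3.trans ?_
    have h4 := mul_le_mul_of_nonneg_left (add_le_add h1 h2)
      (show (0:ℝ) ≤ (d : ℝ) / 4 by positivity)
    linarith

end Pool.Agent.HHalf
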