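import Pool.Agent.HHalf.VTwoB

set_option autoImplicit false

namespace Pool.Agent.HHalf

private theorem vc_step (e s : ℕ) :
    ((e + s + 1).choose e : ℝ) * ((s : ℝ) + 1) = ((e : ℝ) + s + 1) * ((e + s).choose e : ℝ) := by
  have h := Nat.choose_mul_succ_eq (e + s) e
  have h2 : e + s + 1 - e = s + 1 := by omega
  rw [h2] at h
  have h3 : (((e + s).choose e * (e + s + 1) : ℕ) : ℝ) = (((e + s + 1).choose e * (s + 1) : ℕ) : ℝ) :=
    congrArg _ h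
  push_cast at h3
  linarith

private theorem vc1 (e : ℕ) : ((e + 1).choose e : ℝ) = (e : ℝ) + 1 := by
  have h := vc_step e 0
  simp only [add_zero, Nat.choose_self, Nat.cast_zero, zero_add, Nat.cast_one, mul_one] at h
  exact h

private theorem vc2 (e : ℕ) : ((e + 2).choose e : ℝ) = ((e : ℝ) + 1) * (e + 2) / 2 := by
  have h := vc_step e 1
  rw [vc1] at h
  push_cast at h
  have h' : ((e + 1 + 1).choose e : ℝ) = ((e + 2).choose e : ℝ) := rfl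
  rw [h'] at h
  linarith

private theorem vc3 (e : ℕ) :
    ((e + 3).choose e : ℝ) = ((e : ℝ) + 1) * (e + 2) * (e + 3) / 6 := by
  have h := vc_step e 2
  rw [vc2] at h
  push_cast at h
  have h' : ((e + 2 + 1).choose e : ℝ) = ((e + 3).choose e : ℝ) := rfl
  rw [h'] at h
  linarith

private theorem vc4 (e : ℕ) :
    ((e + 4).choose e : ℝ) = ((e : ℝ) + 1) * (e + 2) * (e + 3) * (e + 4) / 24 := by
  have h := vc_step e 3
  rw [vc3] at h
  push_cast at h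
  have h' : ((e + 3 + 1).choose e : ℝ) = ((e + 4).choose e : ℝ) := rfl
  rw [h'] at h
  linarith

private theorem vc_mono (k : ℕ) {a b : ℕ} (h : a ≤ b) : (a.choose k : ℝ) ≤ (b.choose k : ℝ) := by
  exact_mod_cast Nat.choose_le_choose k h

/-- `J = d + 1`, `τ B_1 = B_0`, `d ≥ 2`, `J ≥ r + 1`, `d ≤ r + 1`. Here `B_0 = C(d+1, d-1) = d(d+1)/2`.
First inequality: `4 B_0 ≤ 2 B_0 + d C(2r+3-d, d)` since `2r + 3 - d ≥ d + 1`. Second:
`2 B_0 ≤ 3 B_1`. Third: `2 B_0 + B_2 + B_1²/B_0 ≤ 2 B_0 + (7/3) B_2 ≤ 4 B_2` (`B_sq` with `j = 1`;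
`6 B_0 ≤ 5 B_2` as `B_2 = C(d+3, 4) = d(d+1)(d+2)(d+3)/24`, `d ≥ 2`). Fourth and fifth:
`(7/3) B_2 ≤ 5 B_3`, `(14/3) B_2 ≤ 6 B_4`. -/
theorem V2j1 {r d : ℕ} (hd2 : 2 ≤ d) (hJ : r + 1 ≤ d + 1) (hd : d ≤ r + 1) :
    Vgood r d (d + 1) (((d + 1).choose (d - 1) : ℝ) / ((d + 2).choose (d - 1) : ℝ)) := by
  have m0 : Mv r d (d + 1) 0 = ((d + 1).choose (d - 1) : ℝ) := Mv_eq hJ
  have m1 : Mv r d (d + 1) 1 = ((d + 2).choose (d - 1) : ℝ) := Mv_eq hJ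
  have m2 : Mv r d (d + 1) 2 = ((d + 3).choose (d - 1) : ℝ) := Mv_eq hJ
  have g1 := gv_ge (r := r) (d := d) (J := d + 1) (s := 1) (by omega) (by omega)
  have g2 := gv_ge (r := r) (d := d) (J := d + 1) (s := 2) (by omega) (by omega)
  have g3 := gv_ge (r := r) (d := d) (J := d + 1) (s := 3) (by omega) (by omega)
  have g4 := gv_ge (r := r) (d := d) (J := d + 1) (s := 4) (by omega) (by omega)
  have hsq := B_sq (d := d) (J := d + 1) (by omega) (by omega)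
  have g0 : ((d : ℝ)) * (2 * (d + 1)) ≤ d * gv r d (d + 1) 0 := by
    refine mul_le_mul_of_nonneg_left ?_ (Nat.cast_nonneg d)
    have e1 : ((d + 1).choose d : ℝ) = (d : ℝ) + 1 := vc1 d
    have e2 : ((d + 1).choose d : ℝ) ≤ ((2 * r + 4 - (d + 1 + 0)).choose d : ℝ) :=
      vc_mono d (by omega)
    unfold gv
    rw [add_zero] at e2 ⊢
    linarith
  obtain ⟨e, rfl⟩ : ∃ e, d = e + 1 := ⟨d - 1, by omega⟩
  have he : (1 : ℝ) ≤ e := by
    have : 1 ≤ e := by omega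
    exact_mod_cast this
  rw [Nat.add_sub_cancel] at *
  have b0 : ((e + 1 + 1).choose e : ℝ) = ((e : ℝ) + 1) * (e + 2) / 2 := vc2 e
  have b1 : ((e + 1 + 2).choose e : ℝ) = ((e : ℝ) + 1) * (e + 2) * (e + 3) / 6 := vc3 e
  have b2 : ((e + 1 + 3).choose e : ℝ) = ((e : ℝ) + 1) * (e + 2) * (e + 3) * (e + 4) / 24 := vc4 e
  have b23 : ((e + 1 + 3).choose e : ℝ) ≤ ((e + 1 + 1 + 3).choose e : ℝ) := vc_mono e (by omega)
  have b24 : ((e + 1 + 3).choose e : ℝ) ≤ ((e + 1 + 1 + 4).choose e : ℝ) := vc_mono e (by omega)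
  have q1 : ((e + 1 + 1 + 1).choose e : ℝ) = ((e + 1 + 2).choose e : ℝ) := rfl
  have q2 : ((e + 1 + 1 + 2).choose e : ℝ) = ((e + 1 + 3).choose e : ℝ) := rfl
  rw [q1] at g1 hsq
  rw [q2] at g2 hsq
  set B0 : ℝ := ((e + 1 + 1).choose e : ℝ) with hB0
  set B1 : ℝ := ((e + 1 + 2).choose e : ℝ) with hB1
  set B2 : ℝ := ((e + 1 + 3).choose e : ℝ) with hB2
  set B3 : ℝ := ((e + 1 + 1 + 3).choose e : ℝ) with hB3
  set B4 : ℝ := ((e + 1 + 1 + 4).choose e : ℝ) with hB4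
  have hpos0 : 0 < B0 := by rw [b0]; positivity
  have hpos1 : 0 < B1 := by rw [b1]; positivity
  have hpos2 : 0 < B2 := by rw [b2]; positivity
  have g1' : 3 * B1 ≤ ((e + 1 : ℕ) : ℝ) * gv r (e + 1) (e + 1 + 1) 1 := by
    refine le_trans (le_of_eq ?_) g1
    push_cast; ring
  have g2' : 4 * B2 ≤ ((e + 1 : ℕ) : ℝ) * gv r (e + 1) (e + 1 + 1) 2 := by
    refine le_trans (le_of_eq ?_) g2
    push_cast; ring
  have g3' : 5 * B3 ≤ ((e + 1 : ℕ) : ℝ) * gv r (e + 1) (e + 1 + 1) 3 := by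
    refine le_trans (le_of_eq ?_) g3
    push_cast; ring
  have g4' : 6 * B4 ≤ ((e + 1 : ℕ) : ℝ) * gv r (e + 1) (e + 1 + 1) 4 := by
    refine le_trans (le_of_eq ?_) g4
    push_cast; ring
  have hsq' : 3 * B1 ^ 2 ≤ 4 * (B0 * B2) := by
    have e1 : 3 * B1 ^ 2 = (((e + 1 + 1 : ℕ) : ℝ) - ((e + 1 : ℕ) : ℝ) + 2) * B1 ^ 2 := by
      push_cast; ring
    have e2 : 4 * (B0 * B2) = (((e + 1 + 1 : ℕ) : ℝ) - ((e + 1 : ℕ) : ℝ) + 3) * B0 * B2 := by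
      push_cast; ring
    rw [e1, e2]
    exact hsq
  -- `τ M_1 = B_0`, `M_1 / τ = B_1² / B_0`
  have t1 : B0 / B1 * B1 = B0 := div_mul_cancel₀ _ hpos1.ne'
  have t2 : B1 / (B0 / B1) = B1 ^ 2 / B0 := by
    field_simp
  have t3 : B1 ^ 2 / B0 ≤ 4 / 3 * B2 := by
    rw [div_le_iff₀ hpos0]
    linarith
  have r01 : 3 * B1 = (e + 3) * B0 := by rw [b0, b1]; ring
  have r12 : 4 * B2 = (e + 4) * B1 := by rw [b1, b2]; ring
  have k1 : 4 * B0 ≤ 3 * B1 := by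
    rw [r01]
    exact mul_le_mul_of_nonneg_right (by linarith) hpos0.le
  have k2 : 5 * B1 ≤ 4 * B2 := by
    rw [r12]
    exact mul_le_mul_of_nonneg_right (by linarith) hpos1.le
  unfold Vgood
  rw [m0, m1, m2, t1, t2]
  refine ⟨div_pos hpos0 hpos1, ?_, ?_, ?_, ?_, ?_⟩
  · have : 2 * (B0 + B0) = (((e + 1 : ℕ) : ℝ)) * (2 * (((e + 1 : ℕ) : ℝ) + 1)) := by
      rw [b0]; push_cast; ring
    rw [this]
    exact g0
  · linarith
  · linarith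
  · linarith
  · linarith

/-- `J = d`, `r + 1 = d`, `τ = 1` (`t = B_1`). `B_0 = d`, `B_1 = d(d+1)/2`, `B_2 = d(d+1)(d+2)/6`; extras:
`d C(d+2, d) = d(d+1)(d+2)/2`, `d C(d+1, d) = d(d+1)`, `d C(d, d) = d`. The five inequalities:
`2(d + B_1) ≤ d + d(d+1)(d+2)/2`; `d + B_1 ≤ 2 B_1 + d(d+1)`; `d + 2 B_1 + B_2 ≤ 3 B_2 + d`;
`B_2 + B_1 ≤ 4 B_3`; `2 (B_2 + B_1) ≤ 5 B_4`. -/
theorem V2j0 {r d : ℕ} (hd2 : 2 ≤ d) (hr : r + 1 = d) : Vgood r d d 1 := by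
  have m0 : Mv r d d 0 = (d.choose (d - 1) : ℝ) := Mv_eq (by omega)
  have m1 : Mv r d d 1 = ((d + 1).choose (d - 1) : ℝ) := Mv_eq (by omega)
  have m2 : Mv r d d 2 = ((d + 2).choose (d - 1) : ℝ) := Mv_eq (by omega)
  obtain ⟨f, rfl⟩ : ∃ f, d = f + 2 := ⟨d - 2, by omega⟩
  obtain rfl : r = f + 1 := by omega
  have hf : (0 : ℝ) ≤ f := Nat.cast_nonneg f
  have b0 : ((f + 2).choose (f + 2 - 1) : ℝ) = (f : ℝ) + 2 := by
    have := vc1 (f + 1)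
    push_cast at this
    have h' : ((f + 2).choose (f + 2 - 1) : ℝ) = ((f + 1 + 1).choose (f + 1) : ℝ) := rfl
    rw [h', this]; ring
  have b1 : ((f + 2 + 1).choose (f + 2 - 1) : ℝ) = ((f : ℝ) + 2) * (f + 3) / 2 := by
    have := vc2 (f + 1)
    push_cast at this
    have h' : ((f + 2 + 1).choose (f + 2 - 1) : ℝ) = ((f + 1 + 2).choose (f + 1) : ℝ) := rfl
    rw [h', this]; ring
  have b2 : ((f + 2 + 2).choose (f + 2 - 1) : ℝ) = ((f : ℝ) + 2) * (f + 3) * (f + 4) / 6 := by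
    have := vc3 (f + 1)
    push_cast at this
    have h' : ((f + 2 + 2).choose (f + 2 - 1) : ℝ) = ((f + 1 + 3).choose (f + 1) : ℝ) := rfl
    rw [h', this]; ring
  have c0 : ((f + 2).choose (f + 2) : ℝ) = 1 := by simp
  have c1 : ((f + 2 + 1).choose (f + 2) : ℝ) = (f : ℝ) + 3 := by
    rw [vc1]; push_cast; ring
  have c2 : ((f + 2 + 2).choose (f + 2) : ℝ) = ((f : ℝ) + 3) * (f + 4) / 2 := by
    rw [vc2]; push_cast; ring
  have c3 : ((f + 2 + 3).choose (f + 2) : ℝ) = ((f : ℝ) + 3) * (f + 4) * (f + 5) / 6 := by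
    rw [vc3]; push_cast; ring
  have c4 : ((f + 2 + 4).choose (f + 2) : ℝ) = ((f : ℝ) + 3) * (f + 4) * (f + 5) * (f + 6) / 24 := by
    rw [vc4]; push_cast; ring
  have g0 : gv (f + 1) (f + 2) (f + 2) 0 = 1 + ((f : ℝ) + 3) * (f + 4) / 2 := by
    unfold gv
    have h' : 2 * (f + 1) + 4 - (f + 2 + 0) = f + 2 + 2 := by omega
    rw [h', add_zero, c0, c2]
  have g1 : gv (f + 1) (f + 2) (f + 2) 1 = 2 * ((f : ℝ) + 3) := by
    unfold gv
    have h' : 2 * (f + 1) + 4 - (f + 2 + 1) = f + 2 + 1 := by omega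
    rw [h', c1]; ring
  have g2 : gv (f + 1) (f + 2) (f + 2) 2 = ((f : ℝ) + 3) * (f + 4) / 2 + 1 := by
    unfold gv
    have h' : 2 * (f + 1) + 4 - (f + 2 + 2) = f + 2 := by omega
    rw [h', c0, c2]
  have g3 : ((f : ℝ) + 3) * (f + 4) * (f + 5) / 6 ≤ gv (f + 1) (f + 2) (f + 2) 3 := by
    unfold gv
    rw [c3]
    exact le_add_of_nonneg_right (Nat.cast_nonneg _)
  have g4 : ((f : ℝ) + 3) * (f + 4) * (f + 5) * (f + 6) / 24 ≤ gv (f + 1) (f + 2) (f + 2) 4 := by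
    unfold gv
    rw [c4]
    exact le_add_of_nonneg_right (Nat.cast_nonneg _)
  unfold Vgood
  rw [m0, m1, m2, b0, b1, b2, g0, g1, g2, one_mul, div_one]
  push_cast
  have hf2 : (0 : ℝ) ≤ (f : ℝ) + 2 := by linarith
  refine ⟨one_pos, ?_, ?_, ?_, ?_, ?_⟩
  · rw [← sub_nonneg]
    have : (f + 2) * (1 + ((f : ℝ) + 3) * (f + 4) / 2) -
        2 * ((f : ℝ) + 2 + (f + 2) * (f + 3) / 2) = (f + 2) * (f ^ 2 / 2 + 5 / 2 * f + 2) := by ring
    rw [this]; positivity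
  · rw [← sub_nonneg]
    have : (f + 2) * (2 * ((f : ℝ) + 3)) - ((f : ℝ) + 2 + (f + 2) * (f + 3) / 2) =
        (f + 2) * (3 / 2 * f + 7 / 2) := by ring
    rw [this]; positivity
  · rw [← sub_nonneg]
    have : (f + 2) * (((f : ℝ) + 3) * (f + 4) / 2 + 1) - ((f : ℝ) + 2 + (f + 2) * (f + 3) / 2 +
        ((f + 2) * (f + 3) * (f + 4) / 6 + (f + 2) * (f + 3) / 2)) =
        (f + 2) * (f + 3) * (f + 1) / 3 := by ring
    rw [this]; positivity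
  · refine le_trans ?_ (mul_le_mul_of_nonneg_left g3 hf2)
    rw [← sub_nonneg]
    have : (f + 2) * (((f : ℝ) + 3) * (f + 4) * (f + 5) / 6) -
        (((f : ℝ) + 2) * (f + 3) * (f + 4) / 6 + (f + 2) * (f + 3) / 2) =
        (f + 2) * (f + 3) * (f ^ 2 + 8 * f + 13) / 6 := by ring
    rw [this]; positivity
  · refine le_trans ?_ (mul_le_mul_of_nonneg_left g4 hf2)
    rw [← sub_nonneg]
    have : (f + 2) * (((f : ℝ) + 3) * (f + 4) * (f + 5) * (f + 6) / 24) -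
        2 * (((f : ℝ) + 2) * (f + 3) * (f + 4) / 6 + (f + 2) * (f + 3) / 2) =
        (f + 2) * (f + 3) * (f ^ 3 + 15 * f ^ 2 + 66 * f + 64) / 24 := by ring
    rw [this]; positivity

end Pool.Agent.HHalf
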