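import Pool.Agent.HHalf.VTwoA
import Pool.Agent.HHalf.VTwoC

set_option autoImplicit false

namespace Pool.Agent.HHalf

/-- For `J ≥ r + 1`, `d ≥ 2`: `J = d` (then `r + 1 = d`), `J = d + 1` or `J ≥ d + 2`. -/
theorem V2upper {r d J : ℕ} (hd1 : 1 ≤ d) (hd : d ≤ r + 1) (hJ : r + 1 ≤ J) (hJ2 : J ≤ 2 * r) :
    ∃ τ : ℝ, Vgood r d J τ := by
  rcases Nat.lt_or_ge d 2 with h | h
  · obtain rfl : d = 1 := by omega
    exact ⟨1, V2one hJ2⟩
  · rcases Nat.lt_or_ge J (d + 2) with h2 | h2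
    · rcases Nat.lt_or_ge J (d + 1) with h3 | h3
      · obtain rfl : J = d := by omega
        exact ⟨1, V2j0 h (by omega)⟩
      · obtain rfl : J = d + 1 := by omega
        exact ⟨_, V2j1 h (by omega) hd⟩
    · exact ⟨_, V2large hd1 hJ h2⟩

theorem V2 {r d J : ℕ} (hd1 : 1 ≤ d) (hd : d ≤ r + 1) (hJ2 : J ≤ 2 * r) :
    ∃ τ : ℝ, Vgood r d J τ := by
  rcases lt_trichotomy J r with h | h | h
  · obtain ⟨τ, hτ⟩ := V2upper (J := 2 * r - J) hd1 hd (by omega) (by omega)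
    exact ⟨τ⁻¹, V2refl hJ2 hτ⟩
  · subst h
    exact ⟨1, V2mid hd1 hd⟩
  · exact V2upper hd1 hd h hJ2

end Pool.Agent.HHalf
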