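import Pool.Agent.HHalf.REnd
import Pool.Agent.HHalf.VPair
import Pool.Agent.HHalf.VTwo

set_option autoImplicit false

namespace Pool.Agent.HHalf

open Polynomial Set Complex ComplexConjugate

/-- The inequality for two nodes of different pairs (order `k + 1`, `n = l + 4`, `l = 2r`,
`d = n - (k+1)`). `mix l P · pair(z) · pair(z') = ∑ P_J π_p π'_q bb (l+4) (J+p+q)` (`bb_mul_pair` twice),
so `E₊ + E₋ = 2^d ∑ P_J π_p π'_q g_{p+q}`; `mix l P (X-z)(X-z') = ∑ P_J a_p bb (l+2) (J+p)`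
(`bb_mul_az`), so by `mid_bound` (degree `l + 2 ≤ 2k`, `l + 2 - k = d - 1`)
`|H_k| ≤ 2^(d-1) ∑_J P_J ∑_p |a_p| M_p`; `V2` and `V2pair` for every `J ≤ l`. -/
theorem T2 {l r k d : ℕ} (hl : l = 2 * r) {P : ℕ → ℝ} (hP : ∀ J, 0 ≤ P J) {z z' : ℂ}
    (hz : ‖z‖ ≤ 1) (hz' : ‖z'‖ ≤ 1) (hkd : k + 1 + d = l + 4) (hd1 : 1 ≤ d) (hd : d ≤ r + 1)
    {x : ℝ} (hx : x ∈ Icc (-1:ℝ) 1) :
    ‖(hasseDeriv k (mix l P * ((X - C z) * (X - C z')))).eval (x : ℂ)‖ ≤ d / 4 *
      (‖(hasseDeriv (k + 1) (mix l P * ((X - C z) * (X - C (conj z))) *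
          ((X - C z') * (X - C (conj z'))))).eval 1‖ +
       ‖(hasseDeriv (k + 1) (mix l P * ((X - C z) * (X - C (conj z))) *
          ((X - C z') * (X - C (conj z'))))).eval (-1)‖) := by
  -- expansions
  have e1 : mix l P * ((X - C z) * (X - C z')) =
      ∑ b ∈ Finset.range (l + 1) ×ˢ Finset.range 3,
        C ((P b.1 : ℂ) * az z z' b.2) * bb ℂ (l + 2) (b.1 + b.2) := by
    rw [mix, Finset.sum_mul, Finset.sum_product]
    apply Finset.sum_congr rfl
    intro J hJ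
    have hJ' : J ≤ l := by have := Finset.mem_range.1 hJ; omega
    rw [mul_assoc, bb_mul_az hJ', Finset.mul_sum]
    apply Finset.sum_congr rfl
    intro p _
    rw [C_mul]
    ring
  have e2 : mix l P * ((X - C z) * (X - C (conj z))) * ((X - C z') * (X - C (conj z'))) =
      ∑ b ∈ Finset.range (l + 1) ×ˢ (Finset.range 3 ×ˢ Finset.range 3),
        C ((P b.1 * (pz z b.2.1 * pz z' b.2.2) : ℝ) : ℂ) * bb ℂ (l + 4) (b.1 + (b.2.1 + b.2.2)) := by
    rw [mix, Finset.sum_mul, Finset.sum_mul, Finset.sum_product]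
    apply Finset.sum_congr rfl
    intro J hJ
    have hJ' : J ≤ l := by have := Finset.mem_range.1 hJ; omega
    have hb : C (P J : ℂ) * bb ℂ l J * ((X - C z) * (X - C (conj z))) *
        ((X - C z') * (X - C (conj z'))) =
        C (P J : ℂ) * ((bb ℂ l J * ((X - C z) * (X - C (conj z)))) *
        ((X - C z') * (X - C (conj z')))) := by ring
    rw [hb, bb_mul_pair hJ', Finset.sum_product, Finset.sum_mul, Finset.mul_sum]
    apply Finset.sum_congr rfl
    intro p hp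
    have hp' : p ≤ 2 := by have := Finset.mem_range.1 hp; omega
    rw [mul_assoc, bb_mul_pair (by omega : J + p ≤ l + 2), Finset.mul_sum,
      Finset.mul_sum]
    apply Finset.sum_congr rfl
    intro q _
    rw [Complex.ofReal_mul, Complex.ofReal_mul, C_mul, C_mul]
    have : J + (p + q) = J + p + q := by omega
    rw [this]
    ring
  have hmem1 : ∀ b ∈ Finset.range (l + 1) ×ˢ Finset.range 3, b.1 + b.2 ≤ l + 2 := by
    intro b hb
    obtain ⟨h1, h2⟩ := Finset.mem_product.1 hb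
    have := Finset.mem_range.1 h1
    have := Finset.mem_range.1 h2
    omega
  have hmem2 : ∀ b ∈ Finset.range (l + 1) ×ˢ (Finset.range 3 ×ˢ Finset.range 3),
      b.1 + (b.2.1 + b.2.2) ≤ l + 4 := by
    intro b hb
    obtain ⟨h1, h2⟩ := Finset.mem_product.1 hb
    obtain ⟨h3, h4⟩ := Finset.mem_product.1 h2
    have := Finset.mem_range.1 h1
    have := Finset.mem_range.1 h3
    have := Finset.mem_range.1 h4
    omega
  have hnn : ∀ b ∈ Finset.range (l + 1) ×ˢ (Finset.range 3 ×ˢ Finset.range 3),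
      0 ≤ P b.1 * (pz z b.2.1 * pz z' b.2.2) := fun b _ =>
    mul_nonneg (hP _) (mul_nonneg (pz_nonneg hz _) (pz_nonneg hz' _))
  have hL := mid_bound (Finset.range (l + 1) ×ˢ Finset.range 3)
    (fun b => (P b.1 : ℂ) * az z z' b.2) (fun b => b.1 + b.2) (n := l + 2) (m := k) hmem1
    (by omega) (by omega) hx
  have hR1 := end_one (Finset.range (l + 1) ×ˢ (Finset.range 3 ×ˢ Finset.range 3))
    (fun b => P b.1 * (pz z b.2.1 * pz z' b.2.2)) hnn (fun b => b.1 + (b.2.1 + b.2.2))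
    (n := l + 4) (m := k + 1) hmem2 (by omega)
  have hR2 := end_neg_one (Finset.range (l + 1) ×ˢ (Finset.range 3 ×ˢ Finset.range 3))
    (fun b => P b.1 * (pz z b.2.1 * pz z' b.2.2)) hnn (fun b => b.1 + (b.2.1 + b.2.2))
    (n := l + 4) (m := k + 1) hmem2 (by omega)
  rw [← e1] at hL
  rw [← e2] at hR1 hR2
  rw [hR1, hR2]
  refine hL.trans ?_
  have hk1 : l + 2 - k = d - 1 := by omega
  have hk2 : l + 4 - (k + 1) = d := by omega
  rw [hk1, hk2, ← mul_add, ← Finset.sum_add_distrib]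
  have hpow : (2:ℝ) ^ d = 2 * 2 ^ (d - 1) := by
    conv_lhs => rw [← Nat.sub_add_cancel hd1]
    rw [pow_succ]; ring
  rw [hpow]
  have hpos : (0:ℝ) < 2 ^ (d - 1) := by positivity
  have hmain : ∑ b ∈ Finset.range (l + 1) ×ˢ Finset.range 3, ‖(P b.1 : ℂ) * az z z' b.2‖ *
        max ((b.1 + b.2).choose (d - 1) : ℝ) ((l + 2 - (b.1 + b.2)).choose (d - 1) : ℝ) ≤
      d / 2 * ∑ b ∈ Finset.range (l + 1) ×ˢ (Finset.range 3 ×ˢ Finset.range 3),
        (P b.1 * (pz z b.2.1 * pz z' b.2.2) * ((b.1 + (b.2.1 + b.2.2)).choose d : ℝ) +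
        P b.1 * (pz z b.2.1 * pz z' b.2.2) *
          ((l + 4 - (b.1 + (b.2.1 + b.2.2))).choose d : ℝ)) := by
    rw [Finset.sum_product, Finset.sum_product, Finset.mul_sum]
    apply Finset.sum_le_sum
    intro J hJ
    have hJ' : J ≤ 2 * r := by have := Finset.mem_range.1 hJ; omega
    obtain ⟨τ, hτ⟩ := V2 hd1 hd hJ'
    have h1 := V2pair hτ hz hz'
    have h2 := mul_le_mul_of_nonneg_left h1 (hP J)
    have h3 : ∑ p ∈ Finset.range 3, ‖(P J : ℂ) * az z z' p‖ *
        max ((J + p).choose (d - 1) : ℝ) ((l + 2 - (J + p)).choose (d - 1) : ℝ) =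
        P J * ∑ p ∈ Finset.range 3, ‖az z z' p‖ * Mv r d J p := by
      rw [Finset.mul_sum]
      apply Finset.sum_congr rfl
      intro p _
      rw [norm_mul, Complex.norm_real, Real.norm_eq_abs, abs_of_nonneg (hP J), Mv, hl]
      ring
    have h4 : d / 2 * ∑ b ∈ Finset.range 3 ×ˢ Finset.range 3,
        (P J * (pz z b.1 * pz z' b.2) * ((J + (b.1 + b.2)).choose d : ℝ) +
        P J * (pz z b.1 * pz z' b.2) * ((l + 4 - (J + (b.1 + b.2))).choose d : ℝ)) =
        P J * (d / 2 * ∑ p ∈ Finset.range 3, ∑ q ∈ Finset.range 3,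
          pz z p * pz z' q * gv r d J (p + q)) := by
      rw [Finset.sum_product, Finset.mul_sum, Finset.mul_sum, Finset.mul_sum]
      apply Finset.sum_congr rfl
      intro p _
      rw [Finset.mul_sum, Finset.mul_sum, Finset.mul_sum]
      apply Finset.sum_congr rfl
      intro q _
      rw [gv, hl]
      ring
    rw [h3, h4]
    exact h2
  calc (2:ℝ) ^ (d - 1) * ∑ b ∈ Finset.range (l + 1) ×ˢ Finset.range 3, ‖(P b.1 : ℂ) * az z z' b.2‖ *
        max ((b.1 + b.2).choose (d - 1) : ℝ) ((l + 2 - (b.1 + b.2)).choose (d - 1) : ℝ)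
      ≤ 2 ^ (d - 1) * (d / 2 * ∑ b ∈ Finset.range (l + 1) ×ˢ (Finset.range 3 ×ˢ Finset.range 3),
        (P b.1 * (pz z b.2.1 * pz z' b.2.2) * ((b.1 + (b.2.1 + b.2.2)).choose d : ℝ) +
        P b.1 * (pz z b.2.1 * pz z' b.2.2) *
          ((l + 4 - (b.1 + (b.2.1 + b.2.2))).choose d : ℝ))) :=
        mul_le_mul_of_nonneg_left hmain hpos.le
    _ = _ := by ring

end Pool.Agent.HHalf
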