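import Pool.Agent.HHalf.CNodes
import Pool.Agent.HHalf.TOne
import Pool.Agent.HHalf.TTwo

set_option autoImplicit false

namespace Pool.Agent.HHalf

open Polynomial Set Complex ComplexConjugate

/-- The inequality (T): for all `i ≠ j`, from `omij_same`/`T1` (`om = (∏_{erase} pr) · pr a`,
`rep_prod`) and `omij_diff`/`T2`. -/
theorem Tineq {N : ℕ} {L : Fin N → ℂ} (hL : ∀ a, ‖L a‖ ≤ 1) {k d : ℕ} (hkd : k + 1 + d = 2 * N)
    (hd1 : 1 ≤ d) (hd : 2 * d + 2 ≤ 2 * N ∨ d = 1) {x : ℝ} (hx : x ∈ Icc (-1:ℝ) 1)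
    {i j : Fin N × Bool} (hij : i ≠ j) :
    ‖(hasseDeriv k (omij (zL L) i j)).eval (x : ℂ)‖ ≤ d / 4 *
      (‖(hasseDeriv (k + 1) (om (zL L))).eval 1‖ + ‖(hasseDeriv (k + 1) (om (zL L))).eval (-1)‖) := by
  obtain ⟨a, b⟩ := i
  obtain ⟨a', b'⟩ := j
  by_cases haa : a = a'
  · subst haa
    have hb : b' = !b := by
      cases b <;> cases b' <;> simp_all
    subst hb
    obtain ⟨P, hP, hprod⟩ := rep_prod (Finset.univ.erase a) L hL
    have hcard : (Finset.univ.erase a).card = N - 1 := by
      rw [Finset.card_erase_of_mem (Finset.mem_univ a), Finset.card_univ, Fintype.card_fin]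
    rw [hcard] at hprod
    have h1 : ∏ a' ∈ Finset.univ.erase a, pr L a' = mix (2 * (N - 1)) P := hprod
    have hom : om (zL L) = mix (2 * (N - 1)) P * ((X - C (L a)) * (X - C (conj (L a)))) := by
      rw [om_zL, ← h1, ← Finset.prod_erase_mul Finset.univ (pr L) (Finset.mem_univ a)]
      rfl
    have hN : 1 ≤ N := by have := a.2; omega
    rw [omij_same, h1, hom]
    exact T1 hP (hL a) (by omega) hd1 (by omega) hx
  · obtain ⟨P, hP, hprod⟩ := rep_prod ((Finset.univ.erase a).erase a') L hL
    have ha' : a' ∈ Finset.univ.erase a := Finset.mem_erase.2 ⟨fun h => haa h.symm, Finset.mem_univ _⟩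
    have hcard : ((Finset.univ.erase a).erase a').card = N - 2 := by
      rw [Finset.card_erase_of_mem ha', Finset.card_erase_of_mem (Finset.mem_univ a),
        Finset.card_univ, Fintype.card_fin]
      omega
    have hN : 2 ≤ N := by
      have h1 := a.2
      have h2 := a'.2
      have h3 : (a : ℕ) ≠ a' := fun h => haa (Fin.ext h)
      omega
    rw [hcard] at hprod
    have h1 : ∏ c ∈ (Finset.univ.erase a).erase a', pr L c = mix (2 * (N - 2)) P := hprod
    have hom : om (zL L) = mix (2 * (N - 2)) P *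
        ((X - C (conj (zL L (a, b)))) * (X - C (conj (conj (zL L (a, b)))))) *
        ((X - C (conj (zL L (a', b')))) * (X - C (conj (conj (zL L (a', b')))))) := by
      rw [om_zL, ← h1, ← Finset.prod_erase_mul Finset.univ (pr L) (Finset.mem_univ a),
        ← Finset.prod_erase_mul (Finset.univ.erase a) (pr L) ha', pr_eq L a b, pr_eq L a' b']
      simp only [Complex.conj_conj]
      ring
    rw [omij_diff L haa, h1, hom]
    exact T2 (r := N - 2) rfl hP (by rw [Complex.norm_conj]; exact norm_zL hL _)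
      (by rw [Complex.norm_conj]; exact norm_zL hL _) (by omega) hd1 (by omega) hx

end Pool.Agent.HHalf
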