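import Pool.Agent.HHalf.AThm
import Pool.Agent.HHalf.CIneq
import Pool.Agent.ConjInterp.TopOrder

set_option autoImplicit false

namespace Pool.Agent.HHalf

open Complex Set Metric ComplexConjugate Polynomial MeasureTheory Pool.Agent.ConjInterp

theorem iter_hasse (k : ℕ) (p : ℂ[X]) (y : ℂ) :
    iteratedDeriv k (fun w => p.eval w) y = (k.factorial : ℂ) * (hasseDeriv k p).eval y := by
  rw [iter_poly, ← Polynomial.factorial_smul_hasseDeriv]
  simp

/-- The pointwise bound for the node list `L, conj L`: `thmA` for `zL L ∘ e`, `e : Fin (2N) ≃ Fin N × Bool`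
(`om_comp`, `omij_comp`, `diff_cc`), `Tineq`, `B` the maximum of the three values
`|H_k ω(y)|`, `y = x, 1, -1`. -/
theorem pointwise {N : ℕ} {L : Fin N → ℂ} (hL : ∀ a, ‖L a‖ ≤ 1) {k : ℕ} (hN : 1 ≤ N) (hk : k < 2 * N)
    (hkn : 2 * N < 2 * k ∨ k = 2 * N - 1) {h : ℂ → ℂ} (hh : Differentiable ℂ h)
    (hb : ∀ w, ‖w‖ ≤ 1 → ‖iteratedDeriv (2 * N) (fun w => (om (zL L)).eval w * h w) w‖ ≤ 1)
    {x : ℝ} (hx : x ∈ Icc (-1:ℝ) 1) :
    ∃ y ∈ Icc (-1:ℝ) 1, ‖iteratedDeriv k (fun w => (om (zL L)).eval w * h w) (x:ℂ)‖ ≤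
      (1 / ((2 * N).factorial : ℝ)) * ‖iteratedDeriv k (fun w => (om (zL L)).eval w) (y:ℂ)‖ := by
  obtain ⟨k', rfl⟩ : ∃ k', k = k' + 1 := ⟨k - 1, by omega⟩
  obtain ⟨d, hd⟩ : ∃ d, k' + 1 + d = 2 * N := ⟨2 * N - (k' + 1), by omega⟩
  obtain ⟨n, hn⟩ : ∃ n, 2 * N = n + 1 := ⟨2 * N - 1, by omega⟩
  have hd1 : 1 ≤ d := by omega
  have hdd : 2 * d + 2 ≤ 2 * N ∨ d = 1 := by omega
  -- the three values
  set V : ℝ → ℝ := fun y => ‖(hasseDeriv (k' + 1) (om (zL L))).eval (y:ℂ)‖ with hV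
  obtain ⟨y, hy, hyx, hy1, hym⟩ : ∃ y ∈ Icc (-1:ℝ) 1, V x ≤ V y ∧ V 1 ≤ V y ∧ V (-1) ≤ V y := by
    have h1 : (1:ℝ) ∈ Icc (-1:ℝ) 1 := ⟨by norm_num, by norm_num⟩
    have hm : (-1:ℝ) ∈ Icc (-1:ℝ) 1 := ⟨by norm_num, by norm_num⟩
    rcases le_total (V 1) (V (-1)) with ha | ha
    · rcases le_total (V x) (V (-1)) with hb' | hb'
      · exact ⟨-1, hm, hb', ha, le_rfl⟩
      · exact ⟨x, hx, le_rfl, ha.trans hb', hb'⟩
    · rcases le_total (V x) (V 1) with hb' | hb'
      · exact ⟨1, h1, hb', le_rfl, ha⟩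
      · exact ⟨x, hx, le_rfl, hb', ha.trans hb'⟩
  refine ⟨y, hy, ?_⟩
  -- the reindexed nodes
  have hcard : Fintype.card (Fin (n + 1)) = Fintype.card (Fin N × Bool) := by
    simp only [Fintype.card_fin, Fintype.card_prod, Fintype.card_bool]
    omega
  let e : Fin (n + 1) ≃ Fin N × Bool := Fintype.equivOfCardEq hcard
  have hz : ∀ i, ‖(zL L ∘ e) i‖ ≤ 1 := fun i => norm_zL hL (e i)
  have hprod : ∀ w : ℂ, ∏ i, (w - (zL L ∘ e) i) = (om (zL L)).eval w := by
    intro w
    rw [← om_comp e (zL L), om, Polynomial.eval_prod]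
    simp
  have hfun : (fun w : ℂ => (om (zL L)).eval w * h w) =
      fun w => (∏ i, (w - (zL L ∘ e) i)) * h w := by
    funext w; rw [hprod]
  rw [hfun]
  rw [hfun, hn] at hb
  have hx1 : ‖(x:ℂ)‖ ≤ 1 := by
    rw [Complex.norm_real, Real.norm_eq_abs]
    exact abs_le.2 ⟨hx.1, hx.2⟩
  have hkey := thmA (z := zL L ∘ e) (k := k' + 1) (d := d) hz (by omega) hd1 hx1 hh hb
    (B := V y) (norm_nonneg _) (by rw [om_comp]; exact hyx) (by
      intro i j
      by_cases hij : i = j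
      · subst hij; simp
      · rw [diff_cc _ _ _ hij, norm_mul, omij_comp, norm_sub_rev, mul_comm]
        apply mul_le_mul_of_nonneg_right _ (norm_nonneg _)
        have hT := Tineq hL hd hd1 hdd hx (i := e i) (j := e j) (fun h => hij (e.injective h))
        have h1 : ‖(hasseDeriv (k' + 1) (om (zL L))).eval 1‖ ≤ V y := by
          have := hy1
          simp only [hV] at this ⊢
          simpa using this
        have h2 : ‖(hasseDeriv (k' + 1) (om (zL L))).eval (-1)‖ ≤ V y := by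
          have := hym
          simp only [hV] at this ⊢
          simpa using this
        refine hT.trans ?_
        have hd0 : (0:ℝ) ≤ d := by positivity
        nlinarith)
  refine hkey.trans (le_of_eq ?_)
  rw [iter_hasse, norm_mul, Complex.norm_natCast, ← hn]
  simp only [hV]
  ring

/-- The equality of the suprema (`reduce`, `pairs_perm` or `pairs_of_fin`). -/
theorem equality_half (n k : ℕ) (z : Fin n → ℂ) (hn : 1 ≤ n) (hk : k < n)
    (hkn : n < 2 * k ∨ k = n - 1) (hz : ∀ i, ‖z i‖ ≤ 1)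
    (hc : ∀ w : ℂ, Nat.card {j : Fin n // z j = w} = Nat.card {j : Fin n // z j = conj w})
    (hev : ∀ r : ℝ, Even (Nat.card {j : Fin n // z j = (r : ℂ)})) :
    sSup (lset n k z) = (1 / (n.factorial : ℝ)) * sSup (rset n k z) := by
  obtain ⟨L, hn2, hmem, hprod⟩ := pairs_of_fin z hc hev
  have hL : ∀ a : Fin L.length, ‖L.get a‖ ≤ 1 := by
    intro a
    obtain ⟨i, hi⟩ := hmem (L.get a) (List.get_mem L a)
    rw [← hi]; exact hz i
  have hom : ∀ w : ℂ, ∏ j, (w - z j) = (om (zL L.get)).eval w := by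
    intro w
    rw [hprod w, fL_eq, mul_one, om_zL, Polynomial.eval_prod]
    have h1 : ConjInterp.lp (L ++ L.map conj) w =
        (L.map (fun z => (w - z) * (w - conj z))).prod := by
      rw [ConjInterp.lp, List.map_append, List.prod_append, List.map_map, ← List.prod_map_mul]
      rfl
    rw [h1, ← List.prod_ofFn]
    congr 1
    have h2 : L.map (fun z => (w - z) * (w - conj z)) =
        (List.ofFn L.get).map (fun z => (w - z) * (w - conj z)) := by
      rw [List.ofFn_get L]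
    rw [h2, List.map_ofFn]
    congr 1
    funext i
    simp [pr]
  apply reduce hn z
  intro h hh hb x hx
  have hf1 : (fun w => (∏ j, (w - z j)) * h w) = fun w => (om (zL L.get)).eval w * h w := by
    funext w; rw [hom]
  have hf2 : (fun w => ∏ j, (w - z j)) = fun w => (om (zL L.get)).eval w := by
    funext w; rw [hom]
  rw [hf1, hf2]
  rw [hf1, hn2] at hb
  have h3 := pointwise (L := L.get) hL (k := k) (by omega) (by omega) (by omega) hh hb hx
  rw [← hn2] at h3
  exact h3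

end Pool.Agent.HHalf
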