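import Pool.Agent.HHalf.MDD

set_option autoImplicit false

namespace Pool.Agent.HHalf

open MeasureTheory Set Filter Topology

private theorem var_real {m : ℕ} {u : Fin m → ℝ} (hu : ∑ i, u i = 1) (a : Fin m → ℝ) :
    ∑ i, ∑ j, u i * u j * (a i - a j) ^ 2 = 2 * (∑ i, u i * a i ^ 2 - (∑ i, u i * a i) ^ 2) := by
  have h1 : ∀ i j, u i * u j * (a i - a j) ^ 2 =
      u i * a i ^ 2 * u j + u i * (u j * a j ^ 2) - 2 * ((u i * a i) * (u j * a j)) := by
    intro i j; ring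
  simp only [h1, Finset.sum_add_distrib, Finset.sum_sub_distrib, ← Finset.mul_sum,
    ← Finset.sum_mul, hu]
  ring

/-- `|Γ| ≤ K (1 - |D|²)` when `|c_i - c_j| ≤ K |z_i - z_j|`.
With `u_j = X_j/T`: `Γ = ∑_{i,j} u_i u_j c_j (z_j - z_i) = ½ ∑_{i,j} u_i u_j (c_j - c_i)(z_j - z_i)`,
so `|Γ| ≤ (K/2) ∑ u_i u_j |z_i - z_j|² = K (∑ u_i |z_i|² - |∑ u_i z_i|²) ≤ K (1 - |D|²)`. -/
theorem norm_Gam_le {n : ℕ} {z : Fin (n + 1) → ℂ} (hz : ∀ i, ‖z i‖ ≤ 1) {c : Fin (n + 1) → ℂ} {K : ℝ}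
    (hK : 0 ≤ K) (hc : ∀ i j, ‖c i - c j‖ ≤ K * ‖z i - z j‖) {X : Fin (n + 1) → ℝ}
    (hX : ∀ i, 0 < X i) : ‖Gam z c X‖ ≤ K * (1 - ‖DD z X‖ ^ 2) := by
  have hT : 0 < TT X := TT_pos hX
  obtain ⟨u, hu⟩ : ∃ u : Fin (n + 1) → ℝ, u = fun i => X i / TT X := ⟨_, rfl⟩
  have hu0 : ∀ i, 0 ≤ u i := fun i => by rw [hu]; exact (div_pos (hX i) hT).le
  have hu1 : ∑ i, u i = 1 := by
    rw [hu]; simp only []
    rw [← Finset.sum_div]
    exact div_self hT.ne'
  have hu1c : ∑ i, (u i : ℂ) = 1 := by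
    rw [← Complex.ofReal_sum, hu1, Complex.ofReal_one]
  have hTc : (TT X : ℂ) ≠ 0 := by exact_mod_cast hT.ne'
  have hD : DD z X = ∑ i, (u i : ℂ) * z i := by
    rw [DD, Finset.sum_div]
    refine Finset.sum_congr rfl fun i _ => ?_
    rw [hu]; simp only []
    push_cast
    field_simp
  have hA : Gam z c X = ∑ i, ∑ j, (u i : ℂ) * u j * c j * (z j - z i) := by
    rw [Finset.sum_comm, Gam]
    refine Finset.sum_congr rfl fun j _ => ?_
    have h2 : ∀ i, (u i : ℂ) * u j * c j * (z j - z i) =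
        (u j * c j) * (z j * u i) - (u j * c j) * (u i * z i) := by
      intro i; ring
    simp only [h2, Finset.sum_sub_distrib, ← Finset.mul_sum, hu1c]
    rw [← hD, hu]
    ring
  have hB : ∑ i, ∑ j, (u i : ℂ) * u j * c j * (z j - z i) =
      - ∑ i, ∑ j, (u i : ℂ) * u j * c i * (z j - z i) := by
    rw [Finset.sum_comm, ← Finset.sum_neg_distrib]
    refine Finset.sum_congr rfl fun i _ => ?_
    rw [← Finset.sum_neg_distrib]
    refine Finset.sum_congr rfl fun j _ => ?_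
    ring
  have hG : Gam z c X = (1 / 2 : ℂ) * ∑ i, ∑ j, (u i : ℂ) * u j * ((c j - c i) * (z j - z i)) := by
    have h3 : ∑ i, ∑ j, (u i : ℂ) * u j * ((c j - c i) * (z j - z i)) =
        (∑ i, ∑ j, (u i : ℂ) * u j * c j * (z j - z i)) -
          ∑ i, ∑ j, (u i : ℂ) * u j * c i * (z j - z i) := by
      simp only [← Finset.sum_sub_distrib]
      refine Finset.sum_congr rfl fun i _ => Finset.sum_congr rfl fun j _ => ?_
      ring
    rw [h3, hA]
    linear_combination (1 / 2 : ℂ) * hB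
  have hnorm : ‖Gam z c X‖ ≤ (1 / 2) * ∑ i, ∑ j, u i * u j * (K * ‖z i - z j‖ ^ 2) := by
    rw [hG, norm_mul]
    have h4 : ‖(1 / 2 : ℂ)‖ = 1 / 2 := by norm_num
    rw [h4]
    refine mul_le_mul_of_nonneg_left ?_ (by norm_num)
    refine (norm_sum_le _ _).trans (Finset.sum_le_sum fun i _ => ?_)
    refine (norm_sum_le _ _).trans (Finset.sum_le_sum fun j _ => ?_)
    rw [norm_mul, norm_mul, norm_mul, Complex.norm_real, Complex.norm_real,
      Real.norm_of_nonneg (hu0 i), Real.norm_of_nonneg (hu0 j)]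
    refine mul_le_mul_of_nonneg_left ?_ (mul_nonneg (hu0 i) (hu0 j))
    have h5 := hc j i
    have h6 : ‖z j - z i‖ = ‖z i - z j‖ := norm_sub_rev _ _
    rw [h6] at h5 ⊢
    nlinarith [norm_nonneg (z i - z j)]
  have hsq : ∀ w : ℂ, ‖w‖ ^ 2 = w.re ^ 2 + w.im ^ 2 := by
    intro w
    rw [← Complex.normSq_eq_norm_sq, Complex.normSq_apply]; ring
  have hvar : ∑ i, ∑ j, u i * u j * (K * ‖z i - z j‖ ^ 2) =
      2 * K * (∑ i, u i * ‖z i‖ ^ 2 - ‖DD z X‖ ^ 2) := by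
    have hre : (DD z X).re = ∑ i, u i * (z i).re := by
      rw [hD, Complex.re_sum]
      refine Finset.sum_congr rfl fun i _ => ?_
      simp
    have him : (DD z X).im = ∑ i, u i * (z i).im := by
      rw [hD, Complex.im_sum]
      refine Finset.sum_congr rfl fun i _ => ?_
      simp
    have e1 := var_real hu1 (fun i => (z i).re)
    have e2 := var_real hu1 (fun i => (z i).im)
    have e3 : ∑ i, ∑ j, u i * u j * (K * ‖z i - z j‖ ^ 2) =
        K * (∑ i, ∑ j, u i * u j * ((z i).re - (z j).re) ^ 2) +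
          K * (∑ i, ∑ j, u i * u j * ((z i).im - (z j).im) ^ 2) := by
      simp only [Finset.mul_sum, ← Finset.sum_add_distrib]
      refine Finset.sum_congr rfl fun i _ => Finset.sum_congr rfl fun j _ => ?_
      rw [hsq, Complex.sub_re, Complex.sub_im]; ring
    have e4 : ∑ i, u i * ‖z i‖ ^ 2 = ∑ i, u i * (z i).re ^ 2 + ∑ i, u i * (z i).im ^ 2 := by
      rw [← Finset.sum_add_distrib]
      refine Finset.sum_congr rfl fun i _ => ?_
      rw [hsq]; ring
    beta_reduce at e1 e2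
    rw [e3, e1, e2, e4, hsq (DD z X), hre, him]
    ring
  have hle : ∑ i, u i * ‖z i‖ ^ 2 ≤ 1 := by
    calc ∑ i, u i * ‖z i‖ ^ 2 ≤ ∑ i, u i * 1 := by
          refine Finset.sum_le_sum fun i _ => mul_le_mul_of_nonneg_left ?_ (hu0 i)
          have := hz i
          nlinarith [norm_nonneg (z i)]
      _ = 1 := by simp [hu1]
  rw [hvar] at hnorm
  nlinarith [mul_le_mul_of_nonneg_left (sub_le_sub_right hle (‖DD z X‖ ^ 2)) hK]

end Pool.Agent.HHalf
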