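import Pool.Agent.HHalf.Defs

set_option autoImplicit false

namespace Pool.Agent.HHalf

open Polynomial

/-- Leibniz for a linear factor: `H_{k+1}((X - a) p) = (X - a) H_{k+1} p + H_k p`
(`hasseDeriv_mul` or coefficients). -/
theorem hasse_lin (a : ℂ) (p : ℂ[X]) (k : ℕ) :
    hasseDeriv (k + 1) ((X - C a) * p) = (X - C a) * hasseDeriv (k + 1) p + hasseDeriv k p := by
  ext n
  rcases n with _ | n
  · have h1 : ((X - C a) * hasseDeriv (k + 1) p + hasseDeriv k p).coeff 0
        = - a * (hasseDeriv (k+1) p).coeff 0 + (hasseDeriv k p).coeff 0 := by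
      simp [sub_mul, mul_coeff_zero]
    rw [h1]
    simp only [hasseDeriv_coeff]
    have h2 : ((X - C a) * p).coeff (0 + (k+1)) = p.coeff k - a * p.coeff (k+1) := by
      rw [sub_mul, coeff_sub, zero_add, coeff_X_mul, coeff_C_mul]
    rw [h2]
    simp
    ring
  · have h1 : ((X - C a) * hasseDeriv (k + 1) p + hasseDeriv k p).coeff (n+1)
        = (hasseDeriv (k+1) p).coeff n - a * (hasseDeriv (k+1) p).coeff (n+1)
          + (hasseDeriv k p).coeff (n+1) := by
      rw [coeff_add, sub_mul, coeff_sub, coeff_X_mul, coeff_C_mul]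
    rw [h1]
    simp only [hasseDeriv_coeff]
    have h2 : ((X - C a) * p).coeff (n + 1 + (k+1)) = p.coeff (n + (k+1)) - a * p.coeff (n + 1 + (k+1)) := by
      rw [sub_mul, coeff_sub, show n + 1 + (k+1) = (n + (k+1)) + 1 by ring, coeff_X_mul, coeff_C_mul]
    rw [h2]
    have h3 : p.coeff (n + 1 + k) = p.coeff (n + (k+1)) := by
      congr 1; ring
    rw [h3]
    have h4 : ((n + 1 + (k+1)).choose (k+1) : ℂ) = ((n + (k+1)).choose (k+1) : ℂ) + ((n+1+k).choose k : ℂ) := by
      have : (n + 1 + (k+1)).choose (k+1) = (n + (k+1)).choose (k+1) + (n+1+k).choose k := by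
        rw [show n + 1 + (k+1) = (n + 1 + k) + 1 by ring, Nat.choose_succ_succ', add_comm,
          show n + (k+1) = n + 1 + k by ring]
      exact_mod_cast this
    rw [h4]
    ring

variable {ι : Type*} [Fintype ι] [DecidableEq ι]

theorem om_eq (z : ι → ℂ) (j : ι) : om z = (X - C (z j)) * omj z j := by
  unfold om omj
  exact (Finset.mul_prod_erase Finset.univ _ (Finset.mem_univ j)).symm

theorem omj_eq (z : ι → ℂ) {i j : ι} (hij : i ≠ j) : omj z i = (X - C (z j)) * omij z i j := by
  unfold omj omij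
  refine (Finset.mul_prod_erase (Finset.univ.erase i) (fun i => (X - C (z i))) ?_).symm
  simp [Ne.symm hij]

theorem omij_comm (z : ι → ℂ) (i j : ι) : omij z i j = omij z j i := by
  unfold omij
  rw [Finset.erase_right_comm]

/-- `∑ c_j = (n - k) ω^{(k)}(x)/k!`. `k = 0`: every `c_j = ω(x)`. `k = m + 1`: by `hasse_lin`
`c_j = H_k ω(x) - H_m ω_j(x)`, and `∑ ω_j = ω'` (`derivative_prod`), `H_m ω' = k H_k ω`
(`hasseDeriv_comp`, `hasseDeriv_one`). -/
theorem sum_cc (z : ι → ℂ) {k d : ℕ} (hkd : k + d = Fintype.card ι) (x : ℂ) :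
    ∑ j, cc z k x j = (d : ℂ) * (hasseDeriv k (om z)).eval x := by
  rcases k with _ | m
  · have h : ∀ j, cc z 0 x j = (hasseDeriv 0 (om z)).eval x := by
      intro j
      unfold cc
      rw [om_eq z j]
      simp
    rw [Finset.sum_congr rfl (fun j _ => h j)]
    rw [Finset.sum_const, Finset.card_univ, nsmul_eq_mul, ← hkd, zero_add]
  · have h : ∀ j, cc z (m+1) x j = (hasseDeriv (m+1) (om z)).eval x - (hasseDeriv m (omj z j)).eval x := by
      intro j
      unfold cc
      rw [om_eq z j, hasse_lin]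
      simp
    rw [Finset.sum_congr rfl (fun j _ => h j), Finset.sum_sub_distrib, Finset.sum_const,
      Finset.card_univ, nsmul_eq_mul, ← hkd]
    have hs : ∑ j, omj z j = derivative (om z) := by
      unfold om omj
      rw [Polynomial.derivative_prod_finset]
      refine Finset.sum_congr rfl (fun j _ => ?_)
      simp
    have h2 : ∑ j, (hasseDeriv m (omj z j)).eval x = ((m+1 : ℕ) : ℂ) * (hasseDeriv (m+1) (om z)).eval x := by
      rw [← eval_finsetSum, ← map_sum, hs, ← hasseDeriv_one]
      have := LinearMap.congr_fun (hasseDeriv_comp (R := ℂ) m 1) (om z)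
      rw [LinearMap.comp_apply] at this
      rw [this]
      simp
      ring
    rw [h2]
    push_cast
    ring

/-- `c_i - c_j = (z_j - z_i) H_k ω_ij(x)` for the order `k + 1`: `ω_i = (X - z_j) ω_ij`,
`ω_j = (X - z_i) ω_ij`, `hasse_lin`. -/
theorem diff_cc (z : ι → ℂ) (k : ℕ) (x : ℂ) {i j : ι} (hij : i ≠ j) :
    cc z (k + 1) x i - cc z (k + 1) x j = (z j - z i) * (hasseDeriv k (omij z i j)).eval x := by
  unfold cc
  rw [omj_eq z hij, omj_eq z (Ne.symm hij), omij_comm z j i, hasse_lin, hasse_lin]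
  simp
  ring

/-- Reindexing. -/
theorem om_comp {κ : Type*} [Fintype κ] [DecidableEq κ] (e : κ ≃ ι) (z : ι → ℂ) :
    om (z ∘ e) = om z := by
  unfold om
  exact Equiv.prod_comp e (fun i => X - C (z i))

theorem omij_comp {κ : Type*} [Fintype κ] [DecidableEq κ] (e : κ ≃ ι) (z : ι → ℂ) (i j : κ) :
    omij (z ∘ e) i j = omij z (e i) (e j) := by
  unfold omij
  refine Finset.prod_bij (fun l _ => e l) ?_ ?_ ?_ ?_
  · intro l hl
    simp at hl ⊢
    exact hl
  · intro a _ b _ h
    exact e.injective h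
  · intro b hb
    refine ⟨e.symm b, ?_, by simp⟩
    simp at hb ⊢
    constructor
    · intro h; apply hb.1; rw [← h]; simp
    · intro h; apply hb.2; rw [← h]; simp
  · intro l _
    rfl

end Pool.Agent.HHalf
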