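import Pool.Agent.HHalf.NNewton
import Pool.Agent.HHalf.Defs
import Pool.Agent.ConjInterp.Reduce

set_option autoImplicit false

namespace Pool.Agent.HHalf

open Complex Set Metric ComplexConjugate Polynomial Pool.Agent.ConjInterp

/-- The function `E = (w - x) F' - k F - ∑_j (z_j - x) h(z_j) ω_j`, `F = ω h`, is divisible by `ω`:
`(w - x) ω' = n ω + ∑ (z_j - x) ω_j` (because `w - x = (w - z_j) + (z_j - x)` and
`ω' = ∑ ω_j`, `(w - z_j) ω_j = ω`), hence `E = (n-k) ω h + (w-x) ω h' + ∑ (z_j - x) ω_j (h(w) - h(z_j))`
and `ω_j (h(w) - h(z_j)) = ω · (entire)` (`div_lin`). -/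
theorem E_div {n : ℕ} (z : Fin n → ℂ) (k : ℕ) (x : ℂ) {h : ℂ → ℂ} (hh : Differentiable ℂ h) :
    ∃ q : ℂ → ℂ, Differentiable ℂ q ∧ ∀ w,
      (w - x) * deriv (fun w => (∏ i, (w - z i)) * h w) w - k * ((∏ i, (w - z i)) * h w)
        - ∑ j, (z j - x) * h (z j) * (omj z j).eval w = (∏ i, (w - z i)) * q w := by
  classical
  have hG : ∀ j : Fin n, ∃ G : ℂ → ℂ, Differentiable ℂ G ∧
      ∀ w, h w - h (z j) = (w - z j) * G w := by
    intro j
    exact div_lin (F := fun w => h w - h (z j)) (hh.sub_const _) (by simp)
  choose G hGd hGe using hG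
  refine ⟨fun w => ((n : ℂ) - k) * h w + (w - x) * deriv h w + ∑ j, (z j - x) * G j w, ?_, ?_⟩
  · have hd : Differentiable ℂ (deriv h) := (hh.contDiff (n := 2)).differentiable_deriv_two
    refine ((hh.const_mul _).add ((differentiable_id.sub_const x).mul hd)).add ?_
    exact Differentiable.fun_sum fun j _ => (hGd j).const_mul _
  · intro w
    have hom : ∀ j, (omj z j).eval w = ∏ i ∈ Finset.univ.erase j, (w - z i) := by
      intro j
      simp [omj, Polynomial.eval_prod]
    have hmul : ∀ j, (w - z j) * (omj z j).eval w = ∏ i, (w - z i) := by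
      intro j
      rw [hom j]
      exact Finset.mul_prod_erase Finset.univ (fun i => w - z i) (Finset.mem_univ j)
    have hder : HasDerivAt (fun w => (∏ i, (w - z i))) (∑ j, (omj z j).eval w) w := by
      have h1 := HasDerivAt.fun_finsetProd (u := (Finset.univ : Finset (Fin n)))
        (f := fun i w => w - z i) (f' := fun _ => (1 : ℂ)) (x := w)
        (fun i _ => by simpa using (hasDerivAt_id w).sub_const (z i))
      refine h1.congr_deriv ?_
      refine Finset.sum_congr rfl fun j _ => ?_
      rw [hom j]
      simp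
    have hF : deriv (fun w => (∏ i, (w - z i)) * h w) w
        = (∑ j, (omj z j).eval w) * h w + (∏ i, (w - z i)) * deriv h w :=
      (hder.mul (hh w).hasDerivAt).deriv
    rw [hF]
    have hxs : (w - x) * ∑ j, (omj z j).eval w
        = (n : ℂ) * (∏ i, (w - z i)) + ∑ j, (z j - x) * (omj z j).eval w := by
      rw [Finset.mul_sum]
      have : ∀ j ∈ (Finset.univ : Finset (Fin n)), (w - x) * (omj z j).eval w
          = (∏ i, (w - z i)) + (z j - x) * (omj z j).eval w := by
        intro j _
        rw [← hmul j]; ring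
      rw [Finset.sum_congr rfl this, Finset.sum_add_distrib]
      simp
    have hlast : ∑ j, (z j - x) * (omj z j).eval w * h w
        - ∑ j, (z j - x) * h (z j) * (omj z j).eval w
        = (∏ i, (w - z i)) * ∑ j, (z j - x) * G j w := by
      rw [← Finset.sum_sub_distrib, Finset.mul_sum]
      refine Finset.sum_congr rfl fun j _ => ?_
      have e1 := hGe j w
      have e2 := hmul j
      rw [← e2]
      linear_combination (z j - x) * (omj z j).eval w * e1
    have hsm : ∑ j, (z j - x) * (omj z j).eval w * h w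
        = (∑ j, (z j - x) * (omj z j).eval w) * h w := by
      rw [Finset.sum_mul]
    rw [hsm] at hlast
    linear_combination h w * hxs + hlast

end Pool.Agent.HHalf
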