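import Pool.Agent.HHalf.NStarE
import Pool.Agent.HHalf.NStarV

set_option autoImplicit false

namespace Pool.Agent.HHalf

open Complex Set Metric ComplexConjugate Polynomial Pool.Agent.ConjInterp

private theorem nstar_iter_sub {F G : ℂ → ℂ} (hF : Differentiable ℂ F) (hG : Differentiable ℂ G)
    (m : ℕ) (w : ℂ) : iteratedDeriv m (fun w => F w - G w) w =
      iteratedDeriv m F w - iteratedDeriv m G w :=
  iteratedDeriv_fun_sub (entire_contDiffAt hF m w) (entire_contDiffAt hG m w)

private theorem nstar_iter_cmul {F : ℂ → ℂ} (hF : Differentiable ℂ F) (c : ℂ)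
    (m : ℕ) (w : ℂ) : iteratedDeriv m (fun w => c * F w) w = c * iteratedDeriv m F w := by
  have := iteratedDeriv_const_mul c (entire_contDiffAt hF m w)
  exact this

/-- If `φ = F₀^{(n)}`, `F₀ = ω h₀`, and `ψ = (ω h)^{(n)}` solves `(w - x) ψ' + d ψ = φ`, `k + d = n`, then
`F₀^{(k)}(x) = k! ∑ c_j h(z_j)`.
Proof: `E` of `E_div` has `n`-th derivative `(w - x) ψ' + n ψ - k ψ = φ` (the sum is a polynomial of
degree `≤ n - 1`), so `E - F₀` is a polynomial of degree `< n` (`poly_of_iter_zero`) divisible by `ω`,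
i.e. `0` (`poly_div_zero`). The `k`-th derivative of `E` at `x`: `((w - x) F')^{(k)}(x) = k F^{(k)}(x)`
cancels `k F^{(k)}(x)` (`ConjInterp.iter_lin`), and the rest is
`∑ (x - z_j) h(z_j) ω_j^{(k)}(x) = k! ∑ c_j h(z_j)` (`ConjInterp.iter_poly`,
`Polynomial.factorial_smul_hasseDeriv`). -/
theorem star_value {n k d : ℕ} (z : Fin n → ℂ) (hkd : k + d = n) (hd : 1 ≤ d) (x : ℂ) {h₀ h : ℂ → ℂ}
    (hh₀ : Differentiable ℂ h₀) (hh : Differentiable ℂ h)
    (ho : ∀ w, (w - x) * deriv (iteratedDeriv n (fun w => (∏ i, (w - z i)) * h w)) w +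
        d * iteratedDeriv n (fun w => (∏ i, (w - z i)) * h w) w =
        iteratedDeriv n (fun w => (∏ i, (w - z i)) * h₀ w) w) :
    iteratedDeriv k (fun w => (∏ i, (w - z i)) * h₀ w) x =
      (k.factorial : ℂ) * ∑ j, cc z k x j * h (z j) := by
  have hn : 1 ≤ n := by omega
  set F : ℂ → ℂ := fun w => (∏ i, (w - z i)) * h w with hFdef
  set F₀ : ℂ → ℂ := fun w => (∏ i, (w - z i)) * h₀ w with hF₀def
  have hF : Differentiable ℂ F := (prod_entire z).mul hh
  have hF₀ : Differentiable ℂ F₀ := (prod_entire z).mul hh₀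
  have hF' : Differentiable ℂ (deriv F) := entire_deriv hF
  obtain ⟨q, hq, hE⟩ := E_div z k x hh
  set p : ℂ[X] := ∑ j, C ((z j - x) * h (z j)) * omj z j with hp
  have hpe : ∀ w, p.eval w = ∑ j, (z j - x) * h (z j) * (omj z j).eval w := by
    intro w
    rw [hp, eval_finsetSum]
    exact Finset.sum_congr rfl fun j _ => by rw [eval_mul, eval_C]
  have hpd : p.degree < (n : WithBot ℕ) := by
    rw [hp]
    refine (degree_sum_le _ _).trans_lt ?_
    rw [Finset.sup_lt_iff (by exact_mod_cast WithBot.bot_lt_coe n)]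
    intro j _
    have h1 : (omj z j).natDegree = n - 1 := by
      rw [omj, natDegree_finsetProd_X_sub_C_eq_card, Finset.card_erase_of_mem (Finset.mem_univ j),
        Finset.card_univ, Fintype.card_fin]
    have h2 : (C ((z j - x) * h (z j)) * omj z j).natDegree < n :=
      (natDegree_C_mul_le _ _).trans_lt (by omega)
    exact degree_le_natDegree.trans_lt (by exact_mod_cast h2)
  set E : ℂ → ℂ := fun w => (w - x) * deriv F w - k * F w - p.eval w with hEdef
  have hEq : ∀ w, E w = (∏ i, (w - z i)) * q w := by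
    intro w
    rw [← hE w, hEdef]
    simp only [hpe]
    rfl
  have hd1 : Differentiable ℂ (fun w => (w - x) * deriv F w) := entire_lin x hF'
  have hd2 : Differentiable ℂ (fun w => (k : ℂ) * F w) := hF.const_mul _
  have hd3 : Differentiable ℂ (fun w => p.eval w) := poly_entire p
  have hd12 : Differentiable ℂ (fun w => (w - x) * deriv F w - (k : ℂ) * F w) := hd1.sub hd2
  have hEd : Differentiable ℂ E := hd12.sub hd3
  have iterE : ∀ (m : ℕ) (w : ℂ), iteratedDeriv m E w =
      (w - x) * iteratedDeriv (m + 1) F w + m * iteratedDeriv m F w - k * iteratedDeriv m F w -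
        iteratedDeriv m (fun w => p.eval w) w := by
    intro m w
    rw [hEdef, nstar_iter_sub hd12 hd3, nstar_iter_sub hd1 hd2, nstar_iter_cmul hF,
      iter_lin x m hF' w, ← iteratedDeriv_succ']
    rcases m with _ | m
    · simp
    · rw [Nat.add_sub_cancel, ← iteratedDeriv_succ']
  have hEn : ∀ w, iteratedDeriv n E w = iteratedDeriv n F₀ w := by
    intro w
    rw [iterE, iter_poly_zero hn hpd, ← ho w, ← iteratedDeriv_succ]
    have : (n : ℂ) = k + d := by exact_mod_cast hkd.symm
    rw [this]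
    ring
  obtain ⟨p₁, hp₁, hG⟩ := poly_of_iter_zero n (fun w => E w - F₀ w) (hEd.sub hF₀) (fun w => by
    rw [nstar_iter_sub hEd hF₀, hEn, sub_self])
  have hp0 : p₁ = 0 := by
    refine poly_div_zero n z p₁ (fun w => q w - h₀ w) (hq.sub hh₀) hp₁ fun w => ?_
    rw [← hG w, hEq w]
    simp only [hF₀def]
    ring
  have hEF : E = F₀ := by
    funext w
    have := hG w
    rw [hp0, eval_zero] at this
    exact sub_eq_zero.mp this
  rw [← hEF, iterE k x]
  have h3 : iteratedDeriv k (fun w => p.eval w) x =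
      ∑ j, (z j - x) * h (z j) * ((k.factorial : ℂ) * (hasseDeriv k (omj z j)).eval x) := by
    have h4 : ∀ r : ℂ[X], iteratedDeriv k (fun w => r.eval w) x =
        (k.factorial : ℂ) * (hasseDeriv k r).eval x := by
      intro r
      have h5 : derivative^[k] r = k.factorial • hasseDeriv k r :=
        (congrFun (factorial_smul_hasseDeriv (R := ℂ) k) r).symm
      rw [iter_poly]
      show (derivative^[k] r).eval x = _
      rw [h5, nsmul_eq_mul, eval_mul, eval_natCast]
    rw [h4, hp, map_sum, eval_finsetSum, Finset.mul_sum]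
    refine Finset.sum_congr rfl fun j _ => ?_
    rw [← smul_eq_C_mul, LinearMap.map_smul, eval_smul, smul_eq_mul]
    ring
  rw [h3, sub_self, zero_mul, zero_add, sub_self, zero_sub, ← Finset.sum_neg_distrib, Finset.mul_sum]
  refine Finset.sum_congr rfl fun j _ => ?_
  rw [cc]
  ring

end Pool.Agent.HHalf
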