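import Mathlib

set_option autoImplicit false

namespace Pool.Agent.HHalf

open Complex Set Metric ComplexConjugate MeasureTheory intervalIntegral

/-- `(w - x) ψ' + d ψ = φ` implies `ψ(w) = ∫₀¹ t^{d-1} φ(x + t (w - x)) dt`: the function
`t ↦ t^d ψ(x + t (w - x))` has derivative `t^{d-1} φ(x + t(w-x))` and vanishes at `0`
(`integral_eq_sub_of_hasDerivAt`). -/
theorem ode_int {φ ψ : ℂ → ℂ} (hφ : Differentiable ℂ φ) (hψ : Differentiable ℂ ψ) {x : ℂ} {d : ℕ}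
    (hd : 1 ≤ d) (h : ∀ w, (w - x) * deriv ψ w + d * ψ w = φ w) (w : ℂ) :
    ψ w = ∫ t in (0:ℝ)..1, (t:ℂ) ^ (d - 1) * φ (x + t * (w - x)) := by
  obtain ⟨e, rfl⟩ : ∃ e, d = e + 1 := ⟨d - 1, by omega⟩
  rw [Nat.add_sub_cancel]
  have hder : ∀ t : ℝ, HasDerivAt (fun t : ℝ => (t:ℂ) ^ (e + 1) * ψ (x + t * (w - x)))
      ((t:ℂ) ^ e * φ (x + t * (w - x))) t := by
    intro t
    have h1 : HasDerivAt (fun s : ℂ => s ^ (e + 1)) (((e + 1 : ℕ) : ℂ) * (t:ℂ) ^ e) (t:ℂ) := by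
      have := hasDerivAt_pow (e + 1) (t:ℂ)
      rwa [Nat.add_sub_cancel] at this
    have h2 : HasDerivAt (fun s : ℂ => x + s * (w - x)) (w - x) (t:ℂ) := by
      have h3 : HasDerivAt (fun s : ℂ => s * (w - x)) (1 * (w - x)) (t:ℂ) := (hasDerivAt_id _).mul_const (w - x)
      rw [one_mul] at h3
      exact h3.const_add x
    have h4 : HasDerivAt (fun s : ℂ => ψ (x + s * (w - x))) (deriv ψ (x + t * (w - x)) * (w - x)) (t:ℂ) :=
      HasDerivAt.comp (t:ℂ) (hψ _).hasDerivAt h2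
    have h5 := (h1.mul h4).comp_ofReal
    have h6 := h (x + t * (w - x))
    have h7 : ((e + 1 : ℕ) : ℂ) * (t:ℂ) ^ e * ψ (x + t * (w - x)) +
        (t:ℂ) ^ (e + 1) * (deriv ψ (x + t * (w - x)) * (w - x)) = (t:ℂ) ^ e * φ (x + t * (w - x)) := by
      rw [← h6]
      ring
    rw [← h7]
    exact h5
  have hcont : Continuous fun t : ℝ => (t:ℂ) ^ e * φ (x + t * (w - x)) := by
    have h1 := hφ.continuous
    fun_prop
  rw [integral_eq_sub_of_hasDerivAt (fun t _ => hder t) (hcont.intervalIntegrable _ _)]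
  simp

/-- Differentiate the equation: `(w - x) ψ'' + (d+1) ψ' = φ'`, and use `ode_int` with `d + 1`. -/
theorem ode_int' {φ ψ : ℂ → ℂ} (hφ : Differentiable ℂ φ) (hψ : Differentiable ℂ ψ) {x : ℂ} {d : ℕ}
    (hd : 1 ≤ d) (h : ∀ w, (w - x) * deriv ψ w + d * ψ w = φ w) (w : ℂ) :
    deriv ψ w = ∫ t in (0:ℝ)..1, (t:ℂ) ^ d * deriv φ (x + t * (w - x)) := by
  have hψ' : Differentiable ℂ (deriv ψ) := (hψ.contDiff (n := 2)).differentiable_deriv_two
  have hφ' : Differentiable ℂ (deriv φ) := (hφ.contDiff (n := 2)).differentiable_deriv_two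
  have h1 : ∀ w, (w - x) * deriv (deriv ψ) w + ((d + 1 : ℕ) : ℂ) * deriv ψ w = deriv φ w := by
    intro w
    have h2 : φ = fun w => (w - x) * deriv ψ w + d * ψ w := funext fun w => (h w).symm
    have h3 : HasDerivAt (fun w => (w - x) * deriv ψ w + d * ψ w)
        (1 * deriv ψ w + (w - x) * deriv (deriv ψ) w + d * deriv ψ w) w :=
      (((hasDerivAt_id w).sub_const x).mul (hψ' w).hasDerivAt).add ((hψ w).hasDerivAt.const_mul (d:ℂ))
    rw [h2, h3.deriv]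
    push_cast
    ring
  have h4 := ode_int hφ' hψ' (d := d + 1) (by omega) h1 w
  rwa [Nat.add_sub_cancel] at h4

end Pool.Agent.HHalf
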