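import Pool.Agent.HHalf.PPoint
import Pool.Agent.HHalf.POdeInt

set_option autoImplicit false

namespace Pool.Agent.HHalf

open Complex Set Metric ComplexConjugate MeasureTheory intervalIntegral

/-- `|C ψ(D) + G ψ'(D)| ≤ B` if `|C| ≤ dB`, `|G| ≤ (dB/2)(1 - |D|²)`. By `ode_int`, `ode_int'` the left
side is `∫₀¹ t^{d-1} [C φ(Y) + t G φ'(Y)] dt`, and `point` with `K = dB` bounds the bracket;
`∫₀¹ t^{d-1} dt = 1/d`. -/
theorem point_int {φ ψ : ℂ → ℂ} (hφ : Differentiable ℂ φ) (hψ : Differentiable ℂ ψ)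
    (hb : ∀ w, ‖w‖ ≤ 1 → ‖φ w‖ ≤ 1) {x : ℂ} {d : ℕ}
    (hd : 1 ≤ d) (h : ∀ w, (w - x) * deriv ψ w + d * ψ w = φ w) {D C G : ℂ} {B : ℝ}
    (hx : ‖x‖ ≤ 1) (hD : ‖D‖ ≤ 1) (hB : 0 ≤ B)
    (hC : ‖C‖ ≤ d * B) (hG : ‖G‖ ≤ d * B / 2 * (1 - ‖D‖ ^ 2)) :
    ‖C * ψ D + G * deriv ψ D‖ ≤ B := by
  have hd0 : (0:ℝ) < d := by exact_mod_cast hd
  have hφ' : Continuous (deriv φ) := hφ.contDiff.continuous_deriv (n := 1) le_rfl
  have hY : Continuous (fun t : ℝ => x + (t:ℂ) * (D - x)) := by fun_prop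
  have hc1 : Continuous (fun t : ℝ => (t:ℂ) ^ (d - 1) * φ (x + t * (D - x))) := by
    refine Continuous.mul (by fun_prop) (hφ.continuous.comp hY)
  have hc2 : Continuous (fun t : ℝ => (t:ℂ) ^ d * deriv φ (x + t * (D - x))) := by
    refine Continuous.mul (by fun_prop) (hφ'.comp hY)
  have hpow : ∀ t : ℂ, t ^ d = t ^ (d - 1) * t := by
    intro t
    rw [← pow_succ, Nat.sub_add_cancel hd]
  have heq : C * ψ D + G * deriv ψ D = ∫ t in (0:ℝ)..1,
      (t:ℂ) ^ (d - 1) * (C * φ (x + t * (D - x)) + t * G * deriv φ (x + t * (D - x))) := by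
    rw [ode_int hφ hψ hd h D, ode_int' hφ hψ hd h D, ← intervalIntegral.integral_const_mul,
      ← intervalIntegral.integral_const_mul, ← intervalIntegral.integral_add]
    · refine intervalIntegral.integral_congr (fun t _ => ?_)
      simp only [hpow]
      ring
    · exact (hc1.const_smul C).intervalIntegrable 0 1
    · exact (hc2.const_smul G).intervalIntegrable 0 1
  rw [heq]
  have hint : ∫ t in (0:ℝ)..1, t ^ (d - 1) * ((d:ℝ) * B) = B := by
    rw [intervalIntegral.integral_mul_const, integral_pow]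
    have h1 : ((d - 1 : ℕ) : ℝ) + 1 = d := by
      have : ((d - 1 : ℕ) : ℝ) = (d:ℝ) - 1 := by
        rw [Nat.cast_sub hd]; simp
      rw [this]; ring
    rw [h1]
    simp only [one_pow]
    rw [zero_pow (by omega)]
    field_simp
    ring
  calc ‖∫ t in (0:ℝ)..1,
      (t:ℂ) ^ (d - 1) * (C * φ (x + t * (D - x)) + t * G * deriv φ (x + t * (D - x)))‖
      ≤ ∫ t in (0:ℝ)..1, t ^ (d - 1) * ((d:ℝ) * B) := by
        refine intervalIntegral.norm_integral_le_of_norm_le zero_le_one ?_ ?_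
        · refine Filter.Eventually.of_forall (fun t ht => ?_)
          rw [norm_mul, norm_pow, Complex.norm_real, Real.norm_of_nonneg ht.1.le]
          refine mul_le_mul_of_nonneg_left ?_ (pow_nonneg ht.1.le _)
          exact point hφ hb hx hD ht.1.le ht.2 (by positivity) hC hG
        · exact (by fun_prop : Continuous (fun t : ℝ => t ^ (d - 1) * ((d:ℝ) * B))).intervalIntegrable 0 1
    _ = B := hint

end Pool.Agent.HHalf
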