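import Pool.Agent.HHalf.MRepr
import Pool.Agent.HHalf.MGam
import Pool.Agent.HHalf.PInt
import Pool.Agent.HHalf.NStar
import Pool.Agent.HHalf.NCC

set_option autoImplicit false

namespace Pool.Agent.HHalf

open Complex Set Metric ComplexConjugate Polynomial MeasureTheory Pool.Agent.ConjInterp

/-- Theorem A: the pointwise criterion. `star_exists` and `star_value` give
`F^{(k)}(x) = k! ∑ c_j h'(z_j)`; `repr` gives `(n+1)! ∑ c_j h'(z_j) = E[C ψ(D) + Γ ψ'(D)]` with
`C = ∑ c_j = d A` (`sum_cc`); `norm_Gam_le` (`K = dB/2`) and `point_int` bound the integrand by `B`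
almost everywhere (`mu_pos`); `mu (n+1)` is a probability measure. -/
theorem thmA {n k d : ℕ} {z : Fin (n + 1) → ℂ} (hz : ∀ i, ‖z i‖ ≤ 1) (hkd : k + d = n + 1)
    (hd : 1 ≤ d) {x : ℂ} (hx : ‖x‖ ≤ 1) {h : ℂ → ℂ} (hh : Differentiable ℂ h)
    (hb : ∀ w, ‖w‖ ≤ 1 → ‖iteratedDeriv (n + 1) (fun w => (∏ i, (w - z i)) * h w) w‖ ≤ 1)
    {B : ℝ} (hB : 0 ≤ B) (hA : ‖(hasseDeriv k (om z)).eval x‖ ≤ B)
    (hc : ∀ i j, ‖cc z k x i - cc z k x j‖ ≤ d * B / 2 * ‖z i - z j‖) :
    ‖iteratedDeriv k (fun w => (∏ i, (w - z i)) * h w) x‖ ≤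
      (k.factorial : ℝ) / ((n + 1).factorial : ℝ) * B := by
  have hFd : Differentiable ℂ (fun w => (∏ i, (w - z i)) * h w) := (prod_entire z).mul hh
  have hφd := entire_iteratedDeriv hFd (n + 1)
  obtain ⟨h', hh', ho⟩ := star_exists (n := n + 1) (d := d) z hd x hφd
  have hψd : Differentiable ℂ (iteratedDeriv (n + 1) (fun w => (∏ i, (w - z i)) * h' w)) :=
    entire_iteratedDeriv ((prod_entire z).mul hh') (n + 1)
  have hv := star_value z hkd hd x hh hh' ho
  have hr := repr hz hh' (cc z k x)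
  have hC : ‖∑ j, cc z k x j‖ ≤ d * B := by
    rw [sum_cc z (by simpa using hkd) x, norm_mul, Complex.norm_natCast]
    exact mul_le_mul_of_nonneg_left hA (by positivity)
  have hbd : ‖∫ X, ((∑ j, cc z k x j) *
      iteratedDeriv (n + 1) (fun w => (∏ i, (w - z i)) * h' w) (DD z X) +
        Gam z (cc z k x) X *
          deriv (iteratedDeriv (n + 1) (fun w => (∏ i, (w - z i)) * h' w)) (DD z X))
        ∂mu (n + 1)‖ ≤ B := by
    calc _ ≤ B * (mu (n + 1)).real Set.univ := by
          apply norm_integral_le_of_norm_le_const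
          filter_upwards [mu_pos (n + 1)] with X hX
          exact point_int hφd hψd hb hd ho hx (norm_DD_le hz hX) hB hC
            (norm_Gam_le hz (by positivity) hc hX)
      _ = B := by simp
  rw [← hr, norm_mul, Complex.norm_natCast] at hbd
  have hfac : (0:ℝ) < ((n + 1).factorial : ℝ) := by exact_mod_cast (n + 1).factorial_pos
  rw [hv, norm_mul, Complex.norm_natCast, div_mul_eq_mul_div, mul_comm ((k.factorial : ℝ)) B,
    mul_comm B, mul_div_assoc]
  apply mul_le_mul_of_nonneg_left _ (by positivity)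
  rw [le_div_iff₀ hfac]
  linarith

end Pool.Agent.HHalf
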