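import Pool.Agent.HHalf.Defs

set_option autoImplicit false

namespace Pool.Agent.HHalf

open MeasureTheory Set Filter Topology

theorem TT_nonneg {n : ℕ} {X : Fin n → ℝ} (hX : ∀ i, 0 < X i) : 0 ≤ TT X :=
  Finset.sum_nonneg fun i _ => (hX i).le

theorem TT_pos {n : ℕ} {X : Fin (n + 1) → ℝ} (hX : ∀ i, 0 < X i) : 0 < TT X :=
  Finset.sum_pos (fun i _ => hX i) Finset.univ_nonempty

theorem ins_same {n : ℕ} (i : Fin (n + 1)) (x : ℝ) (y : Fin n → ℝ) : ins i x y i = x := by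
  unfold ins
  exact Fin.insertNth_apply_same (α := fun _ => ℝ) i x y

theorem ins_succAbove {n : ℕ} (i : Fin (n + 1)) (x : ℝ) (y : Fin n → ℝ) (j : Fin n) :
    ins i x y (i.succAbove j) = y j := by
  unfold ins
  exact Fin.insertNth_apply_succAbove (α := fun _ => ℝ) i x y j

theorem TT_ins {n : ℕ} (i : Fin (n + 1)) (x : ℝ) (y : Fin n → ℝ) :
    TT (ins i x y) = x + TT y := by
  unfold TT
  rw [Fin.sum_univ_succAbove _ i, ins_same]
  congr 1
  exact Finset.sum_congr rfl fun j _ => ins_succAbove i x y j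

theorem ins_pos {n : ℕ} (i : Fin (n + 1)) {x : ℝ} {y : Fin n → ℝ} (hx : 0 < x)
    (hy : ∀ j, 0 < y j) : ∀ l, 0 < ins i x y l := by
  rw [Fin.forall_iff_succAbove i]
  exact ⟨by rw [ins_same]; exact hx, fun j => by rw [ins_succAbove]; exact hy j⟩

theorem coord_le_TT {n : ℕ} {X : Fin n → ℝ} (hX : ∀ i, 0 < X i) (j : Fin n) : X j ≤ TT X :=
  Finset.single_le_sum (f := X) (fun i _ => (hX i).le) (Finset.mem_univ j)

/-- A convex combination of points of the closed unit disc. -/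
theorem norm_DD_le {n : ℕ} {z : Fin n → ℂ} (hz : ∀ i, ‖z i‖ ≤ 1) {X : Fin n → ℝ}
    (hX : ∀ i, 0 < X i) : ‖DD z X‖ ≤ 1 := by
  unfold DD
  rw [norm_div, Complex.norm_real, Real.norm_of_nonneg (TT_nonneg hX)]
  refine div_le_one_of_le₀ ?_ (TT_nonneg hX)
  refine (norm_sum_le _ _).trans ?_
  refine Finset.sum_le_sum fun i _ => ?_
  rw [norm_mul, Complex.norm_real, Real.norm_of_nonneg (hX i).le]
  exact mul_le_of_le_one_right (hX i).le (hz i)

/-- `T · D = ∑ X_i z_i`. -/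
theorem TT_mul_DD {n : ℕ} (z : Fin n → ℂ) {X : Fin n → ℝ} (hX : ∀ i, 0 < X i) :
    (TT X : ℂ) * DD z X = ∑ i, (X i : ℂ) * z i := by
  cases n with
  | zero => simp [TT, DD]
  | succ n =>
    unfold DD
    have : (TT X : ℂ) ≠ 0 := by exact_mod_cast (TT_pos hX).ne'
    field_simp

theorem DD_ins {n : ℕ} (z : Fin (n + 1) → ℂ) (i : Fin (n + 1)) (x : ℝ) {y : Fin n → ℝ}
    (hy : ∀ j, 0 < y j) :
    DD z (ins i x y) =
      ((x : ℂ) * z i + (TT y : ℂ) * DD (fun j => z (i.succAbove j)) y) / ((x + TT y : ℝ) : ℂ) := by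
  rw [TT_mul_DD _ hy]
  unfold DD
  rw [TT_ins, Fin.sum_univ_succAbove _ i, ins_same]
  congr 2
  exact Finset.sum_congr rfl fun j _ => by rw [ins_succAbove]

/-- `∑ X_i (z_i - D) = 0`. -/
theorem sum_mul_sub {n : ℕ} (z : Fin n → ℂ) {X : Fin n → ℝ} (hX : ∀ i, 0 < X i) :
    ∑ i, ((X i / TT X : ℝ) : ℂ) * (z i - DD z X) = 0 := by
  cases n with
  | zero => simp
  | succ n =>
    have hT : (TT X : ℂ) ≠ 0 := by exact_mod_cast (TT_pos hX).ne'
    have h1 := TT_mul_DD z hX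
    have h2 : (TT X : ℂ) = ∑ i, (X i : ℂ) := by unfold TT; push_cast; rfl
    have h3 : ∑ i, ((X i / TT X : ℝ) : ℂ) * (z i - DD z X) =
        (∑ i, (X i : ℂ) * (z i - DD z X)) / (TT X : ℂ) := by
      rw [Finset.sum_div]
      refine Finset.sum_congr rfl fun i _ => ?_
      push_cast
      ring
    rw [h3]
    simp only [mul_sub]
    rw [Finset.sum_sub_distrib, ← Finset.sum_mul, ← h1, ← h2, sub_self, zero_div]

theorem measurable_TT (n : ℕ) : Measurable (fun X : Fin n → ℝ => TT X) := by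
  unfold TT
  exact Finset.measurable_sum _ fun i _ => measurable_pi_apply i

theorem measurable_DD {n : ℕ} (z : Fin n → ℂ) : Measurable (fun X : Fin n → ℝ => DD z X) := by
  unfold DD
  refine Measurable.div ?_ (Complex.measurable_ofReal.comp (measurable_TT n))
  exact Finset.measurable_sum _ fun i _ =>
    (Complex.measurable_ofReal.comp (measurable_pi_apply i)).mul_const _

end Pool.Agent.HHalf
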