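import Pool.Agent.HHalf.MDD

set_option autoImplicit false

namespace Pool.Agent.HHalf

open MeasureTheory Set Filter Topology

/-- Quotient rule on `DD_ins`. -/
theorem hasDerivAt_DD {n : ℕ} (z : Fin (n + 1) → ℂ) (i : Fin (n + 1)) {y : Fin n → ℝ}
    (hy : ∀ j, 0 < y j) {x : ℝ} (hx : 0 < x) :
    HasDerivAt (fun x : ℝ => DD z (ins i x y))
      ((z i - DD z (ins i x y)) / ((TT (ins i x y) : ℝ) : ℂ)) x := by
  have hT : 0 < x + TT y := add_pos_of_pos_of_nonneg hx (TT_nonneg hy)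
  have hTC : ((x + TT y : ℝ) : ℂ) ≠ 0 := by exact_mod_cast hT.ne'
  have e : (fun x : ℝ => DD z (ins i x y)) = fun x : ℝ =>
      ((x : ℂ) * z i + (TT y : ℂ) * DD (fun j => z (i.succAbove j)) y) / ((x + TT y : ℝ) : ℂ) := by
    funext x
    exact DD_ins z i x hy
  have h1 : HasDerivAt (fun x : ℝ => (x : ℂ) * z i + (TT y : ℂ) *
      DD (fun j => z (i.succAbove j)) y) (z i) x := by
    have h := ((Complex.ofRealCLM.hasDerivAt (x := x)).mul_const (z i)).add_const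
      ((TT y : ℂ) * DD (fun j => z (i.succAbove j)) y)
    simpa using h
  have h2 : HasDerivAt (fun x : ℝ => ((x + TT y : ℝ) : ℂ)) 1 x := by
    have h := (Complex.ofRealCLM.hasDerivAt (x := x)).add_const ((TT y : ℝ) : ℂ)
    simpa using h
  have h3 := h1.div h2 hTC
  rw [e]
  refine h3.congr_deriv ?_
  rw [DD_ins z i x hy, TT_ins]
  field_simp

/-- For at least one remaining coordinate, `TT y > 0`, so `DD_ins` is continuous at `x = 0`. -/
theorem tendsto_DD {n : ℕ} (z : Fin (n + 2) → ℂ) (i : Fin (n + 2)) {y : Fin (n + 1) → ℝ}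
    (hy : ∀ j, 0 < y j) :
    Tendsto (fun x : ℝ => DD z (ins i x y)) (𝓝[>] 0) (𝓝 (DD (fun j => z (i.succAbove j)) y)) := by
  have hT : 0 < TT y := TT_pos hy
  have hTC : (((0 : ℝ) + TT y : ℝ) : ℂ) ≠ 0 := by
    rw [zero_add]
    exact_mod_cast hT.ne'
  have e : (fun x : ℝ => DD z (ins i x y)) = fun x : ℝ =>
      ((x : ℂ) * z i + (TT y : ℂ) * DD (fun j => z (i.succAbove j)) y) / ((x + TT y : ℝ) : ℂ) := by
    funext x
    exact DD_ins z i x hy
  rw [e]
  have hc : ContinuousAt (fun x : ℝ =>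
      ((x : ℂ) * z i + (TT y : ℂ) * DD (fun j => z (i.succAbove j)) y) /
        ((x + TT y : ℝ) : ℂ)) 0 := by
    apply ContinuousAt.div
    · fun_prop
    · fun_prop
    · exact hTC
  have h0 := hc.tendsto.mono_left (nhdsWithin_le_nhds (s := Ioi (0 : ℝ)))
  have hv : (((0 : ℝ) : ℂ) * z i + (TT y : ℂ) * DD (fun j => z (i.succAbove j)) y) /
      (((0 : ℝ) + TT y : ℝ) : ℂ) = DD (fun j => z (i.succAbove j)) y := by
    have hTC' : ((TT y : ℝ) : ℂ) ≠ 0 := by exact_mod_cast hT.ne'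
    rw [zero_add, Complex.ofReal_zero, zero_mul, zero_add]
    field_simp
  rw [hv] at h0
  exact h0

/-- Chain rule for an entire `g`. -/
theorem hasDerivAt_gDD {n : ℕ} (z : Fin (n + 1) → ℂ) (i : Fin (n + 1)) {y : Fin n → ℝ}
    (hy : ∀ j, 0 < y j) {x : ℝ} (hx : 0 < x) {g : ℂ → ℂ} (hg : Differentiable ℂ g) :
    HasDerivAt (fun x : ℝ => g (DD z (ins i x y)))
      (deriv g (DD z (ins i x y)) *
        ((z i - DD z (ins i x y)) / ((TT (ins i x y) : ℝ) : ℂ))) x :=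
  HasDerivAt.comp x (hg (DD z (ins i x y))).hasDerivAt (hasDerivAt_DD z i hy hx)

end Pool.Agent.HHalf
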