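import Pool.Agent.HHalf.MMu
import Pool.Agent.HHalf.MDD

set_option autoImplicit false

namespace Pool.Agent.HHalf

open MeasureTheory Set Filter Topology

/-- A continuous function is bounded on the closed unit disc. -/
theorem bd_disc {g : ℂ → ℂ} (hg : Continuous g) : ∃ K : ℝ, 0 ≤ K ∧ ∀ w : ℂ, ‖w‖ ≤ 1 → ‖g w‖ ≤ K := by
  have hc : IsCompact (Metric.closedBall (0 : ℂ) 1) := isCompact_closedBall 0 1
  obtain ⟨K, hK⟩ := hc.exists_bound_of_continuousOn hg.continuousOn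
  refine ⟨max K 0, le_max_right _ _, fun w hw => ?_⟩
  refine (hK w ?_).trans (le_max_left _ _)
  simpa [Metric.mem_closedBall, dist_zero_right] using hw

theorem aesm_g {n : ℕ} (z : Fin n → ℂ) {g : ℂ → ℂ} (hg : Continuous g) :
    AEStronglyMeasurable (fun X : Fin n → ℝ => g (DD z X)) (mu n) :=
  (hg.measurable.comp (measurable_DD z)).aestronglyMeasurable

theorem int_g {n : ℕ} {z : Fin n → ℂ} (hz : ∀ i, ‖z i‖ ≤ 1) {g : ℂ → ℂ} (hg : Continuous g) :
    Integrable (fun X : Fin n → ℝ => g (DD z X)) (mu n) := by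
  obtain ⟨K, hK0, hK⟩ := bd_disc hg
  refine integrable_of_bd (A := K) (aesm_g z hg) fun X hX => ?_
  have h1 := hK _ (norm_DD_le hz hX)
  have h2 := TT_nonneg hX
  nlinarith

theorem int_xg {n : ℕ} {z : Fin n → ℂ} (hz : ∀ i, ‖z i‖ ≤ 1) {g : ℂ → ℂ} (hg : Continuous g)
    (j : Fin n) : Integrable (fun X : Fin n → ℝ => ((X j : ℝ) : ℂ) * g (DD z X)) (mu n) := by
  obtain ⟨K, hK0, hK⟩ := bd_disc hg
  refine integrable_of_bd (A := K) ?_ fun X hX => ?_
  · refine AEStronglyMeasurable.mul ?_ (aesm_g z hg)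
    exact (Complex.measurable_ofReal.comp (measurable_pi_apply j)).aestronglyMeasurable
  · have h1 := hK _ (norm_DD_le hz hX)
    have h2 := TT_nonneg hX
    have h3 := coord_le_TT hX j
    have h4 := hX j
    rw [norm_mul, Complex.norm_real, Real.norm_eq_abs, abs_of_pos h4]
    calc X j * ‖g (DD z X)‖ ≤ TT X * K := mul_le_mul h3 h1 (norm_nonneg _) h2
      _ ≤ K * (1 + TT X) := by nlinarith

theorem int_Tg {n : ℕ} {z : Fin n → ℂ} (hz : ∀ i, ‖z i‖ ≤ 1) {g : ℂ → ℂ} (hg : Continuous g) :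
    Integrable (fun X : Fin n → ℝ => ((TT X : ℝ) : ℂ) * g (DD z X)) (mu n) := by
  obtain ⟨K, hK0, hK⟩ := bd_disc hg
  refine integrable_of_bd (A := K) ?_ fun X hX => ?_
  · refine AEStronglyMeasurable.mul ?_ (aesm_g z hg)
    exact (Complex.measurable_ofReal.comp (measurable_TT n)).aestronglyMeasurable
  · have h1 := hK _ (norm_DD_le hz hX)
    have h2 := TT_nonneg hX
    rw [norm_mul, Complex.norm_real, Real.norm_eq_abs, abs_of_nonneg h2]
    calc TT X * ‖g (DD z X)‖ ≤ TT X * K := mul_le_mul_of_nonneg_left h1 h2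
      _ ≤ K * (1 + TT X) := by nlinarith

theorem int_rg {n : ℕ} {z : Fin n → ℂ} (hz : ∀ i, ‖z i‖ ≤ 1) {g : ℂ → ℂ} (hg : Continuous g)
    (i j : Fin n) : Integrable (fun X : Fin n → ℝ =>
      ((X j / TT X : ℝ) : ℂ) * (z i - DD z X) * g (DD z X)) (mu n) := by
  obtain ⟨K, hK0, hK⟩ := bd_disc hg
  refine integrable_of_bd (A := 2 * K) ?_ fun X hX => ?_
  · refine AEStronglyMeasurable.mul (AEStronglyMeasurable.mul ?_ ?_) (aesm_g z hg)
    · exact (Complex.measurable_ofReal.comp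
        ((measurable_pi_apply j).div (measurable_TT n))).aestronglyMeasurable
    · exact (measurable_const.sub (measurable_DD z)).aestronglyMeasurable
  · have hD := norm_DD_le hz hX
    have h1 := hK _ hD
    have h2 := TT_nonneg hX
    have h3 := coord_le_TT hX j
    have h4 := hX j
    have hT : 0 < TT X := lt_of_lt_of_le h4 h3
    have h5 : ‖((X j / TT X : ℝ) : ℂ)‖ ≤ 1 := by
      rw [Complex.norm_real, Real.norm_eq_abs, abs_of_nonneg (div_nonneg h4.le h2)]
      exact div_le_one_of_le₀ h3 h2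
    have h6 : ‖z i - DD z X‖ ≤ 2 := by
      calc ‖z i - DD z X‖ ≤ ‖z i‖ + ‖DD z X‖ := norm_sub_le _ _
        _ ≤ 2 := by linarith [hz i]
    rw [norm_mul, norm_mul]
    have h7 : ‖((X j / TT X : ℝ) : ℂ)‖ * ‖z i - DD z X‖ ≤ 1 * 2 :=
      mul_le_mul h5 h6 (norm_nonneg _) zero_le_one
    calc ‖((X j / TT X : ℝ) : ℂ)‖ * ‖z i - DD z X‖ * ‖g (DD z X)‖ ≤ (1 * 2) * K :=
          mul_le_mul h7 h1 (norm_nonneg _) (by norm_num)
      _ ≤ 2 * K * (1 + TT X) := by nlinarith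

end Pool.Agent.HHalf
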