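import Pool.Agent.HHalf.MIbp
import Pool.Agent.HHalf.MDeriv
import Pool.Agent.HHalf.MInt

set_option autoImplicit false

namespace Pool.Agent.HHalf

open MeasureTheory Set Filter Topology

/-- `E[X_l g(D)] = E[y_j g(D')] + E[(X_l/T)(z_i - D) g'(D)]`, `l = i.succAbove j ≠ i`: `ibp` in the
coordinate `i` with `f = X_l g(D)`, `f0 y = y_j g(DD z' y)` (`tendsto_DD`),
`f' = X_l g'(D) (z_i - D)/T` (`hasDerivAt_gDD`). -/
theorem ibpne {n : ℕ} {z : Fin (n + 2) → ℂ} (hz : ∀ i, ‖z i‖ ≤ 1) {g : ℂ → ℂ}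
    (hg : Differentiable ℂ g) (i : Fin (n + 2)) (j : Fin (n + 1)) :
    ∫ X, ((X (i.succAbove j) : ℝ) : ℂ) * g (DD z X) ∂mu (n + 2) =
      ∫ y, ((y j : ℝ) : ℂ) * g (DD (fun l => z (i.succAbove l)) y) ∂mu (n + 1) +
      ∫ X, ((X (i.succAbove j) / TT X : ℝ) : ℂ) * (z i - DD z X) * deriv g (DD z X) ∂mu (n + 2) := by
  have hg0 : Continuous g := hg.continuous
  have hg1 : Continuous (deriv g) := (hg.contDiff (n := 1)).continuous_deriv le_rfl
  obtain ⟨K, hK0, hK⟩ := bd_disc hg0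
  obtain ⟨L, hL0, hL⟩ := bd_disc hg1
  have i2 := int_rg hz hg1 i (i.succAbove j) (n := n + 2)
  have i3 := int_xg hz hg0 (i.succAbove j) (n := n + 2)
  refine ibp i (f := fun X => ((X (i.succAbove j) : ℝ) : ℂ) * g (DD z X))
    (f' := fun X =>
      ((X (i.succAbove j) / TT X : ℝ) : ℂ) * (z i - DD z X) * deriv g (DD z X))
    (f0 := fun y => ((y j : ℝ) : ℂ) * g (DD (fun l => z (i.succAbove l)) y))
    (A := K + 2 * L) (by positivity) i3.aestronglyMeasurable
    i2.aestronglyMeasurable ?_ ?_ ?_ ?_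
  · intro X hX
    have hD := norm_DD_le hz hX
    have h1 : ‖((X (i.succAbove j) : ℝ) : ℂ)‖ = X (i.succAbove j) := by
      rw [Complex.norm_real, Real.norm_eq_abs, abs_of_pos (hX _)]
    rw [norm_mul, h1]
    have h2 := hK _ hD
    have h3 := coord_le_TT hX (i.succAbove j)
    have h4 := (hX (i.succAbove j)).le
    calc X (i.succAbove j) * ‖g (DD z X)‖ ≤ TT X * K := mul_le_mul h3 h2 (norm_nonneg _) (h4.trans h3)
      _ ≤ (K + 2 * L) * (1 + TT X) := by nlinarith [h4.trans h3]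
  · intro X hX
    have hD := norm_DD_le hz hX
    have hT : 0 < TT X := TT_pos hX
    have h1 : ‖((X (i.succAbove j) / TT X : ℝ) : ℂ)‖ ≤ 1 := by
      rw [Complex.norm_real, Real.norm_eq_abs, abs_of_nonneg (div_nonneg (hX _).le hT.le),
        div_le_one hT]
      exact coord_le_TT hX _
    have h2 : ‖z i - DD z X‖ ≤ 2 := by
      calc ‖z i - DD z X‖ ≤ ‖z i‖ + ‖DD z X‖ := norm_sub_le _ _
        _ ≤ 2 := by linarith [hz i]
    have h3 := hL _ hD
    calc ‖((X (i.succAbove j) / TT X : ℝ) : ℂ) * (z i - DD z X) * deriv g (DD z X)‖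
        = ‖((X (i.succAbove j) / TT X : ℝ) : ℂ)‖ * ‖z i - DD z X‖ * ‖deriv g (DD z X)‖ := by
          rw [norm_mul, norm_mul]
      _ ≤ 1 * 2 * L := by gcongr
      _ ≤ (K + 2 * L) * (1 + TT X) := by nlinarith
  · intro y hy x hx
    have hT : 0 < TT (ins i x y) := TT_pos (ins_pos i hx hy)
    have h2 := (hasDerivAt_gDD z i hy hx hg).const_mul (((y j : ℝ)) : ℂ)
    have e : (fun x : ℝ => (((ins i x y) (i.succAbove j) : ℝ) : ℂ) * g (DD z (ins i x y))) =
        fun x : ℝ => ((y j : ℝ) : ℂ) * g (DD z (ins i x y)) := by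
      funext t
      simp only [ins_succAbove]
    show HasDerivAt (fun x : ℝ => (((ins i x y) (i.succAbove j) : ℝ) : ℂ) * g (DD z (ins i x y))) _ x
    rw [e]
    refine h2.congr_deriv ?_
    simp only [ins_succAbove]
    push_cast
    ring
  · intro y hy
    have h1 := (hg0.tendsto (DD (fun j => z (i.succAbove j)) y)).comp (tendsto_DD z i hy)
    have h2 := h1.const_mul (((y j : ℝ)) : ℂ)
    refine h2.congr ?_
    intro x
    simp only [ins_succAbove, Function.comp_apply]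

end Pool.Agent.HHalf
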