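import Pool.Agent.HHalf.MIbpx
import Pool.Agent.HHalf.MIbpne

set_option autoImplicit false

namespace Pool.Agent.HHalf

open MeasureTheory Set Filter Topology

/-- Doubling the node `z_j` is a size bias: `E_{n+2}[g(D_{(z_j, z)})] = E_{n+1}[X_j g(D_z)]`.
`ibpx` at the coordinate `j.succ` and `ibpne` at the coordinate `0` for the function
`X_{j+1} g(D)`; both nodes are `z_j`, so the derivative terms agree. -/
theorem size {n : ℕ} {z : Fin (n + 1) → ℂ} (hz : ∀ i, ‖z i‖ ≤ 1) {g : ℂ → ℂ}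
    (hg : Differentiable ℂ g) (j : Fin (n + 1)) :
    ∫ X, g (DD (Fin.cons (z j) z : Fin (n + 2) → ℂ) X) ∂mu (n + 2) =
      ∫ X, ((X j : ℝ) : ℂ) * g (DD z X) ∂mu (n + 1) := by
  have hz' : ∀ i, ‖(Fin.cons (z j) z : Fin (n + 2) → ℂ) i‖ ≤ 1 := by
    intro i
    refine Fin.cases ?_ (fun l => ?_) i
    · simpa using hz j
    · simpa using hz l
  have h1 := ibpx hz' hg j.succ
  have h2 := ibpne hz' hg 0 j
  rw [Fin.succAbove_zero] at h2
  simp only [Fin.cons_succ, Fin.cons_zero] at h1 h2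
  rw [h1] at h2
  exact add_right_cancel h2

end Pool.Agent.HHalf
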