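import Pool.Agent.HHalf.MRem
import Pool.Agent.HHalf.MSize
import Pool.Agent.ConjInterp.Core

set_option autoImplicit false

namespace Pool.Agent.HHalf

open MeasureTheory Set Filter Topology Pool.Agent.ConjInterp

theorem entire_prod_mul {m : ℕ} (c : Fin m → ℂ) {h : ℂ → ℂ} (hh : Differentiable ℂ h) :
    Differentiable ℂ (fun w => (∏ i : Fin m, (w - c i)) * h w) := by
  refine Differentiable.mul ?_ hh
  refine Differentiable.fun_finsetProd (fun i _ => ?_)
  exact differentiable_id.sub_const _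

/-- Hermite-Genocchi for functions divisible by the nodes `z_1, ..., z_m`:
`E_{m+1}[((∏_{i<m} (w - z_{i+1})) h)^{(m)}(D)] = m! h(z_0)`. Induction on `m`.
`m = 0`: `D = z_0` a.e. Step: with `Q = (∏_{i<m} (w - z_{i+1})) h` over the first `m` of the `m+1`
nodes (`Fin.prod_univ_castSucc`), the `(m+1)`-st derivative of `(w - z_last) Q` is
`(w - z_last) Q^{(m+1)} + (m+1) Q^{(m)}` (`ConjInterp.iter_lin_succ`), so `rem` with
`g = iteratedDeriv m Q`, `i = Fin.last _`, gives `(m+1) E[Q^{(m)}(D')]`, where `D'` has the nodes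
`z_0, ..., z_m` (`Fin.succAbove_last`); induction hypothesis. -/
theorem hg (m : ℕ) : ∀ (z : Fin (m + 1) → ℂ), (∀ i, ‖z i‖ ≤ 1) → ∀ h : ℂ → ℂ, Differentiable ℂ h →
    ∫ X, iteratedDeriv m (fun w => (∏ i : Fin m, (w - z i.succ)) * h w) (DD z X) ∂mu (m + 1) =
      (m.factorial : ℂ) * h (z 0) := by
  induction m with
  | zero =>
    intro z hz h hh
    have hae : (fun X : Fin (0 + 1) → ℝ =>
        iteratedDeriv 0 (fun w => (∏ i : Fin 0, (w - z i.succ)) * h w) (DD z X)) =ᵐ[mu (0 + 1)]
        fun _ => h (z 0) := by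
      filter_upwards [mu_pos (0 + 1)] with X hX
      have h0 : ((X 0 : ℝ) : ℂ) ≠ 0 := by exact_mod_cast (hX 0).ne'
      have hD : DD z X = z 0 := by
        unfold DD TT
        rw [Fin.sum_univ_one, Fin.sum_univ_one]
        field_simp
      rw [iteratedDeriv_zero, hD]
      simp
    rw [integral_congr_ae hae]
    simp
  | succ m ih =>
    intro z hz h hh
    set Q : ℂ → ℂ := fun w => (∏ i : Fin m, (w - z i.castSucc.succ)) * h w with hQ
    have hQd : Differentiable ℂ Q := entire_prod_mul (fun i => z i.castSucc.succ) hh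
    have hf : (fun w => (∏ i : Fin (m + 1), (w - z i.succ)) * h w) =
        fun w => (w - z (Fin.last (m + 1))) * Q w := by
      funext w
      rw [Fin.prod_univ_castSucc, Fin.succ_last, hQ]
      ring
    have hgd : Differentiable ℂ (iteratedDeriv m Q) := entire_iteratedDeriv hQd m
    have hrem := rem hz hgd (Fin.last (m + 1))
    have h1 : ∀ X : Fin (m + 2) → ℝ,
        iteratedDeriv (m + 1) (fun w => (∏ i : Fin (m + 1), (w - z i.succ)) * h w) (DD z X) =
        (DD z X - z (Fin.last (m + 1))) * deriv (iteratedDeriv m Q) (DD z X) +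
          ((m + 1 : ℕ) : ℂ) * iteratedDeriv m Q (DD z X) := by
      intro X
      rw [hf, iter_lin_succ _ m hQd, iteratedDeriv_succ]
      push_cast
      ring
    simp only [h1]
    rw [hrem]
    have hz' : ∀ i : Fin (m + 1), ‖z ((Fin.last (m + 1)).succAbove i)‖ ≤ 1 := fun i => hz _
    have hi := ih (fun l => z ((Fin.last (m + 1)).succAbove l)) hz' h hh
    have hQ' : (fun w => (∏ i : Fin m, (w - z ((Fin.last (m + 1)).succAbove i.succ))) * h w) = Q := by
      funext w
      rw [hQ]
      simp only [Fin.succAbove_last_apply, Fin.succ_castSucc]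
    rw [hQ'] at hi
    rw [hi]
    have h0 : (Fin.last (m + 1)).succAbove 0 = 0 := by
      rw [Fin.succAbove_last_apply]; rfl
    rw [h0, Nat.factorial_succ]
    push_cast
    ring

/-- With the node list `(z_j, z_0, ..., z_n)`: `hg (n+1)` for `Fin.cons (z j) z` and `size`. -/
theorem hgj {n : ℕ} {z : Fin (n + 1) → ℂ} (hz : ∀ i, ‖z i‖ ≤ 1) {h : ℂ → ℂ}
    (hh : Differentiable ℂ h) (j : Fin (n + 1)) :
    ∫ X, ((X j : ℝ) : ℂ) *
        iteratedDeriv (n + 1) (fun w => (∏ i, (w - z i)) * h w) (DD z X) ∂mu (n + 1) =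
      ((n + 1).factorial : ℂ) * h (z j) := by
  have hgd : Differentiable ℂ (iteratedDeriv (n + 1) (fun w => (∏ i, (w - z i)) * h w)) :=
    entire_iteratedDeriv (entire_prod_mul z hh) (n + 1)
  rw [← size hz hgd j]
  have hz' : ∀ i : Fin (n + 2), ‖(Fin.cons (z j) z : Fin (n + 2) → ℂ) i‖ ≤ 1 := by
    intro i
    refine Fin.cases ?_ (fun i => ?_) i
    · rw [Fin.cons_zero]; exact hz j
    · rw [Fin.cons_succ]; exact hz i
  have h1 := hg (n + 1) (Fin.cons (z j) z : Fin (n + 2) → ℂ) hz' h hh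
  simp only [Fin.cons_succ, Fin.cons_zero] at h1
  exact h1

end Pool.Agent.HHalf
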