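import Pool.Agent.HHalf.MIbpx

set_option autoImplicit false

namespace Pool.Agent.HHalf

open MeasureTheory Set Filter Topology

/-- `E[T g(D)] = n E[g(D)]` (`n` the number of coordinates): sum `ibpx` over `i`; the derivative
terms cancel by `sum_mul_sub` (almost everywhere, `mu_pos`). -/
theorem hom {n : ℕ} {z : Fin (n + 1) → ℂ} (hz : ∀ i, ‖z i‖ ≤ 1) {g : ℂ → ℂ}
    (hg : Differentiable ℂ g) :
    ∫ X, ((TT X : ℝ) : ℂ) * g (DD z X) ∂mu (n + 1) =
      ((n + 1 : ℕ) : ℂ) * ∫ X, g (DD z X) ∂mu (n + 1) := by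
  have hd : Continuous (deriv g) := (hg.contDiff (n := 1)).continuous_deriv le_rfl
  have h1 : ∀ X : Fin (n + 1) → ℝ, ((TT X : ℝ) : ℂ) * g (DD z X)
      = ∑ i, ((X i : ℝ) : ℂ) * g (DD z X) := by
    intro X
    rw [TT, Complex.ofReal_sum, Finset.sum_mul]
  have h2 : ∀ᵐ X ∂mu (n + 1), ∑ i, ((X i / TT X : ℝ) : ℂ) * (z i - DD z X) * deriv g (DD z X)
      = 0 := by
    filter_upwards [mu_pos (n + 1)] with X hX
    rw [← Finset.sum_mul, sum_mul_sub z hX, zero_mul]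
  have h3 : ∑ i : Fin (n + 1),
      ∫ X, ((X i / TT X : ℝ) : ℂ) * (z i - DD z X) * deriv g (DD z X) ∂mu (n + 1) = 0 := by
    rw [← integral_finsetSum _ (fun i _ => int_rg hz hd i i)]
    rw [integral_congr_ae h2]
    simp
  calc ∫ X, ((TT X : ℝ) : ℂ) * g (DD z X) ∂mu (n + 1)
      = ∫ X, ∑ i, ((X i : ℝ) : ℂ) * g (DD z X) ∂mu (n + 1) := by
        congr 1
        funext X
        exact h1 X
    _ = ∑ i, ∫ X, ((X i : ℝ) : ℂ) * g (DD z X) ∂mu (n + 1) :=
        integral_finsetSum _ (fun i _ => int_xg hz hg.continuous i)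
    _ = ∑ i : Fin (n + 1), (∫ X, g (DD z X) ∂mu (n + 1) +
          ∫ X, ((X i / TT X : ℝ) : ℂ) * (z i - DD z X) * deriv g (DD z X) ∂mu (n + 1)) :=
        Finset.sum_congr rfl fun i _ => ibpx hz hg i
    _ = ((n + 1 : ℕ) : ℂ) * ∫ X, g (DD z X) ∂mu (n + 1) := by
        rw [Finset.sum_add_distrib, h3, add_zero, Finset.sum_const, Finset.card_univ,
          Fintype.card_fin, nsmul_eq_mul]

end Pool.Agent.HHalf
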