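import Pool.Agent.HHalf.MNu

set_option autoImplicit false

namespace Pool.Agent.HHalf

open MeasureTheory Set Filter Topology

/-- One-dimensional integration by parts for the exponential law:
`∫ f dν = f(0+) + ∫ f' dν`.
Proof: `G(x) = e^{-x} f(x)` for `x > 0` and `G(0) = f0` (`Function.update`) is continuous at `0`
from the right, `G' = e^{-x} (f' - f)` is integrable on `(0,∞)` (`f` is continuous on `(0,∞)`,
hence measurable, and bounded by `A (1 + x)`), `G → 0` at `∞`; so
`∫ e^{-x} (f' - f) = - f0` (`integral_Ioi_of_hasDerivAt_of_tendsto`). -/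
theorem ibp1 {f f' : ℝ → ℂ} {f0 : ℂ} {A : ℝ}
    (hd : ∀ x, 0 < x → HasDerivAt f (f' x) x)
    (h0 : Tendsto f (𝓝[>] 0) (𝓝 f0))
    (hb : ∀ x, 0 < x → ‖f x‖ ≤ A * (1 + x))
    (hi : Integrable f' nu) :
    ∫ x, f x ∂nu = f0 + ∫ x, f' x ∂nu := by
  have hi' := (integrable_nu_iff f').1 hi
  have hexpd : ∀ x : ℝ, HasDerivAt (fun x : ℝ => ((Real.exp (-x) : ℝ) : ℂ))
      (-((Real.exp (-x) : ℝ) : ℂ)) x := by
    intro x
    have h1 : HasDerivAt (fun x : ℝ => Real.exp (-x)) (Real.exp (-x) * (-1)) x :=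
      (hasDerivAt_neg x).exp
    have h2 := h1.ofReal_comp
    simpa using h2
  -- integrability of `e^{-x} f`
  have hpos := nu_pos
  have hfi : IntegrableOn (fun x : ℝ => ((Real.exp (-x) : ℝ) : ℂ) * f x) (Ioi 0) := by
    have hcont : ContinuousOn (fun x : ℝ => ((Real.exp (-x) : ℝ) : ℂ) * f x) (Ioi 0) := by
      intro x hx
      exact ((hexpd x).continuousAt.mul (hd x hx).continuousAt).continuousWithinAt
    have hmeas := hcont.aestronglyMeasurable (μ := volume) measurableSet_Ioi
    have hfa : Integrable (fun x : ℝ => ((A * (1 + x) : ℝ) : ℂ)) nu := by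
      have h1 : Integrable (fun x : ℝ => A * (1 + x)) nu :=
        ((integrable_const (1:ℝ)).add integrable_nu_id).const_mul A
      exact h1.ofReal
    have h2 := (integrable_nu_iff _).1 hfa
    refine Integrable.mono h2 hmeas ?_
    refine (ae_restrict_iff' measurableSet_Ioi).2 (Filter.Eventually.of_forall ?_)
    intro x hx
    rw [norm_mul, norm_mul]
    refine mul_le_mul_of_nonneg_left ?_ (norm_nonneg _)
    rw [Complex.norm_real]
    exact (hb x hx).trans (le_abs_self _)
  let G : ℝ → ℂ := Function.update (fun x : ℝ => ((Real.exp (-x) : ℝ) : ℂ) * f x) 0 f0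
  have hGe : ∀ x : ℝ, 0 < x → G x = ((Real.exp (-x) : ℝ) : ℂ) * f x := by
    intro x hx
    simp only [G]
    rw [Function.update_of_ne hx.ne']
  have hG0 : G 0 = f0 := by simp [G]
  have hGd : ∀ x ∈ Ioi (0:ℝ), HasDerivAt G
      (((Real.exp (-x) : ℝ) : ℂ) * f' x - ((Real.exp (-x) : ℝ) : ℂ) * f x) x := by
    intro x hx
    have h1 := (hexpd x).mul (hd x hx)
    have h2 : HasDerivAt (fun x : ℝ => ((Real.exp (-x) : ℝ) : ℂ) * f x)
        (((Real.exp (-x) : ℝ) : ℂ) * f' x - ((Real.exp (-x) : ℝ) : ℂ) * f x) x := by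
      have e : ((Real.exp (-x) : ℝ) : ℂ) * f' x - ((Real.exp (-x) : ℝ) : ℂ) * f x =
          -((Real.exp (-x) : ℝ) : ℂ) * f x + ((Real.exp (-x) : ℝ) : ℂ) * f' x := by ring
      rw [e]
      exact h1
    refine h2.congr_of_eventuallyEq ?_
    filter_upwards [Ioi_mem_nhds (show (0:ℝ) < x from hx)] with y hy
    exact hGe y hy
  have hGc : ContinuousWithinAt G (Ici 0) 0 := by
    rw [← continuousWithinAt_Ioi_iff_Ici]
    unfold ContinuousWithinAt
    rw [hG0]
    have h1 : Tendsto (fun x : ℝ => ((Real.exp (-x) : ℝ) : ℂ) * f x) (𝓝[>] 0) (𝓝 f0) := by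
      have h2 : Tendsto (fun x : ℝ => ((Real.exp (-x) : ℝ) : ℂ)) (𝓝[>] 0) (𝓝 1) := by
        have h3 := (hexpd 0).continuousAt.tendsto
        simp only [neg_zero, Real.exp_zero, Complex.ofReal_one] at h3
        exact h3.mono_left nhdsWithin_le_nhds
      simpa using h2.mul h0
    refine h1.congr' ?_
    filter_upwards [self_mem_nhdsWithin] with y hy
    exact (hGe y hy).symm
  have hGt : Tendsto G atTop (𝓝 0) := by
    have h1 : Tendsto (fun x : ℝ => A * (1 + x) * Real.exp (-x)) atTop (𝓝 0) := by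
      have h2 := Real.tendsto_pow_mul_exp_neg_atTop_nhds_zero 0
      have h3 := Real.tendsto_pow_mul_exp_neg_atTop_nhds_zero 1
      have h4 := (h2.add h3).const_mul A
      simp only [pow_zero, one_mul, pow_one, add_zero, mul_zero] at h4
      refine h4.congr ?_
      intro x
      ring
    rw [tendsto_zero_iff_norm_tendsto_zero]
    refine squeeze_zero' (Filter.Eventually.of_forall fun x => norm_nonneg _) ?_ h1
    filter_upwards [Ioi_mem_atTop (0:ℝ)] with x hx
    rw [hGe x hx, norm_mul, Complex.norm_real, Real.norm_of_nonneg (Real.exp_nonneg _), mul_comm]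
    exact mul_le_mul_of_nonneg_right (hb x hx) (Real.exp_nonneg _)
  have hkey := integral_Ioi_of_hasDerivAt_of_tendsto hGc hGd (hi'.sub hfi) hGt
  rw [integral_sub hi' hfi, hG0] at hkey
  rw [integral_nu, integral_nu]
  linear_combination -hkey

end Pool.Agent.HHalf
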