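import Pool.Agent.HHalf.MSplit
import Pool.Agent.HHalf.MIbp1

set_option autoImplicit false

namespace Pool.Agent.HHalf

open MeasureTheory Set Filter Topology

/-- Integration by parts in the coordinate `i` (`mu_split`, `mu_split_ae`, `ibp1`, `mu_pos`):
for almost every `y` (all coordinates positive, `f'` section integrable) `ibp1` applied to
`x ↦ f (ins i x y)` gives `∫ f dν - ∫ f' dν = f0 y`; integrate in `y`
(`∫ f - ∫ f' = ∫ (f - f')` and `mu_split` for `f - f'`; no measurability of `f0` is needed). The bound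
for `ibp1`: `‖f (ins i x y)‖ ≤ A (1 + x + TT y) ≤ A (1 + TT y) (1 + x)`. -/
theorem ibp {n : ℕ} (i : Fin (n + 1)) {f f' : (Fin (n + 1) → ℝ) → ℂ} {f0 : (Fin n → ℝ) → ℂ}
    {A : ℝ} (hA : 0 ≤ A)
    (hfm : AEStronglyMeasurable f (mu (n + 1))) (hfm' : AEStronglyMeasurable f' (mu (n + 1)))
    (hb : ∀ X, (∀ i, 0 < X i) → ‖f X‖ ≤ A * (1 + TT X))
    (hb' : ∀ X, (∀ i, 0 < X i) → ‖f' X‖ ≤ A * (1 + TT X))
    (hd : ∀ y : Fin n → ℝ, (∀ j, 0 < y j) → ∀ x, 0 < x →
      HasDerivAt (fun x => f (ins i x y)) (f' (ins i x y)) x)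
    (h0 : ∀ y : Fin n → ℝ, (∀ j, 0 < y j) → Tendsto (fun x => f (ins i x y)) (𝓝[>] 0) (𝓝 (f0 y))) :
    ∫ X, f X ∂mu (n + 1) = ∫ y, f0 y ∂mu n + ∫ X, f' X ∂mu (n + 1) := by
  have hi : Integrable f (mu (n + 1)) := integrable_of_bd hfm hb
  have hi' : Integrable f' (mu (n + 1)) := integrable_of_bd hfm' hb'
  have hkey : ∫ X, f X ∂mu (n + 1) - ∫ X, f' X ∂mu (n + 1) = ∫ y, f0 y ∂mu n := by
    rw [← integral_sub hi hi', mu_split i (f := fun X => f X - f' X) (hi.sub hi')]
    refine integral_congr_ae ?_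
    filter_upwards [mu_split_ae i hi, mu_split_ae i hi', mu_pos n] with y h1 h2 hy
    have hT : 0 ≤ TT y := Finset.sum_nonneg (fun j _ => (hy j).le)
    have hs := ibp1 (f := fun x => f (ins i x y)) (f' := fun x => f' (ins i x y)) (f0 := f0 y)
      (A := A * (1 + TT y)) (hd y hy) (h0 y hy) (by
        intro x hx
        have hpos : ∀ j, 0 < (ins i x y) j := by
          intro j
          refine Fin.succAboveCases i ?_ ?_ j
          · simpa [ins] using hx
          · intro k
            simpa [ins] using hy k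
        have hTT : TT (ins i x y) = x + TT y := by
          simp [TT, ins, Fin.sum_univ_succAbove _ i]
        have h3 := hb _ hpos
        rw [hTT] at h3
        refine h3.trans ?_
        rw [mul_assoc]
        refine mul_le_mul_of_nonneg_left ?_ hA
        nlinarith [mul_nonneg hT hx.le]) h2
    rw [integral_sub h1 h2, hs]
    ring
  rw [← hkey]
  ring

end Pool.Agent.HHalf
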