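import Pool.Agent.HHalf.MIbp
import Pool.Agent.HHalf.MDeriv
import Pool.Agent.HHalf.MInt

set_option autoImplicit false

namespace Pool.Agent.HHalf

open MeasureTheory Set Filter Topology

/-- `E[X_i g(D)] = E[g(D)] + E[(X_i/T)(z_i - D) g'(D)]`: `ibp` with
`f = X_i g(D)`, `f0 = 0` (since `‖x g(D)‖ ≤ K x`), `f' = g(D) + (X_i/T)(z_i - D) g'(D)`. -/
theorem ibpx {n : ℕ} {z : Fin (n + 1) → ℂ} (hz : ∀ i, ‖z i‖ ≤ 1) {g : ℂ → ℂ}
    (hg : Differentiable ℂ g) (i : Fin (n + 1)) :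
    ∫ X, ((X i : ℝ) : ℂ) * g (DD z X) ∂mu (n + 1) = ∫ X, g (DD z X) ∂mu (n + 1) +
      ∫ X, ((X i / TT X : ℝ) : ℂ) * (z i - DD z X) * deriv g (DD z X) ∂mu (n + 1) := by
  have hg0 : Continuous g := hg.continuous
  have hg1 : Continuous (deriv g) := (hg.contDiff (n := 1)).continuous_deriv le_rfl
  obtain ⟨K, hK0, hK⟩ := bd_disc hg0
  obtain ⟨L, hL0, hL⟩ := bd_disc hg1
  have i1 := int_g hz hg0 (n := n + 1)
  have i2 := int_rg hz hg1 i i (n := n + 1)
  have i3 := int_xg hz hg0 i (n := n + 1)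
  have hmain := ibp i (f := fun X => ((X i : ℝ) : ℂ) * g (DD z X))
    (f' := fun X => g (DD z X) +
      ((X i / TT X : ℝ) : ℂ) * (z i - DD z X) * deriv g (DD z X))
    (f0 := fun _ => 0) (A := K + 2 * L) (by positivity) i3.aestronglyMeasurable
    (i1.add i2).aestronglyMeasurable ?_ ?_ ?_ ?_
  · rw [hmain, integral_zero, zero_add, integral_add i1 i2]
  · intro X hX
    have hD := norm_DD_le hz hX
    have h1 : ‖((X i : ℝ) : ℂ)‖ = X i := by
      rw [Complex.norm_real, Real.norm_eq_abs, abs_of_pos (hX i)]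
    rw [norm_mul, h1]
    have h2 := hK _ hD
    have h3 := coord_le_TT hX i
    have h4 := (hX i).le
    calc X i * ‖g (DD z X)‖ ≤ TT X * K := mul_le_mul h3 h2 (norm_nonneg _) (h4.trans h3)
      _ ≤ (K + 2 * L) * (1 + TT X) := by nlinarith [h4.trans h3]
  · intro X hX
    have hD := norm_DD_le hz hX
    have hT : 0 < TT X := TT_pos hX
    have h1 : ‖((X i / TT X : ℝ) : ℂ)‖ ≤ 1 := by
      rw [Complex.norm_real, Real.norm_eq_abs, abs_of_nonneg (div_nonneg (hX i).le hT.le),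
        div_le_one hT]
      exact coord_le_TT hX i
    have h2 : ‖z i - DD z X‖ ≤ 2 := by
      calc ‖z i - DD z X‖ ≤ ‖z i‖ + ‖DD z X‖ := norm_sub_le _ _
        _ ≤ 2 := by linarith [hz i]
    have h3 := hL _ hD
    have h4 := hK _ hD
    calc ‖g (DD z X) + ((X i / TT X : ℝ) : ℂ) * (z i - DD z X) * deriv g (DD z X)‖
        ≤ ‖g (DD z X)‖ + ‖((X i / TT X : ℝ) : ℂ) * (z i - DD z X) * deriv g (DD z X)‖ :=
          norm_add_le _ _
      _ = ‖g (DD z X)‖ + ‖((X i / TT X : ℝ) : ℂ)‖ * ‖z i - DD z X‖ * ‖deriv g (DD z X)‖ := by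
          rw [norm_mul, norm_mul]
      _ ≤ K + 1 * 2 * L := by gcongr
      _ ≤ (K + 2 * L) * (1 + TT X) := by nlinarith
  · intro y hy x hx
    have hT : 0 < TT (ins i x y) := TT_pos (ins_pos i hx hy)
    have h1 : HasDerivAt (fun x : ℝ => ((x : ℝ) : ℂ)) 1 x := by
      simpa using (hasDerivAt_id x).ofReal_comp
    have h2 := h1.mul (hasDerivAt_gDD z i hy hx hg)
    have e : (fun x : ℝ => (((ins i x y) i : ℝ) : ℂ) * g (DD z (ins i x y))) =
        (fun x : ℝ => ((x : ℝ) : ℂ)) * fun x : ℝ => g (DD z (ins i x y)) := by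
      funext t
      simp only [Pi.mul_apply, ins_same]
    show HasDerivAt (fun x : ℝ => (((ins i x y) i : ℝ) : ℂ) * g (DD z (ins i x y))) _ x
    rw [e]
    refine h2.congr_deriv ?_
    simp only [ins_same]
    push_cast
    ring
  · intro y hy
    rw [tendsto_zero_iff_norm_tendsto_zero]
    have hlim : Tendsto (fun x : ℝ => K * x) (𝓝[>] 0) (𝓝 0) := by
      have : Tendsto (fun x : ℝ => K * x) (𝓝 0) (𝓝 (K * 0)) := by
        exact (continuous_const.mul continuous_id).tendsto 0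
      rw [mul_zero] at this
      exact this.mono_left nhdsWithin_le_nhds
    refine squeeze_zero' (Eventually.of_forall fun _ => norm_nonneg _) ?_ hlim
    filter_upwards [self_mem_nhdsWithin] with x hx
    have hx' : (0 : ℝ) < x := hx
    have hD := norm_DD_le hz (ins_pos i hx' hy)
    rw [norm_mul, ins_same, Complex.norm_real, Real.norm_eq_abs, abs_of_pos hx', mul_comm]
    exact mul_le_mul_of_nonneg_right (hK _ hD) hx'.le

end Pool.Agent.HHalf
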