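import Pool.Agent.HHalf.MNu

set_option autoImplicit false

namespace Pool.Agent.HHalf

open MeasureTheory Set Filter Topology

instance mu_prob (n : ℕ) : IsProbabilityMeasure (mu n) := by
  unfold mu
  infer_instance

/-- `Measure.ae_pi_iff`-type lemma, or `Measure.ae_eval_ne`/`(measurePreserving_eval ..).quasiMeasurePreserving.ae`
and `ae_all_iff`. -/
theorem mu_pos (n : ℕ) : ∀ᵐ X ∂mu n, ∀ i, 0 < X i := by
  rw [ae_all_iff]
  intro i
  have h : MeasurePreserving (Function.eval i) (mu n) nu :=
    measurePreserving_eval (fun _ : Fin n => nu) i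
  exact h.quasiMeasurePreserving.ae nu_pos

/-- `measurePreserving_eval`. -/
theorem integrable_coord (n : ℕ) (i : Fin n) : Integrable (fun X : Fin n → ℝ => X i) (mu n) := by
  have h : MeasurePreserving (Function.eval i) (mu n) nu :=
    measurePreserving_eval (fun _ : Fin n => nu) i
  exact h.integrable_comp_of_integrable integrable_nu_id

/-- A function bounded by `A (1 + ∑ X_i)` on the open positive orthant is integrable. -/
theorem integrable_of_bd {n : ℕ} {f : (Fin n → ℝ) → ℂ} {A : ℝ}
    (hm : AEStronglyMeasurable f (mu n))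
    (hb : ∀ X, (∀ i, 0 < X i) → ‖f X‖ ≤ A * (1 + TT X)) : Integrable f (mu n) := by
  have h1 : Integrable (fun X : Fin n → ℝ => A * (1 + TT X)) (mu n) := by
    refine Integrable.const_mul ((integrable_const (1 : ℝ)).add ?_) A
    unfold TT
    exact integrable_finsetSum _ fun i _ => integrable_coord n i
  refine h1.mono' hm ?_
  filter_upwards [mu_pos n] with X hX
  exact hb X hX

end Pool.Agent.HHalf
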