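import Pool.Agent.HHalf.Defs

set_option autoImplicit false

namespace Pool.Agent.HHalf

open MeasureTheory Set Filter Topology

/-- `∫_{Ioi 0} e^{-x} dx = 1` (Mathlib: `integral_exp_neg_Ioi_zero`, `integrableOn_exp_neg_Ioi` or
`exp_neg_integrableOn_Ioi`); `withDensity_apply`, `ofReal_integral_eq_lintegral_ofReal`. -/
instance nu_prob : IsProbabilityMeasure nu := by
  constructor
  unfold nu
  rw [withDensity_apply _ MeasurableSet.univ, Measure.restrict_univ,
    ← ofReal_integral_eq_lintegral_ofReal]
  · rw [integral_exp_neg_Ioi_zero, ENNReal.ofReal_one]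
  · exact integrableOn_exp_neg_Ioi 0
  · exact Eventually.of_forall fun x => (Real.exp_pos _).le

theorem nu_meas : Measurable (fun x : ℝ => ENNReal.ofReal (Real.exp (-x))) := by
  fun_prop

theorem nu_pos : ∀ᵐ x ∂nu, 0 < x := by
  have h1 : nu ≪ volume.restrict (Ioi (0:ℝ)) := withDensity_absolutelyContinuous _ _
  exact h1.ae_le (ae_restrict_mem measurableSet_Ioi)

/-- Integral against `nu` (`integral_withDensity_eq_integral_smul` or
`integral_withDensity_eq_integral_toReal_smul`). -/
theorem integral_nu (f : ℝ → ℂ) :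
    ∫ x, f x ∂nu = ∫ x in Ioi (0:ℝ), ((Real.exp (-x) : ℝ) : ℂ) * f x := by
  unfold nu
  rw [integral_withDensity_eq_integral_toReal_smul nu_meas
    (Eventually.of_forall fun x => ENNReal.ofReal_lt_top)]
  refine integral_congr_ae (Eventually.of_forall fun x => ?_)
  show (ENNReal.ofReal (Real.exp (-x))).toReal • f x = _
  rw [ENNReal.toReal_ofReal (Real.exp_pos _).le, Complex.real_smul]

theorem integrable_nu_iff (f : ℝ → ℂ) :
    Integrable f nu ↔ IntegrableOn (fun x : ℝ => ((Real.exp (-x) : ℝ) : ℂ) * f x) (Ioi 0) := by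
  unfold nu
  rw [integrable_withDensity_iff_integrable_smul' nu_meas
    (Eventually.of_forall fun x => ENNReal.ofReal_lt_top)]
  unfold IntegrableOn
  have : (fun x : ℝ => (ENNReal.ofReal (Real.exp (-x))).toReal • f x)
      = fun x : ℝ => ((Real.exp (-x) : ℝ) : ℂ) * f x := by
    funext x
    rw [ENNReal.toReal_ofReal (Real.exp_pos _).le, Complex.real_smul]
  rw [this]

/-- `∫ x e^{-x}` converges. -/
theorem integrable_nu_id : Integrable (fun x : ℝ => x) nu := by
  unfold nu
  rw [integrable_withDensity_iff_integrable_smul' nu_meas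
    (Eventually.of_forall fun x => ENNReal.ofReal_lt_top)]
  have h := Real.GammaIntegral_convergent (s := 2) (by norm_num)
  refine h.congr ?_
  filter_upwards [ae_restrict_mem measurableSet_Ioi] with x hx
  rw [ENNReal.toReal_ofReal (Real.exp_pos _).le, smul_eq_mul]
  norm_num

end Pool.Agent.HHalf
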