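import Pool.Agent.HHalf.MHom
import Pool.Agent.HHalf.MIbpne

set_option autoImplicit false

namespace Pool.Agent.HHalf

open MeasureTheory Set Filter Topology

/-- Integration by parts of `T g(D)` in the coordinate `i`: sum of `ibpx` (coordinate `i`) and of
`ibpne` over the other coordinates (`Fin.sum_univ_succAbove`); `∑_l X_l/T = 1` a.e. -/
theorem ibpT {n : ℕ} {z : Fin (n + 2) → ℂ} (hz : ∀ i, ‖z i‖ ≤ 1) {g : ℂ → ℂ}
    (hg : Differentiable ℂ g) (i : Fin (n + 2)) :
    ∫ X, ((TT X : ℝ) : ℂ) * g (DD z X) ∂mu (n + 2) =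
      ∫ X, g (DD z X) ∂mu (n + 2) +
      ∫ y, ((TT y : ℝ) : ℂ) * g (DD (fun l => z (i.succAbove l)) y) ∂mu (n + 1) +
      ∫ X, (z i - DD z X) * deriv g (DD z X) ∂mu (n + 2) := by
  have hgc : Continuous g := hg.continuous
  have hdc : Continuous (deriv g) := (hg.contDiff (n := 1)).continuous_deriv le_rfl
  have hz' : ∀ l, ‖(fun l => z (i.succAbove l)) l‖ ≤ 1 := fun l => hz _
  -- split the sum on the left
  have e1 : ∫ X, ((TT X : ℝ) : ℂ) * g (DD z X) ∂mu (n + 2) =
      ∫ X, ((X i : ℝ) : ℂ) * g (DD z X) ∂mu (n + 2) +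
        ∑ j, ∫ X, ((X (i.succAbove j) : ℝ) : ℂ) * g (DD z X) ∂mu (n + 2) := by
    rw [← integral_finsetSum _ (fun j _ => int_xg hz hgc (i.succAbove j)),
      ← integral_add (int_xg hz hgc i)
        (integrable_finsetSum _ (fun j _ => int_xg hz hgc (i.succAbove j)))]
    refine integral_congr_ae (Eventually.of_forall fun X => ?_)
    simp only [TT]
    rw [Fin.sum_univ_succAbove _ i]
    push_cast
    rw [add_mul, Finset.sum_mul]
  have e2 : ∫ y, ((TT y : ℝ) : ℂ) * g (DD (fun l => z (i.succAbove l)) y) ∂mu (n + 1) =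
      ∑ j, ∫ y, ((y j : ℝ) : ℂ) * g (DD (fun l => z (i.succAbove l)) y) ∂mu (n + 1) := by
    rw [← integral_finsetSum _ (fun j _ => int_xg hz' hgc j)]
    refine integral_congr_ae (Eventually.of_forall fun y => ?_)
    simp only [TT]
    push_cast
    rw [Finset.sum_mul]
  have e3 : ∫ X, (z i - DD z X) * deriv g (DD z X) ∂mu (n + 2) =
      ∫ X, ((X i / TT X : ℝ) : ℂ) * (z i - DD z X) * deriv g (DD z X) ∂mu (n + 2) +
        ∑ j, ∫ X, ((X (i.succAbove j) / TT X : ℝ) : ℂ) * (z i - DD z X) *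
          deriv g (DD z X) ∂mu (n + 2) := by
    rw [← integral_finsetSum _ (fun j _ => int_rg hz hdc i (i.succAbove j)),
      ← integral_add (int_rg hz hdc i i)
        (integrable_finsetSum _ (fun j _ => int_rg hz hdc i (i.succAbove j)))]
    refine integral_congr_ae ?_
    filter_upwards [mu_pos (n + 2)] with X hX
    have hT : 0 < TT X := TT_pos hX
    have h1 : ((X i / TT X : ℝ) : ℂ) + ∑ j, ((X (i.succAbove j) / TT X : ℝ) : ℂ) = 1 := by
      have h2 : X i / TT X + ∑ j, X (i.succAbove j) / TT X = 1 := by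
        rw [← Finset.sum_div, ← add_div]
        have h3 : X i + ∑ j, X (i.succAbove j) = TT X := by
          simp only [TT]
          rw [Fin.sum_univ_succAbove _ i]
        rw [h3, div_self hT.ne']
      have h4 := congrArg (fun r : ℝ => (r : ℂ)) h2
      simpa using h4
    calc (z i - DD z X) * deriv g (DD z X)
        = (((X i / TT X : ℝ) : ℂ) + ∑ j, ((X (i.succAbove j) / TT X : ℝ) : ℂ)) *
            ((z i - DD z X) * deriv g (DD z X)) := by rw [h1, one_mul]
      _ = _ := by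
          rw [add_mul, Finset.sum_mul]
          simp only [mul_assoc]
  rw [e1, ibpx hz hg i, Finset.sum_congr rfl (fun j _ => ibpne hz hg i j),
    Finset.sum_add_distrib, e2, e3]
  ring

/-- `E_{n+2}[(D - z_i) g'(D) + (n+1) g(D)] = (n+1) E_{n+1}[g(D')]`, from `ibpT` and `hom` for
`n + 2` and for `n + 1` coordinates. -/
theorem rem {n : ℕ} {z : Fin (n + 2) → ℂ} (hz : ∀ i, ‖z i‖ ≤ 1) {g : ℂ → ℂ}
    (hg : Differentiable ℂ g) (i : Fin (n + 2)) :
    ∫ X, ((DD z X - z i) * deriv g (DD z X) + ((n + 1 : ℕ) : ℂ) * g (DD z X)) ∂mu (n + 2) =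
      ((n + 1 : ℕ) : ℂ) * ∫ y, g (DD (fun l => z (i.succAbove l)) y) ∂mu (n + 1) := by
  have hgc : Continuous g := hg.continuous
  have hdc : Continuous (deriv g) := (hg.contDiff (n := 1)).continuous_deriv le_rfl
  have hz' : ∀ l, ‖(fun l => z (i.succAbove l)) l‖ ≤ 1 := fun l => hz _
  have h1 := ibpT hz hg i
  have h2 := hom (n := n + 1) hz hg
  have h3 := hom (n := n) hz' hg
  have hI1 : Integrable (fun X : Fin (n + 2) → ℝ => (DD z X - z i) * deriv g (DD z X))
      (mu (n + 2)) :=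
    int_g hz (g := fun w => (w - z i) * deriv g w)
      ((continuous_id.sub continuous_const).mul hdc)
  have hI2 : Integrable (fun X : Fin (n + 2) → ℝ => ((n + 1 : ℕ) : ℂ) * g (DD z X))
      (mu (n + 2)) := (int_g hz hgc).const_mul _
  rw [integral_add hI1 hI2, integral_const_mul]
  have h4 : ∫ X, (z i - DD z X) * deriv g (DD z X) ∂mu (n + 2) =
      - ∫ X, (DD z X - z i) * deriv g (DD z X) ∂mu (n + 2) := by
    rw [← integral_neg]
    refine integral_congr_ae (Eventually.of_forall fun X => ?_)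
    simp only
    ring
  rw [h2, h3, h4] at h1
  push_cast at h1 ⊢
  linear_combination h1

end Pool.Agent.HHalf
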