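import Pool.Agent.HHalf.MHG

set_option autoImplicit false

namespace Pool.Agent.HHalf

open MeasureTheory Set Filter Topology

/-- `(n+1)! ∑ c_j h(z_j) = E[C ψ(D) + Γ ψ'(D)]`, `C = ∑ c_j`, `ψ = ((∏ (w - z_i)) h)^{(n+1)}`:
`hgj` and `ibpx` (with `g = ψ`) for every `j`, summed with the weights `c_j`. -/
theorem repr {n : ℕ} {z : Fin (n + 1) → ℂ} (hz : ∀ i, ‖z i‖ ≤ 1) {h : ℂ → ℂ}
    (hh : Differentiable ℂ h) (c : Fin (n + 1) → ℂ) :
    ((n + 1).factorial : ℂ) * ∑ j, c j * h (z j) =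
      ∫ X, ((∑ j, c j) * iteratedDeriv (n + 1) (fun w => (∏ i, (w - z i)) * h w) (DD z X) +
        Gam z c X * deriv (iteratedDeriv (n + 1) (fun w => (∏ i, (w - z i)) * h w)) (DD z X))
        ∂mu (n + 1) := by
  have hF : Differentiable ℂ (fun w : ℂ => (∏ i, (w - z i)) * h w) := by
    apply Differentiable.mul _ hh
    exact Differentiable.fun_finsetProd (fun i _ => (differentiable_id.sub_const (z i)))
  have hFc : ContDiff ℂ ⊤ (fun w : ℂ => (∏ i, (w - z i)) * h w) := hF.contDiff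
  have hψ : Differentiable ℂ (iteratedDeriv (n + 1) (fun w : ℂ => (∏ i, (w - z i)) * h w)) :=
    hFc.differentiable_iteratedDeriv (n + 1) (by exact_mod_cast WithTop.coe_lt_top _)
  have key : ∀ j, ((n + 1).factorial : ℂ) * h (z j) =
      ∫ X, iteratedDeriv (n + 1) (fun w => (∏ i, (w - z i)) * h w) (DD z X) ∂mu (n + 1) +
      ∫ X, ((X j / TT X : ℝ) : ℂ) * (z j - DD z X) *
        deriv (iteratedDeriv (n + 1) (fun w => (∏ i, (w - z i)) * h w)) (DD z X) ∂mu (n + 1) :=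
    fun j => by rw [← hgj hz hh j, ibpx hz hψ j]
  generalize hψd : iteratedDeriv (n + 1) (fun w : ℂ => (∏ i, (w - z i)) * h w) = ψ at hψ key ⊢
  have hψ' : Continuous (deriv ψ) := (hψ.deriv).continuous
  have i1 : Integrable (fun X : Fin (n + 1) → ℝ => (∑ j, c j) * ψ (DD z X)) (mu (n + 1)) :=
    (int_g hz hψ.continuous).const_mul _
  have i2 : ∀ j, Integrable (fun X : Fin (n + 1) → ℝ =>
      c j * (((X j / TT X : ℝ) : ℂ) * (z j - DD z X) * deriv ψ (DD z X))) (mu (n + 1)) :=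
    fun j => (int_rg hz hψ' j j).const_mul _
  have e1 : ∀ X : Fin (n + 1) → ℝ, (∑ j, c j) * ψ (DD z X) + Gam z c X * deriv ψ (DD z X) =
      (∑ j, c j) * ψ (DD z X) +
        ∑ j, c j * (((X j / TT X : ℝ) : ℂ) * (z j - DD z X) * deriv ψ (DD z X)) := by
    intro X
    congr 1
    rw [Gam, Finset.sum_mul]
    exact Finset.sum_congr rfl (fun j _ => by ring)
  simp_rw [e1]
  rw [integral_add i1 (integrable_finsetSum _ (fun j _ => i2 j)),
    integral_finsetSum _ (fun j _ => i2 j), integral_const_mul]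
  simp_rw [integral_const_mul]
  rw [Finset.sum_mul, ← Finset.sum_add_distrib, Finset.mul_sum]
  refine Finset.sum_congr rfl (fun j _ => ?_)
  rw [← mul_add, ← key j]
  ring

end Pool.Agent.HHalf
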