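import Pool.Agent.HHalf.MMu

set_option autoImplicit false

namespace Pool.Agent.HHalf

open MeasureTheory Set Filter Topology

/-- `ins i` is measure preserving from `nu × mu n` to `mu (n+1)`
(`measurePreserving_piFinSuccAbove` and its symm; `MeasurableEquiv.piFinSuccAbove`,
`Fin.insertNthEquiv`). -/
theorem mp_ins {n : ℕ} (i : Fin (n + 1)) :
    MeasurePreserving (fun p : ℝ × (Fin n → ℝ) => ins i p.1 p.2) (nu.prod (mu n)) (mu (n + 1)) := by
  have h := (measurePreserving_piFinSuccAbove (fun _ : Fin (n + 1) => nu) i).symm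
  exact h

/-- Fubini: the coordinate `i` is integrated first. -/
theorem mu_split {n : ℕ} (i : Fin (n + 1)) {f : (Fin (n + 1) → ℝ) → ℂ}
    (hf : Integrable f (mu (n + 1))) :
    ∫ X, f X ∂mu (n + 1) = ∫ y, (∫ x, f (ins i x y) ∂nu) ∂mu n := by
  have h := mp_ins i
  have h1 : Integrable (fun p : ℝ × (Fin n → ℝ) => f (ins i p.1 p.2)) (nu.prod (mu n)) := by
    have h2 := hf
    rw [← h.map_eq] at h2
    exact h2.comp_measurable h.measurable
  have h3 : ∫ X, f X ∂mu (n + 1) = ∫ p : ℝ × (Fin n → ℝ), f (ins i p.1 p.2) ∂(nu.prod (mu n)) := by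
    have h4 := integral_map (μ := nu.prod (mu n)) h.measurable.aemeasurable
      (f := f) (by rw [h.map_eq]; exact hf.aestronglyMeasurable)
    rw [h.map_eq] at h4
    exact h4
  rw [h3, integral_prod_symm _ h1]

theorem mu_split_ae {n : ℕ} (i : Fin (n + 1)) {f : (Fin (n + 1) → ℝ) → ℂ}
    (hf : Integrable f (mu (n + 1))) :
    ∀ᵐ y ∂mu n, Integrable (fun x => f (ins i x y)) nu := by
  have h := mp_ins i
  have h1 : Integrable (fun p : ℝ × (Fin n → ℝ) => f (ins i p.1 p.2)) (nu.prod (mu n)) := by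
    have h2 := hf
    rw [← h.map_eq] at h2
    exact h2.comp_measurable h.measurable
  exact h1.prod_left_ae

end Pool.Agent.HHalf
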