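import Pool.Agent.HHalf.POde

set_option autoImplicit false

namespace Pool.Agent.HHalf

open Complex Set Metric ComplexConjugate Polynomial

/-- Newton interpolation: an entire `G` is a polynomial of degree `< n` plus `∏ (w - z_i)` times an
entire function. Induction on `n` (`Fin.prod_univ_succ`): `G = G(z_0) + (w - z_0) G₁` (`div_lin`),
`G₁ = p₁ + (∏' (w - z_i)) h`. -/
theorem newton (n : ℕ) : ∀ (z : Fin n → ℂ) (G : ℂ → ℂ), Differentiable ℂ G →
    ∃ (p : ℂ[X]) (h : ℂ → ℂ), Differentiable ℂ h ∧ p.degree < (n : WithBot ℕ) ∧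
      ∀ w, G w = p.eval w + (∏ i, (w - z i)) * h w := by
  induction n with
  | zero =>
    intro z G hG
    refine ⟨0, G, hG, ?_, fun w => ?_⟩
    · rw [Polynomial.degree_zero]
      exact WithBot.bot_lt_coe 0
    · simp
  | succ n ih =>
    intro z G hG
    obtain ⟨G₁, hG₁, hGe⟩ := div_lin (F := fun w => G w - G (z 0)) (hG.sub (differentiable_const _))
      (x := z 0) (by simp)
    obtain ⟨p₁, h, hh, hp, he⟩ := ih (fun i => z i.succ) G₁ hG₁
    refine ⟨C (G (z 0)) + (X - C (z 0)) * p₁, h, hh, ?_, fun w => ?_⟩
    · refine lt_of_le_of_lt (Polynomial.degree_add_le _ _) (max_lt ?_ ?_)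
      · refine lt_of_le_of_lt Polynomial.degree_C_le ?_
        exact_mod_cast Nat.succ_pos n
      · by_cases hp0 : p₁ = 0
        · rw [hp0, mul_zero, Polynomial.degree_zero]
          exact WithBot.bot_lt_coe _
        · rw [Polynomial.degree_mul, Polynomial.degree_X_sub_C,
            Polynomial.degree_eq_natDegree hp0]
          rw [Polynomial.degree_eq_natDegree hp0] at hp
          have h1 : p₁.natDegree < n := by exact_mod_cast hp
          have h2 : 1 + p₁.natDegree < n + 1 := by omega
          exact_mod_cast h2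
    · have h1 : G w = G (z 0) + (w - z 0) * G₁ w := by
        have := hGe w
        rw [← this]; ring
      rw [h1, he w, Fin.prod_univ_succ]
      simp only [Polynomial.eval_add, Polynomial.eval_C, Polynomial.eval_mul, Polynomial.eval_sub,
        Polynomial.eval_X]
      ring

/-- A polynomial of degree `< n` divisible by `∏_{i<n} (w - z_i)` (entire quotient) is `0`.
Induction on `n`: `p(z_0) = 0`, `p = (X - z_0) p₁`, cancel (`cancel_lin`). -/
theorem poly_div_zero (n : ℕ) : ∀ (z : Fin n → ℂ) (p : ℂ[X]) (h : ℂ → ℂ), Differentiable ℂ h →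
    p.degree < (n : WithBot ℕ) → (∀ w, p.eval w = (∏ i, (w - z i)) * h w) → p = 0 := by
  induction n with
  | zero =>
    intro z p h hh hp he
    have h1 : p.degree < 0 := by exact_mod_cast hp
    by_contra hne
    rw [Polynomial.degree_eq_natDegree hne] at h1
    have h2 : p.natDegree < 0 := by exact_mod_cast h1
    omega
  | succ n ih =>
    intro z p h hh hp he
    have hroot : p.IsRoot (z 0) := by
      rw [Polynomial.IsRoot.def, he (z 0), Fin.prod_univ_succ]
      simp
    obtain ⟨q, hq⟩ := Polynomial.dvd_iff_isRoot.mpr hroot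
    have hcont : Continuous (fun w => (∏ i : Fin n, (w - z i.succ)) * h w) := by
      refine Continuous.mul ?_ hh.continuous
      exact continuous_finsetProd _ (fun i _ => continuous_id.sub continuous_const)
    have hc : (fun w => q.eval w) = fun w => (∏ i : Fin n, (w - z i.succ)) * h w := by
      refine cancel_lin (x := z 0) q.continuous hcont (fun w => ?_)
      have h1 := he w
      rw [hq, Fin.prod_univ_succ] at h1
      simp only [Polynomial.eval_mul, Polynomial.eval_sub, Polynomial.eval_X,
        Polynomial.eval_C] at h1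
      rw [h1]; ring
    have hq0 : q = 0 := by
      by_contra hne
      apply hne
      refine ih (fun i => z i.succ) q h hh ?_ (fun w => congrFun hc w)
      rw [hq, Polynomial.degree_mul, Polynomial.degree_X_sub_C,
        Polynomial.degree_eq_natDegree hne] at hp
      rw [Polynomial.degree_eq_natDegree hne]
      have h1 : 1 + q.natDegree < n + 1 := by exact_mod_cast hp
      have h2 : q.natDegree < n := by omega
      exact_mod_cast h2
    rw [hq, hq0, mul_zero]

/-- An entire function whose `n`-th derivative vanishes is a polynomial of degree `< n`. -/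
theorem poly_of_iter_zero (n : ℕ) : ∀ (F : ℂ → ℂ), Differentiable ℂ F →
    (∀ w, iteratedDeriv n F w = 0) → ∃ p : ℂ[X], p.degree < (n : WithBot ℕ) ∧ ∀ w, F w = p.eval w := by
  intro F hF hz
  have hz' : ∀ j : ℕ, ∀ w, iteratedDeriv (n + j) F w = 0 := by
    intro j
    induction j with
    | zero => exact hz
    | succ j ihj =>
      intro w
      have h1 : iteratedDeriv (n + j) F = fun _ => (0 : ℂ) := funext ihj
      rw [← Nat.add_assoc, iteratedDeriv_succ, h1]
      simp
  refine ⟨∑ m ∈ Finset.range n, C (((m.factorial : ℂ))⁻¹ * iteratedDeriv m F 0) * X ^ m, ?_,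
    fun w => ?_⟩
  · refine (Polynomial.degree_sum_le _ _).trans_lt ?_
    refine (Finset.sup_lt_iff (WithBot.bot_lt_coe n)).mpr (fun m hm => ?_)
    refine lt_of_le_of_lt (Polynomial.degree_C_mul_X_pow_le m _) ?_
    exact WithBot.coe_lt_coe.mpr (Finset.mem_range.mp hm)
  · rw [← Complex.taylorSeries_eq_of_entire' 0 w hF, tsum_eq_sum (s := Finset.range n)]
    · rw [Polynomial.eval_finsetSum]
      refine Finset.sum_congr rfl (fun m _ => ?_)
      simp
    · intro m hm
      rw [Finset.mem_range, not_lt] at hm
      obtain ⟨j, rfl⟩ := Nat.exists_eq_add_of_le hm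
      rw [hz' j 0]
      simp

end Pool.Agent.HHalf
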