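import Pool.Agent.HHalf.NNewton
import Pool.Agent.ConjInterp.Reduce

set_option autoImplicit false

namespace Pool.Agent.HHalf

open Complex Set Metric ComplexConjugate Polynomial Pool.Agent.ConjInterp

/-- For an entire `φ` there is an entire `h` such that `ψ = ((∏ (w - z_i)) h)^{(n)}` solves
`(w - x) ψ' + d ψ = φ`: `ode_exists`, `prim_iter`, `newton` (the polynomial part has vanishing `n`-th
derivative: `ConjInterp.iter_poly_zero`; for `n = 0` the polynomial is `0`). -/
theorem star_exists {n d : ℕ} (z : Fin n → ℂ) (hd : 1 ≤ d) (x : ℂ) {φ : ℂ → ℂ}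
    (hφ : Differentiable ℂ φ) :
    ∃ h : ℂ → ℂ, Differentiable ℂ h ∧
      ∀ w, (w - x) * deriv (iteratedDeriv n (fun w => (∏ i, (w - z i)) * h w)) w +
        d * iteratedDeriv n (fun w => (∏ i, (w - z i)) * h w) w = φ w := by
  obtain ⟨ψ, hψ, hψ'⟩ := ode_exists x d hd φ hφ
  obtain ⟨G, hG, hG'⟩ := prim_iter n hψ
  obtain ⟨p, h, hh, hp, hGp⟩ := newton n z G hG
  refine ⟨h, hh, ?_⟩
  have hkey : iteratedDeriv n (fun w => (∏ i, (w - z i)) * h w) = ψ := by
    rcases Nat.eq_zero_or_pos n with hn | hn
    · subst hn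
      have hp0 : p = 0 := by
        rw [← Polynomial.degree_eq_bot]
        exact Nat.WithBot.lt_zero_iff.1 (by exact_mod_cast hp)
      rw [iteratedDeriv_zero, ← hG', iteratedDeriv_zero]
      funext w
      rw [hGp w, hp0, Polynomial.eval_zero, zero_add]
    · have h1 : (fun w => (∏ i, (w - z i)) * h w) = fun w => G w - p.eval w := by
        funext w
        rw [hGp w]
        ring
      funext w
      rw [h1, iteratedDeriv_fun_sub (entire_contDiffAt hG n w) (entire_contDiffAt (poly_entire p) n w),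
        iter_poly_zero hn hp, sub_zero, hG']
  rw [hkey]
  exact hψ'

end Pool.Agent.HHalf
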