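import Mathlib

set_option autoImplicit false

namespace Pool.Agent.HHalf

open Complex Set Metric ComplexConjugate

/-- Entire primitives (`Differentiable.isExactOn_univ` or similar in
`Mathlib/Analysis/Complex/HasPrimitives.lean`). -/
theorem prim {φ : ℂ → ℂ} (hφ : Differentiable ℂ φ) (x : ℂ) :
    ∃ P : ℂ → ℂ, Differentiable ℂ P ∧ P x = 0 ∧ ∀ w, deriv P w = φ w := by
  obtain ⟨g, hg⟩ := hφ.isExactOn_univ
  refine ⟨fun w => g w - g x, ?_, sub_self _, ?_⟩
  · intro w
    exact ((hg w (mem_univ w)).sub_const (g x)).differentiableAt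
  · intro w
    exact ((hg w (mem_univ w)).sub_const (g x)).deriv

theorem prim_iter (n : ℕ) : ∀ {φ : ℂ → ℂ}, Differentiable ℂ φ →
    ∃ P : ℂ → ℂ, Differentiable ℂ P ∧ iteratedDeriv n P = φ := by
  induction n with
  | zero =>
    intro φ hφ
    exact ⟨φ, hφ, iteratedDeriv_zero⟩
  | succ n ih =>
    intro φ hφ
    obtain ⟨P, hP, hP'⟩ := ih hφ
    obtain ⟨Q, hQ, _, hQ'⟩ := prim hP 0
    refine ⟨Q, hQ, ?_⟩
    have h1 : deriv Q = P := funext hQ'
    rw [iteratedDeriv_succ', h1, hP']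

/-- Divide by `w - x` (`dslope`; entire by `Differentiable`-version of removable singularities, e.g.
`Complex.differentiableOn_dslope` on `univ`). -/
theorem div_lin {F : ℂ → ℂ} (hF : Differentiable ℂ F) {x : ℂ} (hx : F x = 0) :
    ∃ G : ℂ → ℂ, Differentiable ℂ G ∧ ∀ w, F w = (w - x) * G w := by
  refine ⟨dslope F x, ?_, ?_⟩
  · have h1 := (Complex.differentiableOn_dslope (f := F) (s := univ) (c := x) Filter.univ_mem).2 hF.differentiableOn
    exact fun w => (h1 w (mem_univ w)).differentiableAt Filter.univ_mem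
  · intro w
    have h1 := sub_smul_dslope F x w
    rw [hx, sub_zero, smul_eq_mul] at h1
    exact h1.symm

/-- Two entire (or continuous) functions with `(w - x) F = (w - x) G` agree. -/
theorem cancel_lin {F G : ℂ → ℂ} (hF : Continuous F) (hG : Continuous G) {x : ℂ}
    (h : ∀ w, (w - x) * F w = (w - x) * G w) : F = G := by
  have hd : Dense ({x}ᶜ : Set ℂ) := dense_compl_singleton x
  refine hF.ext_on hd hG fun w hw => ?_
  exact mul_left_cancel₀ (sub_ne_zero.2 hw) (h w)

/-- `(w - x) ψ' + d ψ = φ` has an entire solution, `d ≥ 1`. Induction on `d`.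
`d = 1`: `P' = φ`, `P(x) = 0`, `P = (w - x) ψ`. `d → d + 1`: solve with `d` for `Φ = (w - x) φ`; at
`w = x`: `d Ψ(x) = 0`, so `Ψ = (w - x) ψ` and
`(w - x)[ψ + (w - x) ψ'] + d (w - x) ψ = (w - x) φ`; cancel. -/
theorem ode_exists (x : ℂ) (d : ℕ) (hd : 1 ≤ d) : ∀ φ : ℂ → ℂ, Differentiable ℂ φ →
    ∃ ψ : ℂ → ℂ, Differentiable ℂ ψ ∧ ∀ w, (w - x) * deriv ψ w + d * ψ w = φ w := by
  have hder : ∀ (ψ : ℂ → ℂ), Differentiable ℂ ψ → ∀ w, deriv (fun w => (w - x) * ψ w) w = ψ w + (w - x) * deriv ψ w := by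
    intro ψ hψ w
    have h1 : HasDerivAt (fun w => (w - x) * ψ w) (1 * ψ w + (w - x) * deriv ψ w) w :=
      ((hasDerivAt_id w).sub_const x).mul (hψ w).hasDerivAt
    rw [h1.deriv, one_mul]
  induction d, hd using Nat.le_induction with
  | base =>
    intro φ hφ
    obtain ⟨P, hP, hPx, hP'⟩ := prim hφ x
    obtain ⟨ψ, hψ, hψ'⟩ := div_lin hP hPx
    refine ⟨ψ, hψ, fun w => ?_⟩
    have h1 : P = fun w => (w - x) * ψ w := funext hψ'
    rw [← hP' w, h1, hder ψ hψ w]
    push_cast
    ring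
  | succ d hd ih =>
    intro φ hφ
    obtain ⟨Ψ, hΨ, hΨ'⟩ := ih (fun w => (w - x) * φ w) ((differentiable_id.sub_const x).mul hφ)
    have hx0 : Ψ x = 0 := by
      have h1 := hΨ' x
      beta_reduce at h1
      rw [sub_self, zero_mul, zero_mul, zero_add] at h1
      rcases mul_eq_zero.1 h1 with h2 | h2
      · have h3 : (d : ℂ) ≠ 0 := by
          have : d ≠ 0 := by omega
          exact_mod_cast this
        exact absurd h2 h3
      · exact h2
    obtain ⟨ψ, hψ, hψ'⟩ := div_lin hΨ hx0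
    refine ⟨ψ, hψ, ?_⟩
    have h1 : Ψ = fun w => (w - x) * ψ w := funext hψ'
    have hcont : Continuous fun w => (w - x) * deriv ψ w + ((d + 1 : ℕ) : ℂ) * ψ w := by
      have h2 : Continuous (deriv ψ) := (hψ.contDiff (n := 1)).continuous_deriv le_rfl
      exact ((continuous_id.sub continuous_const).mul h2).add (continuous_const.mul hψ.continuous)
    have h2 := cancel_lin hcont hφ.continuous (x := x) (by
      intro w
      rw [← hΨ' w, h1, hder ψ hψ w]
      push_cast
      ring)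
    exact fun w => congrFun h2 w

end Pool.Agent.HHalf
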