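import Mathlib

set_option autoImplicit false

namespace Pool.Agent.HHalf

open Complex Set Metric ComplexConjugate

/-- the identity behind the Moebius maps of the disc -/
theorem mob_id (a u : ℂ) : ‖1 - conj a * u‖ ^ 2 - ‖u - a‖ ^ 2 = (1 - ‖a‖ ^ 2) * (1 - ‖u‖ ^ 2) := by
  simp only [← Complex.normSq_eq_norm_sq, Complex.normSq_apply]
  simp
  ring

theorem mob_ne {a u : ℂ} (ha : ‖a‖ < 1) (hu : ‖u‖ ≤ 1) : 1 - conj a * u ≠ 0 := by
  intro h
  have h1 : ‖conj a * u‖ = 1 := by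
    rw [← sub_eq_zero.1 h, norm_one]
  rw [norm_mul, RCLike.norm_conj] at h1
  nlinarith [norm_nonneg a, norm_nonneg u]

theorem mob_le {a u : ℂ} (ha : ‖a‖ < 1) (hu : ‖u‖ ≤ 1) : ‖(u - a) / (1 - conj a * u)‖ ≤ 1 := by
  have h0 : 0 < ‖1 - conj a * u‖ := norm_pos_iff.2 (mob_ne ha hu)
  rw [norm_div, div_le_one h0]
  have h1 := mob_id a u
  have h2 : 0 ≤ (1 - ‖a‖ ^ 2) * (1 - ‖u‖ ^ 2) := by
    apply mul_nonneg
    · nlinarith [norm_nonneg a]
    · nlinarith [norm_nonneg u]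
  exact le_of_sq_le_sq (by linarith) h0.le

theorem mob_deriv {a u : ℂ} (h0 : 1 - conj a * u ≠ 0) :
    HasDerivAt (fun w => (w - a) / (1 - conj a * w)) ((1 - conj a * a) / (1 - conj a * u) ^ 2) u := by
  have h1 : HasDerivAt (fun w : ℂ => w - a) 1 u := (hasDerivAt_id u).sub_const a
  have h2 : HasDerivAt (fun w : ℂ => 1 - conj a * w) (-(conj a * 1)) u := ((hasDerivAt_id u).const_mul (conj a)).const_sub 1
  have h3 := h1.div h2 h0
  refine h3.congr_deriv ?_
  rw [show (1 * (1 - conj a * u) - (u - a) * -(conj a * 1) : ℂ) = 1 - conj a * a by ring]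

/-- Schwarz-Pick lemma (derivative form) for an entire function bounded by `1` on the closed disc.
`‖y‖ = 1`: the left side is `0`. `‖y‖ < 1`: `f(w) = φ((w + y)/(1 + ȳ w))` maps the open unit disc
into the closed one, `f(0) = φ(y)`, `f'(0) = (1 - |y|²) φ'(y)`. If `|f(0)| = 1` then `f` is locally
constant by the maximum principle (`Complex.eqOn_of_isPreconnected_of_isMaxOn_norm` or
`Complex.eventually_eq_of_isLocalMax_norm`), so `f'(0) = 0`. Otherwise
`g(w) = (f(w) - f(0))/(1 - conj f(0) f(w))` maps the disc into the closed disc, `g(0) = 0`,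
`g'(0) = f'(0)/(1 - |f(0)|²)`, and `|g'(0)| ≤ 1`
(`Complex.norm_deriv_le_div_of_mapsTo_ball` or `Complex.norm_deriv_le_one_of_mapsTo_ball`; a version for
maps into a closed ball is `Complex.dist_le_div_mul_dist_of_mapsTo_ball` as used in
`Pool.Agent.Howell.RPick`). -/
theorem pick {φ : ℂ → ℂ} (hφ : Differentiable ℂ φ) (hb : ∀ w, ‖w‖ ≤ 1 → ‖φ w‖ ≤ 1) {y : ℂ}
    (hy : ‖y‖ ≤ 1) : (1 - ‖y‖ ^ 2) * ‖deriv φ y‖ ≤ 1 - ‖φ y‖ ^ 2 := by
  have hφy := hb y hy
  rcases hy.eq_or_lt with hy1 | hy1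
  · rw [hy1]
    nlinarith [norm_nonneg (φ y)]
  rcases hφy.eq_or_lt with h1 | h1
  · -- `φ` is locally constant
    have h2 : IsLocalMax (norm ∘ φ) y := by
      filter_upwards [isOpen_ball.mem_nhds (show y ∈ ball (0:ℂ) 1 by simpa using hy1)] with w hw
      rw [Function.comp_apply, Function.comp_apply, h1]
      exact hb w (by simpa using (mem_ball_zero_iff.1 hw).le)
    have h3 := Complex.eventually_eq_of_isLocalMax_norm (Filter.Eventually.of_forall fun z => hφ z) h2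
    have h4 : deriv φ y = 0 := by
      have h5 : φ =ᶠ[nhds y] fun _ => φ y := h3
      rw [h5.deriv_eq, deriv_const]
    rw [h4, h1]
    simp
  · set a := φ y with ha
    set M : ℂ → ℂ := fun w => (w - (-y)) / (1 - conj (-y) * w) with hM
    set g : ℂ → ℂ := fun w => (φ (M w) - a) / (1 - conj a * φ (M w)) with hg
    have hny : ‖-y‖ < 1 := by rwa [norm_neg]
    have hM0 : M 0 = y := by
      rw [hM]
      simp
    have hMle : ∀ w, ‖w‖ ≤ 1 → ‖M w‖ ≤ 1 := fun w hw => mob_le hny hw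
    have hMd : ∀ w, ‖w‖ ≤ 1 → HasDerivAt M ((1 - conj (-y) * (-y)) / (1 - conj (-y) * w) ^ 2) w :=
      fun w hw => mob_deriv (mob_ne hny hw)
    have hgd : ∀ w, ‖w‖ ≤ 1 → HasDerivAt g ((1 - conj a * a) / (1 - conj a * φ (M w)) ^ 2 *
        (deriv φ (M w) * ((1 - conj (-y) * (-y)) / (1 - conj (-y) * w) ^ 2))) w := by
      intro w hw
      have h2 : HasDerivAt (fun w => φ (M w)) (deriv φ (M w) * ((1 - conj (-y) * (-y)) / (1 - conj (-y) * w) ^ 2)) w :=
        HasDerivAt.comp w (hφ (M w)).hasDerivAt (hMd w hw)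
      have h3 := mob_deriv (a := a) (u := φ (M w)) (mob_ne h1 (hb _ (hMle w hw)))
      exact HasDerivAt.comp w h3 h2
    have hg0 : g 0 = 0 := by
      rw [hg]
      simp [hM0, ha]
    have hmaps : MapsTo g (ball 0 1) (closedBall (g 0) 1) := by
      intro w hw
      have hw' : ‖w‖ ≤ 1 := (mem_ball_zero_iff.1 hw).le
      rw [hg0, mem_closedBall_zero_iff]
      exact mob_le h1 (hb _ (hMle w hw'))
    have hdiff : DifferentiableOn ℂ g (ball 0 1) := fun w hw =>
      (hgd w (mem_ball_zero_iff.1 hw).le).differentiableAt.differentiableWithinAt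
    have h4 := Complex.norm_deriv_le_one_of_mapsTo_ball hdiff hmaps one_pos
    rw [(hgd 0 (by simp)).deriv, hM0, mul_zero, sub_zero, one_pow, div_one] at h4
    have h5 : 1 - conj a * a ≠ 0 := mob_ne h1 h1.le
    have h6 : (1 - conj a * a) / (1 - conj a * φ y) ^ 2 = 1 / (1 - conj a * a) := by
      rw [← ha]
      field_simp
    have h7 : (1 - conj a * a : ℂ) = ((1 - ‖a‖ ^ 2 : ℝ) : ℂ) := by
      rw [← Complex.normSq_eq_conj_mul_self, Complex.normSq_eq_norm_sq]
      push_cast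
      rfl
    have h8 : (1 - conj (-y) * (-y) : ℂ) = ((1 - ‖y‖ ^ 2 : ℝ) : ℂ) := by
      rw [← Complex.normSq_eq_conj_mul_self, Complex.normSq_eq_norm_sq, norm_neg]
      push_cast
      rfl
    have h9 : 0 < 1 - ‖a‖ ^ 2 := by nlinarith [norm_nonneg a]
    have h10 : 0 < 1 - ‖y‖ ^ 2 := by nlinarith [norm_nonneg y]
    rw [h6, h7, h8, norm_mul, norm_mul, norm_div, norm_one, Complex.norm_real, Complex.norm_real, Real.norm_of_nonneg h9.le,
      Real.norm_of_nonneg h10.le, div_mul_eq_mul_div, one_mul, div_le_one h9] at h4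
    linarith

end Pool.Agent.HHalf
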