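import Pool.Agent.HHalf.PPick

set_option autoImplicit false

namespace Pool.Agent.HHalf

open Complex Set Metric ComplexConjugate

/-- Pointwise bound. `Y = x + t (D - x) = (1-t) x + t D`, so `|Y| ≤ 1` and
`|Y|² ≤ (1-t)|x|² + t|D|² ≤ 1 - t (1 - |D|²)`, i.e. `t (1 - |D|²) ≤ 1 - |Y|²`. Hence
`t |G| |φ'(Y)| ≤ (K/2)(1 - |Y|²)|φ'(Y)| ≤ (K/2)(1 - s²)`, `s = |φ(Y)| ≤ 1` (`pick`), and the total is at
most `K (s + (1 - s²)/2) ≤ K`. -/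
theorem point {φ : ℂ → ℂ} (hφ : Differentiable ℂ φ) (hb : ∀ w, ‖w‖ ≤ 1 → ‖φ w‖ ≤ 1)
    {x D C G : ℂ} {t K : ℝ} (hx : ‖x‖ ≤ 1) (hD : ‖D‖ ≤ 1) (ht0 : 0 ≤ t) (ht1 : t ≤ 1) (hK : 0 ≤ K)
    (hC : ‖C‖ ≤ K) (hG : ‖G‖ ≤ K / 2 * (1 - ‖D‖ ^ 2)) :
    ‖C * φ (x + t * (D - x)) + t * G * deriv φ (x + t * (D - x))‖ ≤ K := by
  set Y : ℂ := x + t * (D - x) with hY
  have hYe : Y = ((1 - t : ℝ) : ℂ) * x + (t : ℂ) * D := by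
    rw [hY]
    push_cast
    ring
  have h1t : 0 ≤ 1 - t := by linarith
  have hYn : ‖Y‖ ≤ (1 - t) * ‖x‖ + t * ‖D‖ := by
    rw [hYe]
    refine (norm_add_le _ _).trans ?_
    rw [norm_mul, norm_mul, Complex.norm_real, Complex.norm_real, Real.norm_of_nonneg h1t,
      Real.norm_of_nonneg ht0]
  have hx0 := norm_nonneg x
  have hD0 := norm_nonneg D
  have hY0 := norm_nonneg Y
  have hY2 : ‖Y‖ ^ 2 ≤ (1 - t) * ‖x‖ ^ 2 + t * ‖D‖ ^ 2 := by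
    have h1 : ‖Y‖ ^ 2 ≤ ((1 - t) * ‖x‖ + t * ‖D‖) ^ 2 := pow_le_pow_left₀ hY0 hYn 2
    have h2 : 0 ≤ t * (1 - t) * (‖x‖ - ‖D‖) ^ 2 :=
      mul_nonneg (mul_nonneg ht0 h1t) (sq_nonneg _)
    nlinarith [h1, h2]
  have hx2 : ‖x‖ ^ 2 ≤ 1 := by
    calc ‖x‖ ^ 2 ≤ 1 ^ 2 := pow_le_pow_left₀ hx0 hx 2
      _ = 1 := one_pow 2
  have hYk : t * (1 - ‖D‖ ^ 2) ≤ 1 - ‖Y‖ ^ 2 := by
    have := mul_le_mul_of_nonneg_left hx2 h1t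
    nlinarith [hY2, this]
  have hY1 : ‖Y‖ ≤ 1 := by
    refine hYn.trans ?_
    have h1 := mul_le_mul_of_nonneg_left hx h1t
    have h2 := mul_le_mul_of_nonneg_left hD ht0
    linarith
  have hp := pick hφ hb hY1
  have hs := hb Y hY1
  have hs0 := norm_nonneg (φ Y)
  have hd0 := norm_nonneg (deriv φ Y)
  have hA : ‖C * φ Y‖ ≤ K * ‖φ Y‖ := by
    rw [norm_mul]
    exact mul_le_mul_of_nonneg_right hC hs0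
  have hB : ‖(t : ℂ) * G * deriv φ Y‖ ≤ K / 2 * (1 - ‖φ Y‖ ^ 2) := by
    rw [norm_mul, norm_mul, Complex.norm_real, Real.norm_of_nonneg ht0]
    have h1 : t * ‖G‖ ≤ K / 2 * (1 - ‖Y‖ ^ 2) := by
      calc t * ‖G‖ ≤ t * (K / 2 * (1 - ‖D‖ ^ 2)) := mul_le_mul_of_nonneg_left hG ht0
        _ = K / 2 * (t * (1 - ‖D‖ ^ 2)) := by ring
        _ ≤ K / 2 * (1 - ‖Y‖ ^ 2) := mul_le_mul_of_nonneg_left hYk (by linarith)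
    calc t * ‖G‖ * ‖deriv φ Y‖ ≤ K / 2 * (1 - ‖Y‖ ^ 2) * ‖deriv φ Y‖ :=
          mul_le_mul_of_nonneg_right h1 hd0
      _ = K / 2 * ((1 - ‖Y‖ ^ 2) * ‖deriv φ Y‖) := by ring
      _ ≤ K / 2 * (1 - ‖φ Y‖ ^ 2) := mul_le_mul_of_nonneg_left hp (by linarith)
  calc ‖C * φ Y + t * G * deriv φ Y‖ ≤ ‖C * φ Y‖ + ‖(t : ℂ) * G * deriv φ Y‖ := norm_add_le _ _
    _ ≤ K * ‖φ Y‖ + K / 2 * (1 - ‖φ Y‖ ^ 2) := add_le_add hA hB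
    _ ≤ K := by
        have h3 : 0 ≤ K * (1 - ‖φ Y‖) ^ 2 := mul_nonneg hK (sq_nonneg _)
        nlinarith [h3]

end Pool.Agent.HHalf
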