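import Pool.Agent.HHalf.SSonin

set_option autoImplicit false

namespace Pool.Agent.HHalf

open Polynomial Set

/-- Sonin's argument in general form. `y` a real polynomial with
`(X² - 1) y'' + (α X - a) y' = λ y`, `λ > 0`, `α > 1`: then `y(x)² ≤ max (y(1)²) (y(-1)²)` on `[-1,1]`.
Proof: `f(t) = y(t)² + (1 - t²) y'(t)²/λ` has derivative `(2 y'(t)²/λ) ((α - 1) t - a)`. If
`(α - 1) x ≥ a` then `f` is monotone on `[x, 1]` and `y(x)² ≤ f(x) ≤ f(1) = y(1)²`; otherwise `f` is
antitone on `[-1, x]` (`monotoneOn_of_deriv_nonneg`, `antitoneOn_of_deriv_nonpos`). -/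
theorem sonin {y : ℝ[X]} {α a lam : ℝ} (hlam : 0 < lam) (hα : 1 < α)
    (h : (X ^ 2 - 1) * derivative (derivative y) + (C α * X - C a) * derivative y = C lam * y)
    {x : ℝ} (hx : x ∈ Icc (-1:ℝ) 1) :
    (y.eval x) ^ 2 ≤ max ((y.eval 1) ^ 2) ((y.eval (-1)) ^ 2) := by
  have hode : ∀ t : ℝ, (t ^ 2 - 1) * (derivative (derivative y)).eval t +
      (α * t - a) * (derivative y).eval t = lam * y.eval t := by
    intro t
    have := congrArg (fun q : ℝ[X] => q.eval t) h
    simpa using this
  set f : ℝ → ℝ := fun t => (y.eval t) ^ 2 + (1 - t ^ 2) * ((derivative y).eval t) ^ 2 / lam with hf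
  have hder : ∀ t : ℝ, HasDerivAt f
      (2 * ((derivative y).eval t) ^ 2 / lam * ((α - 1) * t - a)) t := by
    intro t
    have h1 : HasDerivAt (fun t : ℝ => (y.eval t) ^ 2)
        (2 * y.eval t * (derivative y).eval t) t := by
      have := (y.hasDerivAt t).fun_pow 2
      simpa using this
    have h2 : HasDerivAt (fun t : ℝ => ((derivative y).eval t) ^ 2)
        (2 * (derivative y).eval t * (derivative (derivative y)).eval t) t := by
      have := ((derivative y).hasDerivAt t).fun_pow 2
      simpa using this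
    have h3 : HasDerivAt (fun t : ℝ => 1 - t ^ 2) (-(2 * t)) t := by
      have := ((hasDerivAt_id t).pow 2).const_sub 1
      simpa using this
    have h4 := h1.add ((h3.mul h2).div_const lam)
    refine h4.congr_deriv ?_
    have h5 := hode t
    have h6 : y.eval t = ((t ^ 2 - 1) * (derivative (derivative y)).eval t +
      (α * t - a) * (derivative y).eval t) / lam := by
      rw [h5]; field_simp
    rw [h6]
    field_simp
    ring
  have hcont : Continuous f := continuous_iff_continuousAt.2 fun t => (hder t).continuousAt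
  have hdiff : ∀ t, DifferentiableAt ℝ f t := fun t => (hder t).differentiableAt
  have hfx : (y.eval x) ^ 2 ≤ f x := by
    have : 0 ≤ (1 - x ^ 2) * ((derivative y).eval x) ^ 2 / lam := by
      refine div_nonneg (mul_nonneg ?_ (sq_nonneg _)) hlam.le
      nlinarith [hx.1, hx.2]
    simp only [hf]
    linarith
  by_cases hc : a ≤ (α - 1) * x
  · refine le_trans hfx (le_trans ?_ (le_max_left _ _))
    have hm : MonotoneOn f (Icc x 1) := by
      refine monotoneOn_of_deriv_nonneg (convex_Icc x 1) hcont.continuousOn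
        (fun t _ => (hdiff t).differentiableWithinAt) fun t ht => ?_
      rw [interior_Icc] at ht
      rw [(hder t).deriv]
      refine mul_nonneg (div_nonneg (mul_nonneg (by norm_num) (sq_nonneg _)) hlam.le) ?_
      nlinarith [ht.1, mul_lt_mul_of_pos_left ht.1 (sub_pos.2 hα)]
    have := hm (left_mem_Icc.2 hx.2) (right_mem_Icc.2 hx.2) hx.2
    refine this.trans (le_of_eq ?_)
    simp [hf]
  · push Not at hc
    refine le_trans hfx (le_trans ?_ (le_max_right _ _))
    have hm : AntitoneOn f (Icc (-1) x) := by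
      refine antitoneOn_of_deriv_nonpos (convex_Icc (-1) x) hcont.continuousOn
        (fun t _ => (hdiff t).differentiableWithinAt) fun t ht => ?_
      rw [interior_Icc] at ht
      rw [(hder t).deriv]
      refine mul_nonpos_of_nonneg_of_nonpos
        (div_nonneg (mul_nonneg (by norm_num) (sq_nonneg _)) hlam.le) ?_
      nlinarith [ht.2, mul_lt_mul_of_pos_left ht.2 (sub_pos.2 hα)]
    have := hm (left_mem_Icc.2 hx.1) (right_mem_Icc.2 hx.1) hx.1
    refine this.trans (le_of_eq ?_)
    simp [hf]

/-- `sonin` for `y = bb^{(m)}`, `m < l ≤ 2m` (`bb_ode`); for `m = l` the polynomial is constant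
(natDegree `≤ 0`). -/
theorem bb_bound_aux {l J m : ℕ} (hJ : J ≤ l) (hm : m ≤ l) (hl : l ≤ 2 * m) {x : ℝ}
    (hx : x ∈ Icc (-1:ℝ) 1) :
    |(derivative^[m] (bb ℝ l J)).eval x| ≤
      max |(derivative^[m] (bb ℝ l J)).eval 1| |(derivative^[m] (bb ℝ l J)).eval (-1)| := by
  rcases hm.lt_or_eq with hlt | rfl
  · have hode := bb_ode hJ m
    have hode' : (X ^ 2 - 1) * derivative (derivative (derivative^[m] (bb ℝ l J))) +
        (C (2 * (m : ℝ) + 2 - l) * X - C ((l : ℝ) - 2 * J)) *
          derivative (derivative^[m] (bb ℝ l J)) =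
        C (((m : ℝ) + 1) * ((l : ℝ) - m)) * derivative^[m] (bb ℝ l J) := by
      rw [Function.iterate_succ_apply', Function.iterate_succ_apply'] at hode
      exact hode
    have h1 : (0 : ℝ) < ((m : ℝ) + 1) * ((l : ℝ) - m) := by
      have : (m : ℝ) < l := by exact_mod_cast hlt
      have h0 : (0 : ℝ) ≤ m := Nat.cast_nonneg m
      nlinarith
    have h2 : (1 : ℝ) < 2 * (m : ℝ) + 2 - l := by
      have : (l : ℝ) ≤ 2 * m := by exact_mod_cast hl
      linarith
    have h3 := sonin h1 h2 hode' hx
    rcases le_max_iff.1 h3 with h4 | h4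
    · exact le_max_of_le_left (sq_le_sq.1 h4)
    · exact le_max_of_le_right (sq_le_sq.1 h4)
  · have hdeg : (derivative^[m] (bb ℝ m J)).natDegree ≤ 0 := by
      refine (natDegree_iterate_derivative _ _).trans ?_
      have h1 : (bb ℝ m J).natDegree ≤ m := by
        unfold bb
        refine natDegree_mul_le.trans ?_
        have h2 : ((X + 1 : ℝ[X]) ^ J).natDegree ≤ J := by
          refine natDegree_pow_le.trans ?_
          have : (X + 1 : ℝ[X]).natDegree ≤ 1 := by
            rw [← C_1]; exact (natDegree_X_add_C (1 : ℝ)).le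
          exact (Nat.mul_le_mul_left J this).trans (by omega)
        have h3 : ((X - 1 : ℝ[X]) ^ (m - J)).natDegree ≤ m - J := by
          refine natDegree_pow_le.trans ?_
          have : (X - 1 : ℝ[X]).natDegree ≤ 1 := by
            rw [← C_1]; exact (natDegree_X_sub_C (1 : ℝ)).le
          exact (Nat.mul_le_mul_left (m - J) this).trans (by omega)
        omega
      omega
    rw [eq_C_of_natDegree_le_zero hdeg]
    simp

end Pool.Agent.HHalf
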