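import Pool.Agent.HHalf.Defs

set_option autoImplicit false

namespace Pool.Agent.HHalf

open Polynomial Set

private theorem ssonin_aux (q : ℝ[X]) (hq : derivative q = 1) (J : ℕ) :
    q * derivative (q ^ J) = C (J : ℝ) * q ^ J := by
  rw [derivative_pow, hq, mul_one]
  rcases J with _ | J
  · simp
  · rw [Nat.add_sub_cancel, pow_succ]
    ring

/-- `p = (X+1)^J (X-1)^(l-J)`, `J ≤ l`: `(X² - 1) p' = (l X + (l - 2J)) p`. -/
theorem bb_first {l J : ℕ} (hJ : J ≤ l) :
    (X ^ 2 - 1) * derivative (bb ℝ l J) =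
      (C (l : ℝ) * X + C ((l : ℝ) - 2 * J)) * bb ℝ l J := by
  have h1 := ssonin_aux (X + 1) (by simp) J
  have h2 := ssonin_aux (X - 1) (by simp) (l - J)
  rw [Nat.cast_sub hJ, C_sub] at h2
  rw [bb, derivative_mul, C_sub, C_mul, show (C (2 : ℝ)) = 2 from rfl]
  linear_combination (X - 1) * (X - 1 : ℝ[X]) ^ (l - J) * h1 + (X + 1) * (X + 1 : ℝ[X]) ^ J * h2

/-- With `y_m = p^{(m)}`: `(X² - 1) y_{m+2} + [(2m + 2 - l) X - (l - 2J)] y_{m+1} = (m+1)(l-m) y_m`
(real coefficients). Induction on `m`, base case by differentiating `bb_first`. -/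
theorem bb_ode {l J : ℕ} (hJ : J ≤ l) (m : ℕ) :
    (X ^ 2 - 1) * derivative^[m + 2] (bb ℝ l J) +
      (C (2 * (m : ℝ) + 2 - l) * X - C ((l : ℝ) - 2 * J)) * derivative^[m + 1] (bb ℝ l J) =
      C (((m : ℝ) + 1) * ((l : ℝ) - m)) * derivative^[m] (bb ℝ l J) := by
  induction m with
  | zero =>
    have h := congrArg derivative (bb_first hJ)
    simp only [derivative_mul, derivative_sub, derivative_add, derivative_X_pow, derivative_one,
      derivative_C, derivative_X, Nat.cast_ofNat, Nat.add_one_sub_one, pow_one, zero_mul, sub_zero,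
      zero_add, add_zero, mul_one] at h
    simp only [Nat.cast_zero, mul_zero, zero_add, sub_zero, one_mul, Function.iterate_succ',
      Function.iterate_zero, Function.comp, id, C_sub, C_mul]
    simp only [C_sub, C_mul] at h
    have h2 : (C (2 : ℝ)) = 2 := rfl
    rw [h2] at h ⊢
    linear_combination h
  | succ m ih =>
    have h := congrArg derivative ih
    have e1 : derivative (derivative^[m + 2] (bb ℝ l J)) = derivative^[m + 1 + 2] (bb ℝ l J) :=
      (Function.iterate_succ_apply' _ _ _).symm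
    have e2 : derivative (derivative^[m + 1] (bb ℝ l J)) = derivative^[m + 1 + 1] (bb ℝ l J) :=
      (Function.iterate_succ_apply' _ _ _).symm
    have e3 : derivative (derivative^[m] (bb ℝ l J)) = derivative^[m + 1] (bb ℝ l J) :=
      (Function.iterate_succ_apply' _ _ _).symm
    simp only [derivative_mul, derivative_sub, derivative_add, derivative_X_pow, derivative_one,
      derivative_C, derivative_X, Nat.cast_ofNat, Nat.add_one_sub_one, pow_one, zero_mul, sub_zero,
      zero_add, mul_one, e1, e2, e3] at h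
    have h2 : (C (2 : ℝ)) = 2 := rfl
    rw [h2] at h
    have e4 : derivative^[m + 2] (bb ℝ l J) = derivative^[m + 1 + 1] (bb ℝ l J) := rfl
    rw [e4] at h
    have c1 : C (2 * ((m + 1 : ℕ) : ℝ) + 2 - l) = C (2 * (m : ℝ) + 2 - l) + 2 := by
      rw [← h2, ← C_add]; congr 1; push_cast; ring
    have c2 : C ((((m + 1 : ℕ) : ℝ) + 1) * ((l : ℝ) - (m + 1 : ℕ))) =
        C (((m : ℝ) + 1) * ((l : ℝ) - m)) - C (2 * (m : ℝ) + 2 - l) := by
      rw [← C_sub]; congr 1; push_cast; ring
    rw [c1, c2]
    linear_combination h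

end Pool.Agent.HHalf
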