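import Pool.Agent.HHalf.VTwoDefs

set_option autoImplicit false

namespace Pool.Agent.HHalf

/-- The symmetric case `J = r`, `τ = 1`: `q = C(r+2, d-1) + C(r+1, d-1)`, and
`q ≤ 2 C(r+2, d-1) ≤ (r+3-d) C(r+2, d-1) = d C(r+2, d)`, while
`2 C(r+2, d) ≤ C(r+1, d) + C(r+3, d) ≤ C(r, d) + C(r+4, d)` (convexity, Pascal). -/
theorem V2mid {r d : ℕ} (hd1 : 1 ≤ d) (hd : d ≤ r + 1) : Vgood r d r 1 := by
  obtain ⟨k, rfl⟩ : ∃ k, d = k + 1 := ⟨d - 1, by omega⟩
  have hk : k ≤ r := by omega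
  have m0 : Mv r (k + 1) r 0 = ((r + 2).choose k : ℝ) := by
    unfold Mv
    have e1 : 2 * r + 2 - (r + 0) = r + 2 := by omega
    rw [e1, Nat.add_sub_cancel, Nat.add_zero]
    exact max_eq_right (by exact_mod_cast Nat.choose_le_choose k (by omega))
  have m1 : Mv r (k + 1) r 1 = ((r + 1).choose k : ℝ) := by
    unfold Mv
    have e1 : 2 * r + 2 - (r + 1) = r + 1 := by omega
    rw [e1, Nat.add_sub_cancel]
    exact max_self _
  have m2 : Mv r (k + 1) r 2 = ((r + 2).choose k : ℝ) := by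
    unfold Mv
    have e1 : 2 * r + 2 - (r + 2) = r := by omega
    rw [e1, Nat.add_sub_cancel]
    exact max_eq_left (by exact_mod_cast Nat.choose_le_choose k (by omega))
  have g0 : gv r (k + 1) r 0 = (r.choose (k + 1) : ℝ) + ((r + 4).choose (k + 1) : ℝ) := by
    unfold gv
    have e1 : 2 * r + 4 - (r + 0) = r + 4 := by omega
    rw [e1, Nat.add_zero]
  have g1 : gv r (k + 1) r 1 = ((r + 1).choose (k + 1) : ℝ) + ((r + 3).choose (k + 1) : ℝ) := by
    unfold gv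
    have e1 : 2 * r + 4 - (r + 1) = r + 3 := by omega
    rw [e1]
  have g2 : gv r (k + 1) r 2 = ((r + 2).choose (k + 1) : ℝ) + ((r + 2).choose (k + 1) : ℝ) := by
    unfold gv
    have e1 : 2 * r + 4 - (r + 2) = r + 2 := by omega
    rw [e1]
  have g3 : gv r (k + 1) r 3 = ((r + 3).choose (k + 1) : ℝ) + ((r + 1).choose (k + 1) : ℝ) := by
    unfold gv
    have e1 : 2 * r + 4 - (r + 3) = r + 1 := by omega
    rw [e1]
  have g4 : gv r (k + 1) r 4 = ((r + 4).choose (k + 1) : ℝ) + (r.choose (k + 1) : ℝ) := by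
    unfold gv
    have e1 : 2 * r + 4 - (r + 4) = r := by omega
    rw [e1]
  -- the main inequality
  have h1 : ((r + 1).choose k : ℝ) ≤ ((r + 2).choose k : ℝ) := by
    exact_mod_cast Nat.choose_le_choose k (by omega)
  have h2 : 2 * ((r + 2).choose k : ℝ) ≤ ((k + 1 : ℕ) : ℝ) * ((r + 2).choose (k + 1) : ℝ) := by
    have e := Nat.choose_succ_right_eq (r + 2) k
    have e2 : 2 ≤ r + 2 - k := by omega
    have e3 : 2 * (r + 2).choose k ≤ (k + 1) * (r + 2).choose (k + 1) := by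
      rw [mul_comm (k + 1), e, mul_comm 2]
      exact Nat.mul_le_mul_left _ e2
    exact_mod_cast e3
  -- convexity
  have p1 : ((r + 1).choose (k + 1) : ℝ) = (r.choose k : ℝ) + (r.choose (k + 1) : ℝ) := by
    exact_mod_cast Nat.choose_succ_succ r k
  have p2 : ((r + 2).choose (k + 1) : ℝ) =
      ((r + 1).choose k : ℝ) + ((r + 1).choose (k + 1) : ℝ) := by
    exact_mod_cast Nat.choose_succ_succ (r + 1) k
  have p3 : ((r + 3).choose (k + 1) : ℝ) =
      ((r + 2).choose k : ℝ) + ((r + 2).choose (k + 1) : ℝ) := by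
    exact_mod_cast Nat.choose_succ_succ (r + 2) k
  have p4 : ((r + 4).choose (k + 1) : ℝ) =
      ((r + 3).choose k : ℝ) + ((r + 3).choose (k + 1) : ℝ) := by
    exact_mod_cast Nat.choose_succ_succ (r + 3) k
  have h3 : (r.choose k : ℝ) ≤ ((r + 3).choose k : ℝ) := by
    exact_mod_cast Nat.choose_le_choose k (by omega)
  have c1 : 2 * ((r + 2).choose (k + 1) : ℝ) ≤
      ((r + 1).choose (k + 1) : ℝ) + ((r + 3).choose (k + 1) : ℝ) := by linarith
  have c2 : 2 * ((r + 2).choose (k + 1) : ℝ) ≤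
      (r.choose (k + 1) : ℝ) + ((r + 4).choose (k + 1) : ℝ) := by linarith
  have hk0 : (0 : ℝ) ≤ ((k + 1 : ℕ) : ℝ) := Nat.cast_nonneg _
  have d1 : 2 * (((k + 1 : ℕ) : ℝ) * ((r + 2).choose (k + 1) : ℝ)) ≤
      ((k + 1 : ℕ) : ℝ) * (((r + 1).choose (k + 1) : ℝ) + ((r + 3).choose (k + 1) : ℝ)) := by
    have := mul_le_mul_of_nonneg_left c1 hk0
    linarith
  have d2 : 2 * (((k + 1 : ℕ) : ℝ) * ((r + 2).choose (k + 1) : ℝ)) ≤
      ((k + 1 : ℕ) : ℝ) * ((r.choose (k + 1) : ℝ) + ((r + 4).choose (k + 1) : ℝ)) := by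
    have := mul_le_mul_of_nonneg_left c2 hk0
    linarith
  have hp : (0 : ℝ) ≤ ((r + 2).choose k : ℝ) := Nat.cast_nonneg _
  refine ⟨one_pos, ?_, ?_, ?_, ?_, ?_⟩
  · rw [m0, m1, g0, one_mul]; linarith
  · rw [m0, m1, g1, one_mul]; linarith
  · rw [m0, m1, m2, g2, one_mul, div_one]; linarith
  · rw [m2, m1, g3, div_one]; linarith
  · rw [m2, m1, g4, div_one]; linarith

/-- `d = 1`: `M_s = 1`, `g_s = 2r + 4`, `τ = 1`. -/
theorem V2one {r J : ℕ} (hJ : J ≤ 2 * r) : Vgood r 1 J 1 := by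
  have hM : ∀ s, Mv r 1 J s = 1 := by
    intro s
    unfold Mv
    simp
  have hg : ∀ s, s ≤ 4 → gv r 1 J s = 2 * r + 4 := by
    intro s hs
    unfold gv
    rw [Nat.choose_one_right, Nat.choose_one_right, ← Nat.cast_add]
    have : J + s + (2 * r + 4 - (J + s)) = 2 * r + 4 := by omega
    rw [this]
    push_cast
    ring
  have hr : (0 : ℝ) ≤ (r : ℝ) := Nat.cast_nonneg _
  refine ⟨one_pos, ?_, ?_, ?_, ?_, ?_⟩
  · rw [hM, hM, hg 0 (by norm_num)]; push_cast; linarith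
  · rw [hM, hM, hg 1 (by norm_num)]; push_cast; linarith
  · rw [hM, hM, hM, hg 2 (by norm_num)]; push_cast; linarith
  · rw [hM, hM, hg 3 (by norm_num)]; push_cast; linarith
  · rw [hM, hM, hg 4 (by norm_num)]; push_cast; linarith

/-- Reflection `J → 2r - J`, `τ → 1/τ`: `M_s ↔ M_{2-s}`, `g_s ↔ g_{4-s}`. -/
theorem V2refl {r d J : ℕ} {τ : ℝ} (hJ : J ≤ 2 * r) (h : Vgood r d (2 * r - J) τ) :
    Vgood r d J τ⁻¹ := by
  have hM : ∀ s, s ≤ 2 → Mv r d (2 * r - J) s = Mv r d J (2 - s) := by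
    intro s hs
    unfold Mv
    have e1 : 2 * r + 2 - (2 * r - J + s) = J + (2 - s) := by omega
    have e2 : 2 * r + 2 - (J + (2 - s)) = 2 * r - J + s := by omega
    rw [e1, e2, max_comm]
  have hg : ∀ s, s ≤ 4 → gv r d (2 * r - J) s = gv r d J (4 - s) := by
    intro s hs
    unfold gv
    have e1 : 2 * r + 4 - (2 * r - J + s) = J + (4 - s) := by omega
    have e2 : 2 * r + 4 - (J + (4 - s)) = 2 * r - J + s := by omega
    rw [e1, e2, add_comm]
  obtain ⟨h0, h1, h2, h3, h4, h5⟩ := h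
  rw [hM 0 (by norm_num), hM 1 (by norm_num), hg 0 (by norm_num)] at h1
  rw [hM 0 (by norm_num), hM 1 (by norm_num), hg 1 (by norm_num)] at h2
  rw [hM 0 (by norm_num), hM 1 (by norm_num), hM 2 (by norm_num), hg 2 (by norm_num)] at h3
  rw [hM 2 (by norm_num), hM 1 (by norm_num), hg 3 (by norm_num)] at h4
  rw [hM 2 (by norm_num), hM 1 (by norm_num), hg 4 (by norm_num)] at h5
  norm_num at h1 h2 h3 h4 h5
  refine ⟨inv_pos.mpr h0, ?_, ?_, ?_, ?_, ?_⟩
  · rw [inv_mul_eq_div]; exact h5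
  · rw [inv_mul_eq_div]; exact h4
  · rw [inv_mul_eq_div, div_inv_eq_mul, mul_comm (Mv r d J 1) τ]; linarith
  · rw [div_inv_eq_mul, mul_comm (Mv r d J 1) τ]; exact h2
  · rw [div_inv_eq_mul, mul_comm (Mv r d J 1) τ]; exact h1

end Pool.Agent.HHalf
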