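import Pool.Agent.HHalf.VTwoDefs

set_option autoImplicit false

namespace Pool.Agent.HHalf

/-- `J ≥ r + 1`: the maximum is the first entry for every `s`. -/
theorem Mv_eq {r d J s : ℕ} (hJ : r + 1 ≤ J) : Mv r d J s = ((J + s).choose (d - 1) : ℝ) := by
  unfold Mv
  apply max_eq_left
  exact_mod_cast Nat.choose_le_choose (d - 1) (by omega : 2 * r + 2 - (J + s) ≤ J + s)

/-- `d g_s ≥ (J+s-d+1) B_s`, `B_s = C(J+s, d-1)`, `d ≥ 1`. -/
theorem gv_ge {r d J s : ℕ} (hd1 : 1 ≤ d) (hdJ : d ≤ J) :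
    ((J : ℝ) + s - d + 1) * ((J + s).choose (d - 1) : ℝ) ≤ d * gv r d J s := by
  unfold gv
  obtain ⟨k, rfl⟩ : ∃ k, d = k + 1 := ⟨d - 1, by omega⟩
  have h1 := Nat.choose_succ_right_eq (J + s) k
  have h2 : ((J + s).choose (k + 1) : ℝ) * (k + 1) = ((J + s).choose k : ℝ) * ((J : ℝ) + s - k) := by
    have h3 : (((J + s - k : ℕ)) : ℝ) = (J : ℝ) + s - k := by
      rw [Nat.cast_sub (by omega)]
      push_cast
      ring
    rw [← h3]
    exact_mod_cast h1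
  have h4 : (0 : ℝ) ≤ ((2 * r + 4 - (J + s)).choose (k + 1) : ℝ) := by positivity
  have h5 : (0 : ℝ) ≤ ((k : ℝ) + 1) := by positivity
  rw [Nat.add_sub_cancel]
  push_cast
  nlinarith [mul_nonneg h5 h4]

/-- `B_1² (j+2) ≤ (j+3) B_0 B_2`, `j = J - d`, i.e. `(J-d+2) C(J+1,d-1)² ≤ (J-d+3) C(J,d-1) C(J+2,d-1)`:
`(j+2) B_1 = (J+1) B_0`, `(j+3) B_2 = (J+2) B_1`. -/
theorem B_sq {d J : ℕ} (hd1 : 1 ≤ d) (hdJ : d ≤ J) :
    ((J : ℝ) - d + 2) * ((J + 1).choose (d - 1) : ℝ) ^ 2 ≤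
      ((J : ℝ) - d + 3) * (J.choose (d - 1) : ℝ) * ((J + 2).choose (d - 1) : ℝ) := by
  obtain ⟨k, rfl⟩ : ∃ k, d = k + 1 := ⟨d - 1, by omega⟩
  have h1 := Nat.choose_mul_succ_eq J k
  have h2 := Nat.choose_mul_succ_eq (J + 1) k
  have e1 : (((J + 1 - k : ℕ)) : ℝ) = (J : ℝ) + 1 - k := by
    rw [Nat.cast_sub (by omega)]
    push_cast
    ring
  have e2 : (((J + 1 + 1 - k : ℕ)) : ℝ) = (J : ℝ) + 2 - k := by
    rw [Nat.cast_sub (by omega)]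
    push_cast
    ring
  have g1 : (J.choose k : ℝ) * ((J : ℝ) + 1) = ((J + 1).choose k : ℝ) * ((J : ℝ) + 1 - k) := by
    rw [← e1]
    exact_mod_cast h1
  have g2 : ((J + 1).choose k : ℝ) * ((J : ℝ) + 2) = ((J + 2).choose k : ℝ) * ((J : ℝ) + 2 - k) := by
    rw [← e2]
    have h3 : ((J + 1).choose k : ℝ) * (((J + 1 + 1 : ℕ)) : ℝ)
        = ((J + 1 + 1).choose k : ℝ) * (((J + 1 + 1 - k : ℕ)) : ℝ) := by exact_mod_cast h2
    have h4 : (((J + 1 + 1 : ℕ)) : ℝ) = (J : ℝ) + 2 := by push_cast; ring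
    rw [h4] at h3
    exact h3
  rw [Nat.add_sub_cancel]
  have p0 : (0 : ℝ) ≤ (J.choose k : ℝ) := by positivity
  have p1 : (0 : ℝ) ≤ ((J + 1).choose k : ℝ) := by positivity
  have k1 : ((J : ℝ) - ((k + 1 : ℕ) : ℝ) + 2) * ((J + 1).choose k : ℝ) ^ 2
      = (J.choose k : ℝ) * ((J + 1).choose k : ℝ) * ((J : ℝ) + 1) := by
    push_cast
    linear_combination (-((J + 1).choose k : ℝ)) * g1
  have k2 : ((J : ℝ) - ((k + 1 : ℕ) : ℝ) + 3) * (J.choose k : ℝ) * ((J + 2).choose k : ℝ)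
      = (J.choose k : ℝ) * ((J + 1).choose k : ℝ) * ((J : ℝ) + 2) := by
    push_cast
    linear_combination (-(J.choose k : ℝ)) * g2
  rw [k1, k2]
  nlinarith [mul_nonneg p0 p1]

/-- `J ≥ d + 2`, `J ≥ r + 1`, `τ B_1 = ((j-1)/2) B_0`, `j = J - d ≥ 2`. By `Mv_eq`, `gv_ge` it suffices
that (with `t = (j-1)/2 · B_0`, `B_0 ≤ B_1 ≤ B_2 ≤ B_3 ≤ B_4`)
`2(B_0 + t) ≤ (j+1) B_0` (equality), `B_0 + t ≤ (j+2) B_1`, and with
`B_1²/t ≤ (2/(j-1)) ((j+3)/(j+2)) B_2 ≤ ((j+3)/2) B_2` (`B_sq`, `(j-1)(j+2) ≥ 4`):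
`B_0 + t + B_2 + B_1²/t ≤ (j+3) B_2`, `B_2 + B_1²/t ≤ (j+4) B_3`, `2 (B_2 + B_1²/t) ≤ (j+5) B_4`. -/
theorem V2large {r d J : ℕ} (hd1 : 1 ≤ d) (hJ : r + 1 ≤ J) (hdJ : d + 2 ≤ J) :
    Vgood r d J ((((J : ℝ) - d - 1) / 2) * (J.choose (d - 1) : ℝ) / ((J + 1).choose (d - 1) : ℝ)) := by
  have hsq := B_sq (d := d) (J := J) hd1 (by omega)
  have m0 := gv_ge (r := r) (d := d) (J := J) (s := 0) hd1 (by omega)
  have m1 := gv_ge (r := r) (d := d) (J := J) (s := 1) hd1 (by omega)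
  have m2 := gv_ge (r := r) (d := d) (J := J) (s := 2) hd1 (by omega)
  have m3 := gv_ge (r := r) (d := d) (J := J) (s := 3) hd1 (by omega)
  have m4 := gv_ge (r := r) (d := d) (J := J) (s := 4) hd1 (by omega)
  have c01 : (J.choose (d - 1) : ℝ) ≤ ((J + 1).choose (d - 1) : ℝ) := by
    exact_mod_cast Nat.choose_le_choose (d - 1) (by omega)
  have c12 : ((J + 1).choose (d - 1) : ℝ) ≤ ((J + 2).choose (d - 1) : ℝ) := by
    exact_mod_cast Nat.choose_le_choose (d - 1) (by omega)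
  have c23 : ((J + 2).choose (d - 1) : ℝ) ≤ ((J + 3).choose (d - 1) : ℝ) := by
    exact_mod_cast Nat.choose_le_choose (d - 1) (by omega)
  have c34 : ((J + 3).choose (d - 1) : ℝ) ≤ ((J + 4).choose (d - 1) : ℝ) := by
    exact_mod_cast Nat.choose_le_choose (d - 1) (by omega)
  have p0 : (0 : ℝ) < (J.choose (d - 1) : ℝ) := by
    exact_mod_cast Nat.choose_pos (by omega)
  have hj : (2 : ℝ) ≤ (J : ℝ) - d := by
    have : ((d + 2 : ℕ) : ℝ) ≤ (J : ℝ) := by exact_mod_cast hdJ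
    push_cast at this
    linarith
  unfold Vgood
  rw [Mv_eq hJ, Mv_eq hJ, Mv_eq hJ]
  simp only [Nat.cast_zero, Nat.cast_one, Nat.cast_ofNat, add_zero] at m0 m1 m2 m3 m4 ⊢
  generalize (J.choose (d - 1) : ℝ) = B0 at *
  generalize ((J + 1).choose (d - 1) : ℝ) = B1 at *
  generalize ((J + 2).choose (d - 1) : ℝ) = B2 at *
  generalize ((J + 3).choose (d - 1) : ℝ) = B3 at *
  generalize ((J + 4).choose (d - 1) : ℝ) = B4 at *
  have hJd : (J : ℝ) = ((J : ℝ) - d) + d := by ring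
  generalize (J : ℝ) - (d : ℝ) = j at *
  rw [hJd] at m1 m2 m3 m4
  have p1 : 0 < B1 := lt_of_lt_of_le p0 c01
  have p2 : 0 < B2 := lt_of_lt_of_le p1 c12
  have p3 : 0 < B3 := lt_of_lt_of_le p2 c23
  have p4 : 0 < B4 := lt_of_lt_of_le p3 c34
  have hj1 : 0 < (j - 1) / 2 := by linarith
  have ht : 0 < (j - 1) / 2 * B0 := mul_pos hj1 p0
  have hτ : (j - 1) / 2 * B0 / B1 * B1 = (j - 1) / 2 * B0 := div_mul_cancel₀ _ p1.ne'
  have hτ' : B1 / ((j - 1) / 2 * B0 / B1) = B1 ^ 2 / ((j - 1) / 2 * B0) := by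
    rw [div_div_eq_mul_div, sq]
  have hk : B1 ^ 2 / ((j - 1) / 2 * B0) ≤ (j + 3) / 2 * B2 := by
    rw [div_le_iff₀ ht]
    have e1 : 4 ≤ (j - 1) * (j + 2) := by nlinarith
    have e2 : 0 < j + 2 := by linarith
    have e3 : 0 ≤ (j + 3) * B0 * B2 := by positivity
    have e4 : (j + 2) * B1 ^ 2 ≤ (j + 2) * ((j + 3) / 2 * B2 * ((j - 1) / 2 * B0)) := by
      have e5 : (j + 2) * ((j + 3) / 2 * B2 * ((j - 1) / 2 * B0))
          = ((j - 1) * (j + 2) / 4) * ((j + 3) * B0 * B2) := by ring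
      rw [e5]
      calc (j + 2) * B1 ^ 2 ≤ (j + 3) * B0 * B2 := hsq
        _ ≤ ((j - 1) * (j + 2) / 4) * ((j + 3) * B0 * B2) := by
          apply le_mul_of_one_le_left e3
          linarith
    exact le_of_mul_le_mul_left e4 e2
  rw [hτ, hτ']
  refine ⟨div_pos ht p1, ?_, ?_, ?_, ?_, ?_⟩
  · calc 2 * (B0 + (j - 1) / 2 * B0) = (j + 1) * B0 := by ring
      _ ≤ _ := m0
  · refine le_trans ?_ m1
    nlinarith [mul_pos (show (0 : ℝ) < j by linarith) p1, mul_le_mul_of_nonneg_left c01 (show (0 : ℝ) ≤ (j + 1) / 2 by linarith)]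
  · refine le_trans ?_ m2
    have e1 : (j + 1) / 2 * B0 ≤ (j + 1) / 2 * B2 :=
      mul_le_mul_of_nonneg_left (c01.trans c12) (by linarith)
    nlinarith
  · refine le_trans ?_ m3
    have e1 : (j + 5) / 2 * B2 ≤ (j + 5) / 2 * B3 := mul_le_mul_of_nonneg_left c23 (by linarith)
    have e2 : (j + 5) / 2 * B3 ≤ (j + 4) * B3 := mul_le_mul_of_nonneg_right (by linarith) p3.le
    nlinarith
  · refine le_trans ?_ m4
    have e1 : (j + 5) * B2 ≤ (j + 5) * B4 := mul_le_mul_of_nonneg_left (c23.trans c34) (by linarith)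
    nlinarith

end Pool.Agent.HHalf
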